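import Mathlib
import Pool.Agent.H552R3.PC.Degen

/-!
Polynomials all of whose values on `N × N` matrices are nilpotent of bounded index vanish on
`N × N` matrices (any infinite field): the generic matrices are embedded in a skew polynomial ring.
-/

set_option autoImplicit false

namespace Pool.Agent.TH82.NC

open Matrix Polynomial Pool.Agent.H552R3.PC

section Shift

variable {N : ℕ} [NeZero N]

theorem nsmul_one_val (m : ℕ) : ((m • (1 : Fin N) : Fin N) : ℕ) = m % N := by
  induction m with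
  | zero => simp
  | succ m ih =>
    rw [succ_nsmul, Fin.val_add, ih, Fin.val_one', ← Nat.add_mod]

theorem val_nsmul_one (x : Fin N) : (x : ℕ) • (1 : Fin N) = x := by
  apply Fin.ext
  rw [nsmul_one_val, Nat.mod_eq_of_lt x.isLt]

variable {A : Type*} [CommRing A] (τ : A →+* A)

/-- Matrices supported on the `d`-th cyclic diagonal and equivariant under the cyclic shift. -/
def W (d : ℕ) (M : Matrix (Fin N) (Fin N) A) : Prop :=
  (∀ j k, M j k ≠ 0 → k = j + d • (1 : Fin N)) ∧ ∀ j k, M (j + 1) (k + 1) = τ (M j k)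

theorem W_zero (d : ℕ) : W (N := N) τ d 0 := ⟨fun j k h => absurd rfl h, fun j k => by simp⟩

theorem W_add {d : ℕ} {M M' : Matrix (Fin N) (Fin N) A} (h : W τ d M) (h' : W τ d M') :
    W τ d (M + M') := by
  refine ⟨fun j k hne => ?_, fun j k => by simp [h.2, h'.2]⟩
  by_cases h0 : M j k = 0
  · refine h'.1 j k (fun h1 => hne (by simp [h0, h1]))
  · exact h.1 j k h0

theorem W_sum {ι : Type*} (s : Finset ι) {d : ℕ} (M : ι → Matrix (Fin N) (Fin N) A)
    (h : ∀ i ∈ s, W τ d (M i)) : W τ d (∑ i ∈ s, M i) := by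
  classical
  induction s using Finset.induction_on with
  | empty => simpa using W_zero τ d
  | insert a s ha ih =>
    rw [Finset.sum_insert ha]
    exact W_add τ (h a (Finset.mem_insert_self _ _))
      (ih fun i hi => h i (Finset.mem_insert_of_mem hi))

theorem W_mul {d e : ℕ} {M M' : Matrix (Fin N) (Fin N) A} (h : W τ d M) (h' : W τ e M') :
    W τ (d + e) (M * M') := by
  constructor
  · intro j k hne
    rw [mul_apply] at hne
    obtain ⟨l, -, hl⟩ := Finset.exists_ne_zero_of_sum_ne_zero hne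
    have h1 : M j l ≠ 0 := left_ne_zero_of_mul hl
    have h2 : M' l k ≠ 0 := right_ne_zero_of_mul hl
    rw [h'.1 l k h2, h.1 j l h1, add_nsmul, add_assoc]
  · intro j k
    rw [mul_apply, mul_apply, map_sum]
    rw [← Equiv.sum_comp (Equiv.addRight (1 : Fin N))]
    refine Finset.sum_congr rfl fun l _ => ?_
    rw [Equiv.coe_addRight, h.2, h'.2, map_mul]

theorem W_ne [IsDomain A] (hτ : Function.Injective τ) {d : ℕ} {M : Matrix (Fin N) (Fin N) A}
    (h : W τ d M) (hM : M ≠ 0) (j : Fin N) : M j (j + d • (1 : Fin N)) ≠ 0 := by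
  obtain ⟨j0, k0, h0⟩ : ∃ j0 k0, M j0 k0 ≠ 0 := by
    by_contra hcon
    push Not at hcon
    exact hM (by ext1 a b; exact hcon a b)
  have hk := h.1 j0 k0 h0
  have hm : ∀ m : ℕ, M (j0 + m • (1 : Fin N)) (k0 + m • (1 : Fin N)) ≠ 0 := by
    intro m
    induction m with
    | zero => simpa using h0
    | succ m ih =>
      rw [succ_nsmul, ← add_assoc, ← add_assoc, h.2]
      exact (map_ne_zero_iff τ hτ).mpr ih
  have e := hm ((j - j0 : Fin N) : ℕ)
  rw [val_nsmul_one, hk] at e
  have e1 : j0 + (j - j0) = j := by abel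
  have e2 : j0 + d • (1 : Fin N) + (j - j0) = j + d • (1 : Fin N) := by abel
  rwa [e1, e2] at e

theorem W_mul_ne [IsDomain A] (hτ : Function.Injective τ) {d e : ℕ}
    {M M' : Matrix (Fin N) (Fin N) A}
    (h : W τ d M) (h' : W τ e M') (hM : M ≠ 0) (hM' : M' ≠ 0) : M * M' ≠ 0 := by
  intro h0
  have e1 : (M * M') 0 (0 + d • (1 : Fin N) + e • (1 : Fin N)) = 0 := by rw [h0]; rfl
  rw [mul_apply, Finset.sum_eq_single (0 + d • (1 : Fin N))] at e1
  · rcases mul_eq_zero.mp e1 with e2 | e2
    · exact W_ne τ hτ h hM 0 e2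
    · exact W_ne τ hτ h' hM' _ e2
  · intro b _ hb
    have : M 0 b = 0 := by
      by_contra hcon
      exact hb (h.1 0 b hcon)
    rw [this, zero_mul]
  · intro h1; exact absurd (Finset.mem_univ _) h1

theorem W_pow_ne [IsDomain A] (hτ : Function.Injective τ) {d : ℕ}
    {M : Matrix (Fin N) (Fin N) A} (h : W τ d M) (hM : M ≠ 0) (ν : ℕ) :
    W τ (ν * d) (M ^ ν) ∧ M ^ ν ≠ 0 := by
  induction ν with
  | zero =>
    rw [pow_zero, zero_mul]
    refine ⟨⟨fun j k hjk => ?_, fun j k => ?_⟩, ?_⟩
    · by_contra hcon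
      apply hjk
      rw [one_apply_ne]
      intro e; apply hcon; rw [e]; simp
    · by_cases hjk : j = k
      · subst hjk; simp
      · rw [one_apply_ne hjk, one_apply_ne (fun e => hjk (add_right_cancel e)), map_zero]
    · intro h1
      have := congrFun (congrFun h1 0) 0
      simp at this
  | succ ν ih =>
    rw [pow_succ, Nat.succ_mul]
    exact ⟨W_mul τ ih.1 h, W_mul_ne τ hτ ih.1 h ih.2 hM⟩

end Shift

section Poly

variable {K : Type*} [Field K] {N : ℕ} [NeZero N] {A : Type*} [CommRing A] [Algebra K A]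

/-- Polynomials with matrix coefficients, the `d`-th coefficient lying in `W d`. -/
def S (τ : A →ₐ[K] A) : Subalgebra K (Matrix (Fin N) (Fin N) A)[X] where
  carrier := {q | ∀ d, W (τ : A →+* A) d (q.coeff d)}
  mul_mem' := by
    intro p q hp hq d
    rw [Polynomial.coeff_mul]
    refine W_sum _ _ _ fun x hx => ?_
    rw [← Finset.HasAntidiagonal.mem_antidiagonal.mp hx]
    exact W_mul _ (hp _) (hq _)
  add_mem' := by
    intro p q hp hq d
    rw [Polynomial.coeff_add]
    exact W_add _ (hp d) (hq d)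
  algebraMap_mem' := by
    intro c d
    have : (algebraMap K (Matrix (Fin N) (Fin N) A)[X]) c =
      C (algebraMap K (Matrix (Fin N) (Fin N) A) c) := rfl
    rw [this, coeff_C]
    by_cases hd : d = 0
    · rw [if_pos hd, hd]
      refine ⟨fun j k hjk => ?_, fun j k => ?_⟩
      · by_contra hcon
        apply hjk
        rw [algebraMap_matrix_apply, if_neg]
        intro e; apply hcon; rw [e]; simp
      · rw [algebraMap_matrix_apply, algebraMap_matrix_apply]
        by_cases hjk : j = k
        · subst hjk; simp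
        · rw [if_neg hjk, if_neg (fun e => hjk (add_right_cancel e)), map_zero]
    · rw [if_neg hd]; exact W_zero _ d

theorem S_pow [IsDomain A] (τ : A →ₐ[K] A) (hτ : Function.Injective τ)
    {q : (Matrix (Fin N) (Fin N) A)[X]} (hq : q ∈ S (K := K) τ) (ν : ℕ) (h : q ^ ν = 0) :
    q = 0 := by
  by_contra hne
  have h1 : q.leadingCoeff ≠ 0 := leadingCoeff_ne_zero.mpr hne
  have h2 := (W_pow_ne (τ : A →+* A) hτ (hq q.natDegree) h1 ν).2
  apply h2
  have h3 := coeff_pow_mul_natDegree q ν
  rw [h, coeff_zero] at h3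
  exact h3.symm

end Poly

section Main

variable {K : Type*} [Field K] {σ : Type*}

/-- Generic matrices with the entry `(j, k)` scaled by the power `(k - j) mod N` of the variable. -/
noncomputable def V (K : Type*) [Field K] (σ : Type*) (N : ℕ) [NeZero N] (i : σ) :
    Matrix (Fin N) (Fin N) (GA K σ N)[X] :=
  Matrix.of fun j k => C (MvPolynomial.X (i, j, k)) * X ^ ((k - j : Fin N) : ℕ)

/-- The shift. -/
noncomputable def sh (K : Type*) [Field K] (σ : Type*) (N : ℕ) [NeZero N] :
    GA K σ N →ₐ[K] GA K σ N :=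
  MvPolynomial.rename fun p => (p.1, p.2.1 + 1, p.2.2 + 1)

theorem sh_inj (N : ℕ) [NeZero N] : Function.Injective (sh K σ N) := by
  apply MvPolynomial.rename_injective
  rintro ⟨a, b, c⟩ ⟨a', b', c'⟩ h
  simp only [Prod.mk.injEq, add_left_inj] at h
  obtain ⟨rfl, rfl, rfl⟩ := h
  rfl

theorem V_mem (N : ℕ) [NeZero N] (i : σ) :
    matPolyEquiv (V K σ N i) ∈ S (K := K) (sh K σ N) := by
  intro d
  constructor
  · intro j k h
    rw [matPolyEquiv_coeff_apply] at h
    simp only [V, Matrix.of_apply, coeff_C_mul, coeff_X_pow] at h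
    by_cases hd : d = ((k - j : Fin N) : ℕ)
    · rw [hd, val_nsmul_one]; abel
    · rw [if_neg hd, mul_zero] at h; exact absurd rfl h
  · intro j k
    rw [matPolyEquiv_coeff_apply, matPolyEquiv_coeff_apply]
    simp only [V, Matrix.of_apply, coeff_C_mul, coeff_X_pow, add_sub_add_right_eq_sub]
    split_ifs
    · simp [sh]
    · simp

/-- If `f ^ ν` vanishes on `N × N` matrices over an infinite field, then so does `f`. -/
theorem vanish_of_pow [Infinite K] (N : ℕ) (f : FreeAlgebra K σ) (ν : ℕ)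
    (h : ∀ X : σ → Matrix (Fin N) (Fin N) K, FreeAlgebra.lift K X (f ^ ν) = 0)
    (X0 : σ → Matrix (Fin N) (Fin N) K) : FreeAlgebra.lift K X0 f = 0 := by
  rcases Nat.eq_zero_or_pos N with rfl | hN
  · exact Subsingleton.elim _ _
  have : NeZero N := ⟨hN.ne'⟩
  set F := FreeAlgebra.lift K (V K σ N) f with hF
  let Φ : Matrix (Fin N) (Fin N) (GA K σ N)[X] →ₐ[K] (Matrix (Fin N) (Fin N) (GA K σ N))[X] :=
    (matPolyEquiv (n := Fin N) (R := GA K σ N)).toAlgHom.restrictScalars K
  have hΦ : ∀ M, Φ M = matPolyEquiv M := fun M => rfl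
  have h1 : Φ F ∈ S (K := K) (sh K σ N) := by
    rw [hF, lift_map]
    exact lift_mem _ _ (fun i => V_mem N i) f
  have h2 : (Φ F) ^ ν = 0 := by
    rw [← map_pow, hF, ← map_pow, transfer (f ^ ν) h, map_zero]
  have h3 : Φ F = 0 := S_pow (sh K σ N) (sh_inj N) h1 ν h2
  have h4 : F = 0 := by
    rw [hΦ] at h3
    exact (EmbeddingLike.map_eq_zero_iff (f := matPolyEquiv (n := Fin N) (R := GA K σ N))).mp h3
  let ψ : (GA K σ N)[X] →ₐ[K] K :=
    (spz X0).comp ((Polynomial.aeval (R := GA K σ N) (1 : GA K σ N)).restrictScalars K)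
  have hψ : (fun i => ψ.mapMatrix (V K σ N i)) = X0 := by
    funext i
    ext b c
    simp [ψ, V, spz]
  have e := congrArg (AlgHom.mapMatrix (m := Fin N) ψ) h4
  rw [hF, lift_map, hψ, map_zero] at e
  exact e

end Main

end Pool.Agent.TH82.NC
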