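import Mathlib
import Pool.Agent.TH82.NC.Dom

/-!
Block diagonal substitutions, and the vanishing of entries of triangular substitutions.
-/

set_option autoImplicit false

namespace Pool.Agent.TH82.NC

open Matrix Pool.Agent.H552R3.PC

variable {K : Type*} [Field K] {σ : Type*}

section Blk

/-- The block diagonal embedding. -/
def bd (K : Type*) [Field K] (m r : ℕ) :
    (Matrix (Fin m) (Fin m) K × Matrix (Fin r) (Fin r) K) →ₐ[K]
      Matrix (Fin m ⊕ Fin r) (Fin m ⊕ Fin r) K where
  toFun p := fromBlocks p.1 0 0 p.2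
  map_one' := fromBlocks_one
  map_mul' p q := by simp [fromBlocks_multiply]
  map_zero' := fromBlocks_zero
  map_add' p q := by simp [fromBlocks_add]
  commutes' c := by
    ext a b
    rcases a with a | a <;> rcases b with b | b <;>
      simp [algebraMap_matrix_apply, Prod.algebraMap_apply]

/-- The value at `0` is the constant term, in every algebra. -/
theorem lift_zero {A : Type*} [Ring A] [Algebra K A] (f : FreeAlgebra K σ) :
    FreeAlgebra.lift K (fun _ : σ => (0 : A)) f =
      algebraMap K A (FreeAlgebra.lift K (fun _ : σ => (0 : K)) f) := by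
  have := lift_map (Algebra.ofId K A) (fun _ : σ => (0 : K)) f
  rw [Algebra.ofId_apply] at this
  rw [this]
  congr 2
  funext i
  simp

/-- If `f` has constant term `0` and `f ^ ν` is scalar valued on `M_n(K)`, then `f` vanishes on
`M_m(K)` for all `m < n`. -/
theorem vanish_lower [Infinite K] {n : ℕ} (f : FreeAlgebra K σ) (ν : ℕ) (hν : 0 < ν)
    (h0 : FreeAlgebra.lift K (fun _ : σ => (0 : K)) f = 0)
    (h : ∀ X : σ → Matrix (Fin n) (Fin n) K, ∃ c : K,
      FreeAlgebra.lift K X (f ^ ν) = Matrix.scalar (Fin n) c)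
    (m : ℕ) (hm : m < n) (Y : σ → Matrix (Fin m) (Fin m) K) : FreeAlgebra.lift K Y f = 0 := by
  refine vanish_of_pow m f ν (fun Y => ?_) Y
  obtain ⟨r, rfl⟩ : ∃ r, n = m + r := ⟨n - m, by omega⟩
  have hr : 0 < r := by omega
  let e := Matrix.reindexAlgEquiv K K (finSumFinEquiv (m := m) (n := r))
  let X : σ → Matrix (Fin (m + r)) (Fin (m + r)) K := fun i => e (bd K m r (Y i, 0))
  obtain ⟨c, hc⟩ := h X
  have h1 : FreeAlgebra.lift K X (f ^ ν) =
      e (bd K m r (FreeAlgebra.lift K (fun i => ((Y i, 0) : Matrix (Fin m) (Fin m) K ×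
        Matrix (Fin r) (Fin r) K)) (f ^ ν))) := by
    have := lift_map (e.toAlgHom.comp (bd K m r)) (fun i => ((Y i, 0) : Matrix (Fin m) (Fin m) K ×
        Matrix (Fin r) (Fin r) K)) (f ^ ν)
    exact this.symm
  have h2 : (FreeAlgebra.lift K (fun i => ((Y i, 0) : Matrix (Fin m) (Fin m) K ×
        Matrix (Fin r) (Fin r) K)) (f ^ ν)).1 = FreeAlgebra.lift K Y (f ^ ν) := by
    have := lift_map (AlgHom.fst K (Matrix (Fin m) (Fin m) K) (Matrix (Fin r) (Fin r) K))
      (fun i => (Y i, 0)) (f ^ ν)
    exact this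
  have h3 : (FreeAlgebra.lift K (fun i => ((Y i, 0) : Matrix (Fin m) (Fin m) K ×
        Matrix (Fin r) (Fin r) K)) (f ^ ν)).2 = 0 := by
    have := lift_map (AlgHom.snd K (Matrix (Fin m) (Fin m) K) (Matrix (Fin r) (Fin r) K))
      (fun i => (Y i, 0)) (f ^ ν)
    simp only [AlgHom.snd_apply] at this
    rw [this, map_pow, lift_zero, h0, map_zero, zero_pow hν.ne']
  rw [h1] at hc
  have hc0 : c = 0 := by
    have e1 := congrFun (congrFun hc (finSumFinEquiv (Sum.inr ⟨0, hr⟩)))
      (finSumFinEquiv (Sum.inr ⟨0, hr⟩))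
    simp only [e, Matrix.reindexAlgEquiv_apply, Matrix.reindex_apply, submatrix_apply,
      Equiv.symm_apply_apply, bd, AlgHom.coe_mk, RingHom.coe_mk, MonoidHom.coe_mk, OneHom.coe_mk,
      fromBlocks_apply₂₂, h3, Matrix.zero_apply, scalar_apply, diagonal_apply_eq] at e1
    exact e1.symm
  ext a b
  have e1 := congrFun (congrFun hc (finSumFinEquiv (Sum.inl a))) (finSumFinEquiv (Sum.inl b))
  simp only [e, Matrix.reindexAlgEquiv_apply, Matrix.reindex_apply, submatrix_apply,
      Equiv.symm_apply_apply, bd, AlgHom.coe_mk, RingHom.coe_mk, MonoidHom.coe_mk, OneHom.coe_mk,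
      fromBlocks_apply₁₁, h2, hc0, map_zero, Matrix.zero_apply] at e1
  rw [e1, Matrix.zero_apply]

end Blk

section Inc

variable {B : Type*} [CommRing B] [Algebra K B] {n : ℕ}

/-- The incidence algebra of a preorder. -/
def inc (K : Type*) [Field K] {B : Type*} [CommRing B] [Algebra K B] {n : ℕ}
    (r : Fin n → Fin n → Prop) (hr : ∀ a, r a a) (ht : ∀ a b c, r a b → r b c → r a c) :
    Subalgebra K (Matrix (Fin n) (Fin n) B) where
  carrier := {M | ∀ a b, M a b ≠ 0 → r a b}
  mul_mem' := by
    intro M M' h h' a b hab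
    rw [mul_apply] at hab
    obtain ⟨c, -, hc⟩ := Finset.exists_ne_zero_of_sum_ne_zero hab
    exact ht _ _ _ (h a c (left_ne_zero_of_mul hc)) (h' c b (right_ne_zero_of_mul hc))
  add_mem' := by
    intro M M' h h' a b hab
    by_cases h0 : M a b = 0
    · exact h' a b (fun h1 => hab (by simp [h0, h1]))
    · exact h a b h0
  algebraMap_mem' := by
    intro c a b hab
    rw [algebraMap_matrix_apply] at hab
    by_cases e : a = b
    · rw [e]; exact hr b
    · rw [if_neg e] at hab; exact absurd rfl hab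

/-- Restriction to the interval between `u` and `w`. -/
def res (r : Fin n → Fin n → Prop) (hr : ∀ a, r a a)
    (ht : ∀ a b c, r a b → r b c → r a c) (u w : Fin n) (V : Finset (Fin n))
    (hV : ∀ v, v ∈ V ↔ r u v ∧ r v w) :
    inc K (B := B) r hr ht →ₐ[K] Matrix V V B where
  toFun M := M.1.submatrix Subtype.val Subtype.val
  map_one' := by
    ext a b
    show (1 : Matrix (Fin n) (Fin n) B) a.1 b.1 = _
    by_cases h : a = b
    · subst h; rw [one_apply_eq, one_apply_eq]
    · rw [one_apply_ne h, one_apply_ne (fun e => h (Subtype.ext e))]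
  map_mul' M M' := by
    ext a b
    show (M.1 * M'.1) a.1 b.1 = _
    rw [mul_apply, mul_apply]
    have h1 : ∑ c : V, M.1.submatrix Subtype.val Subtype.val a c *
        M'.1.submatrix Subtype.val Subtype.val c b = ∑ c ∈ V, M.1 a.1 c * M'.1 c b.1 := by
      rw [← Finset.sum_coe_sort V (fun c => M.1 a.1 c * M'.1 c b.1)]
      rfl
    rw [h1]
    symm
    apply Finset.sum_subset (Finset.subset_univ _)
    intro c _ hc
    by_contra hne
    apply hc
    rw [hV]
    exact ⟨ht _ _ _ ((hV _).mp a.2).1 (M.2 _ _ (left_ne_zero_of_mul hne)),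
      ht _ _ _ (M'.2 _ _ (right_ne_zero_of_mul hne)) ((hV _).mp b.2).2⟩
  map_zero' := rfl
  map_add' M M' := rfl
  commutes' c := by
    ext a b
    show (algebraMap K (Matrix (Fin n) (Fin n) B) c) a.1 b.1 = _
    rw [algebraMap_matrix_apply, algebraMap_matrix_apply]
    by_cases h : a = b
    · subst h; rw [if_pos rfl, if_pos rfl]
    · rw [if_neg h, if_neg (fun e => h (Subtype.ext e))]

/-- If `f` is an identity of all smaller matrix algebras and the substituted matrices lie in the
incidence algebra of a preorder, then the entry `(u, w)` of the value vanishes unless every vertex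
is between `u` and `w`. -/
theorem entry_zero [Infinite K] (f : FreeAlgebra K σ)
    (hf : ∀ m < n, ∀ Y : σ → Matrix (Fin m) (Fin m) K, FreeAlgebra.lift K Y f = 0)
    (r : Fin n → Fin n → Prop) (hr : ∀ a, r a a) (ht : ∀ a b c, r a b → r b c → r a c)
    (X : σ → Matrix (Fin n) (Fin n) B) (hX : ∀ i a b, X i a b ≠ 0 → r a b) (u w : Fin n)
    (hne : FreeAlgebra.lift K X f u w ≠ 0) : ∀ v, r u v ∧ r v w := by
  classical
  by_contra hcon
  push Not at hcon
  obtain ⟨v0, hv0⟩ := hcon
  let X' : σ → inc K (B := B) r hr ht := fun i => ⟨X i, hX i⟩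
  have h1 : FreeAlgebra.lift K X f = (FreeAlgebra.lift K X' f).1 :=
    (lift_map (inc K (B := B) r hr ht).val X' f).symm
  have hrw : r u w := (FreeAlgebra.lift K X' f).2 u w (by rw [← h1]; exact hne)
  let V : Finset (Fin n) := Finset.univ.filter fun v => r u v ∧ r v w
  have hV : ∀ v, v ∈ V ↔ r u v ∧ r v w := fun v => by simp [V]
  have h2 := lift_map (res r hr ht u w V hV) X' f
  have hcard : V.card < n := by
    have : V.card < (Finset.univ : Finset (Fin n)).card := by
      apply Finset.card_lt_card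
      refine ⟨Finset.subset_univ _, fun h => ?_⟩
      exact absurd ((hV v0).mp (h (Finset.mem_univ v0))).2 (hv0 ((hV v0).mp
        (h (Finset.mem_univ v0))).1)
    rwa [Finset.card_fin] at this
  let e : V ≃ Fin V.card := V.equivFin
  have h3 : FreeAlgebra.lift K (fun i => res r hr ht u w V hV (X' i)) f = 0 := by
    have h4 := lift_map (Matrix.reindexAlgEquiv K B e).toAlgHom
      (fun i => res r hr ht u w V hV (X' i)) f
    have h5 : (Matrix.reindexAlgEquiv K B e)
        (FreeAlgebra.lift K (fun i => res r hr ht u w V hV (X' i)) f) = 0 := by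
      refine Eq.trans h4 ?_
      exact transfer f (hf _ hcard) _
    exact (EmbeddingLike.map_eq_zero_iff (f := Matrix.reindexAlgEquiv K B e)).mp h5
  rw [h3] at h2
  have h6 := congrFun (congrFun h2 ⟨u, (hV u).mpr ⟨hr u, hrw⟩⟩) ⟨w, (hV w).mpr ⟨hrw, hr w⟩⟩
  apply hne
  rw [h1]
  exact h6

end Inc

end Pool.Agent.TH82.NC
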