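import Mathlib
import Pool.Agent.TH82.NC.Blk

/-!
Tridiagonal substitutions: the part of lowest degree in the off-diagonal entries.
-/

set_option autoImplicit false

namespace Pool.Agent.TH82.NC

open Matrix Pool.Agent.H552R3.PC

/-- Arcs of the path graph on `k + 1` vertices. -/
abbrev Arc (k : ℕ) := Bool × Fin k

/-- Source of an arc. -/
def src {k : ℕ} (e : Arc k) : Fin (k + 1) := if e.1 then e.2.castSucc else e.2.succ

/-- Target of an arc. -/
def dst {k : ℕ} (e : Arc k) : Fin (k + 1) := if e.1 then e.2.succ else e.2.castSucc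

/-- The relation given by a set of arcs. -/
def arc {k : ℕ} (S : Finset (Arc k)) (a b : Fin (k + 1)) : Prop := ∃ e ∈ S, src e = a ∧ dst e = b

section Comb

variable {k : ℕ} {S : Finset (Arc k)}

theorem cross_down {a b : Fin (k + 1)} (h : Relation.ReflTransGen (arc S) a b) (j : Fin k)
    (ha : (j : ℕ) < a) (hb : (b : ℕ) ≤ j) : ((false, j) : Arc k) ∈ S := by
  induction h with
  | refl => omega
  | tail hab hbc ih =>
    rename_i b c
    by_cases hb' : (b : ℕ) ≤ j
    · exact ih hb'
    · obtain ⟨⟨t, j'⟩, he, h1, h2⟩ := hbc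
      cases t with
      | true =>
        simp only [src, dst, if_true] at h1 h2
        rw [← h1] at hb'
        rw [← h2] at hb
        simp at hb' hb
        omega
      | false =>
        simp only [src, dst, Bool.false_eq_true, if_false] at h1 h2
        rw [← h1] at hb'
        rw [← h2] at hb
        simp at hb' hb
        have : j' = j := Fin.ext (by omega)
        rw [← this]; exact he

theorem cross_up {a b : Fin (k + 1)} (h : Relation.ReflTransGen (arc S) a b) (j : Fin k)
    (ha : (a : ℕ) ≤ j) (hb : (j : ℕ) < b) : ((true, j) : Arc k) ∈ S := by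
  induction h with
  | refl => omega
  | tail hab hbc ih =>
    rename_i b c
    by_cases hb' : (j : ℕ) < b
    · exact ih hb'
    · obtain ⟨⟨t, j'⟩, he, h1, h2⟩ := hbc
      cases t with
      | true =>
        simp only [src, dst, if_true] at h1 h2
        rw [← h1] at hb'
        rw [← h2] at hb
        simp at hb' hb
        have : j' = j := Fin.ext (by omega)
        rw [← this]; exact he
      | false =>
        simp only [src, dst, Bool.false_eq_true, if_false] at h1 h2
        rw [← h1] at hb'
        rw [← h2] at hb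
        simp at hb' hb
        omega

/-- If every vertex lies between `u` and `w`, at least `k` arcs are needed, and `k` arcs suffice
only for the two directed paths. -/
theorem comb {u w : Fin (k + 1)}
    (h : ∀ v, Relation.ReflTransGen (arc S) u v ∧ Relation.ReflTransGen (arc S) v w) :
    k ≤ S.card ∧ (S.card ≤ k → (u = 0 ∧ w = Fin.last k) ∨ (u = Fin.last k ∧ w = 0)) := by
  let φ : Fin k → Arc k := fun j => if (j : ℕ) < u then (false, j) else (true, j)
  have hφ2 : ∀ j, (φ j).2 = j := fun j => by simp only [φ]; split_ifs <;> rfl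
  have hφ : ∀ j, φ j ∈ S := by
    intro j
    simp only [φ]
    split_ifs with hj
    · exact cross_down (h 0).1 j hj (by simp)
    · exact cross_up (h (Fin.last k)).1 j (by omega) (by simp)
  have hinj : Function.Injective φ := fun a b hab => by rw [← hφ2 a, ← hφ2 b, hab]
  have hsub : Finset.univ.image φ ⊆ S := by
    intro e he
    obtain ⟨j, -, rfl⟩ := Finset.mem_image.mp he
    exact hφ j
  have hcard : (Finset.univ.image φ).card = k := by
    rw [Finset.card_image_of_injective _ hinj, Finset.card_fin]
  refine ⟨hcard.symm.le.trans (Finset.card_le_card hsub), fun hle => ?_⟩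
  have hS : Finset.univ.image φ = S := Finset.eq_of_subset_of_card_le hsub (by rw [hcard]; exact hle)
  have h1 : ∀ j : Fin k, (j : ℕ) < w → (u : ℕ) ≤ j := by
    intro j hj
    have h2 := cross_up (h 0).2 j (by simp) hj
    rw [← hS] at h2
    obtain ⟨j', -, hj'⟩ := Finset.mem_image.mp h2
    have h3 : j' = j := by rw [← hφ2 j', hj']
    subst h3
    simp only [φ] at hj'
    by_contra hcon
    rw [if_pos (by omega)] at hj'
    exact absurd (congrArg Prod.fst hj') (by simp)
  have h2 : ∀ j : Fin k, (w : ℕ) ≤ j → (j : ℕ) < u := by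
    intro j hj
    have h2 := cross_down (h (Fin.last k)).2 j (by simp) hj
    rw [← hS] at h2
    obtain ⟨j', -, hj'⟩ := Finset.mem_image.mp h2
    have h3 : j' = j := by rw [← hφ2 j', hj']
    subst h3
    simp only [φ] at hj'
    by_contra hcon
    rw [if_neg (by omega)] at hj'
    exact absurd (congrArg Prod.fst hj') (by simp)
  by_cases hu : (u : ℕ) = 0
  · left
    refine ⟨Fin.ext hu, Fin.ext ?_⟩
    by_contra hw
    have hwk : (w : ℕ) < k := by
      have := w.isLt
      simp only [Fin.val_last] at hw
      omega
    have := h2 ⟨w, hwk⟩ (le_refl _)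
    omega
  · right
    have hk : 0 < k := by have := u.isLt; omega
    have hw : (w : ℕ) = 0 := by
      by_contra hw
      have h3 : (u : ℕ) ≤ 0 := h1 ⟨0, hk⟩ (show (0 : ℕ) < (w : ℕ) by omega)
      omega
    refine ⟨Fin.ext ?_, Fin.ext hw⟩
    have h3 : k - 1 < (u : ℕ) := h2 ⟨k - 1, by omega⟩ (show (w : ℕ) ≤ k - 1 by omega)
    have h4 := u.isLt
    rw [Fin.val_last]
    omega

end Comb

section Gen

variable {K : Type*} [Field K] {σ : Type*} {k : ℕ}

/-- The coefficient ring. -/
abbrev TA (K : Type*) [Field K] (σ : Type*) (k : ℕ) := MvPolynomial (σ × (Fin (k + 1) ⊕ Arc k)) K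

/-- The ring with one more variable for each arc. -/
abbrev RR (K : Type*) [Field K] (σ : Type*) (k : ℕ) := MvPolynomial (Arc k) (TA K σ k)

/-- Generic tridiagonal matrices. -/
noncomputable def tri (K : Type*) [Field K] (σ : Type*) (k : ℕ) (i : σ) :
    Matrix (Fin (k + 1)) (Fin (k + 1)) (RR K σ k) :=
  Matrix.diagonal (fun v => MvPolynomial.C (MvPolynomial.X (i, Sum.inl v))) +
    ∑ e : Arc k, Matrix.single (src e) (dst e)
      (MvPolynomial.X e * MvPolynomial.C (MvPolynomial.X (i, Sum.inr e)))

open Classical in
/-- Setting the arc variables outside `S` to zero. -/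
noncomputable def kill (K : Type*) [Field K] (σ : Type*) {k : ℕ} (S : Finset (Arc k)) :
    RR K σ k →ₐ[TA K σ k] RR K σ k :=
  MvPolynomial.aeval fun e => if e ∈ S then MvPolynomial.X e else 0

theorem coeff_kill (S : Finset (Arc k)) (m : Arc k →₀ ℕ) (hm : m.support ⊆ S) (g : RR K σ k) :
    MvPolynomial.coeff m (kill K σ S g) = MvPolynomial.coeff m g := by
  classical
  induction g using MvPolynomial.induction_on' with
  | monomial s a =>
    rw [kill, MvPolynomial.aeval_monomial, MvPolynomial.algebraMap_eq]
    by_cases hs : s.support ⊆ S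
    · have : (s.prod fun i k => (if i ∈ S then (MvPolynomial.X i : RR K σ _) else 0) ^ k) =
          s.prod fun i k => (MvPolynomial.X i : RR K σ _) ^ k := by
        refine Finset.prod_congr rfl fun e he => ?_
        simp only [if_pos (hs he)]
      rw [this, ← MvPolynomial.monomial_eq]
    · obtain ⟨e, he, heS⟩ := Finset.not_subset.mp hs
      have : (s.prod fun i k => (if i ∈ S then (MvPolynomial.X i : RR K σ _) else 0) ^ k) = 0 := by
        refine Finset.prod_eq_zero he ?_
        simp only [if_neg heS]
        exact zero_pow (Finsupp.mem_support_iff.mp he)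
      rw [this, mul_zero, MvPolynomial.coeff_zero, MvPolynomial.coeff_monomial, if_neg]
      rintro rfl
      exact heS (hm he)
  | add p q hp hq => rw [map_add, MvPolynomial.coeff_add, MvPolynomial.coeff_add, hp, hq]

theorem tri_kill (S : Finset (Arc k)) (i : σ) (a b : Fin (k + 1))
    (h : ((kill K σ S).restrictScalars K).mapMatrix (tri K σ k i) a b ≠ 0) :
    Relation.ReflTransGen (arc S) a b := by
  classical
  by_cases hab : a = b
  · rw [hab]
  rw [tri, AlgHom.mapMatrix_apply, Matrix.map_apply, Matrix.add_apply, Matrix.diagonal_apply_ne _ hab,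
    zero_add, Matrix.sum_apply, map_sum] at h
  obtain ⟨e, -, he⟩ := Finset.exists_ne_zero_of_sum_ne_zero h
  by_cases h1 : src e = a ∧ dst e = b
  · obtain ⟨rfl, rfl⟩ := h1
    rw [Matrix.single_apply_same] at he
    refine Relation.ReflTransGen.single ⟨e, ?_, rfl, rfl⟩
    by_contra hS
    apply he
    simp [kill, hS]
  · rw [Matrix.single_apply_of_ne _ _ _ _ _ h1, map_zero] at he
    exact absurd rfl he

/-- The support of the entries of the value of an identity of smaller matrix algebras. -/
theorem supp_tri [Infinite K] (f : FreeAlgebra K σ)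
    (hf : ∀ m < k + 1, ∀ Y : σ → Matrix (Fin m) (Fin m) K, FreeAlgebra.lift K Y f = 0)
    (u w : Fin (k + 1)) (m : Arc k →₀ ℕ)
    (hm : MvPolynomial.coeff m (FreeAlgebra.lift K (tri K σ k) f u w) ≠ 0) :
    k ≤ m.degree ∧ (m.degree ≤ k → (u = 0 ∧ w = Fin.last k) ∨ (u = Fin.last k ∧ w = 0)) := by
  have h1 : FreeAlgebra.lift K (fun i => ((kill K σ m.support).restrictScalars K).mapMatrix
      (tri K σ k i)) f u w ≠ 0 := by
    rw [← lift_map]
    intro h0
    apply hm
    rw [← coeff_kill m.support m subset_rfl]
    have : kill K σ m.support (FreeAlgebra.lift K (tri K σ k) f u w) = 0 := h0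
    rw [this, MvPolynomial.coeff_zero]
  have h2 := comb (entry_zero f hf (Relation.ReflTransGen (arc m.support))
    (fun a => Relation.ReflTransGen.refl) (fun a b c => Relation.ReflTransGen.trans) _
    (fun i a b hne => tri_kill m.support i a b hne) u w h1)
  have h3 : m.support.card ≤ m.degree := by
    rw [Finsupp.degree_apply, Finset.card_eq_sum_ones]
    exact Finset.sum_le_sum fun e he => Nat.one_le_iff_ne_zero.mpr (Finsupp.mem_support_iff.mp he)
  exact ⟨h2.1.trans h3, fun hle => h2.2 (h3.trans hle)⟩

end Gen

end Pool.Agent.TH82.NC
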