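import Mathlib
import Pool.Agent.TH82.NC.Tri

/-!
The lowest part of the value on tridiagonal matrices, and the vanishing of the values on upper
bidiagonal matrices.
-/

set_option autoImplicit false

namespace Pool.Agent.TH82.NC

open Matrix Polynomial Pool.Agent.H552R3.PC

variable {K : Type*} [Field K] {σ : Type*} {k : ℕ}

/-- All arc variables become `s`. -/
noncomputable def sp (K : Type*) [Field K] (σ : Type*) (k : ℕ) :
    RR K σ k →ₐ[TA K σ k] (TA K σ k)[X] :=
  MvPolynomial.aeval fun _ => (X : (TA K σ k)[X])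

theorem sp_coeff (g : RR K σ k) (d : ℕ) :
    (sp K σ k g).coeff d = ∑ m ∈ g.support with m.degree = d, MvPolynomial.coeff m g := by
  classical
  have h1 : sp K σ k g = ∑ m ∈ g.support, C (MvPolynomial.coeff m g) * X ^ m.degree := by
    rw [sp, MvPolynomial.aeval_def, MvPolynomial.eval₂_eq]
    refine Finset.sum_congr rfl fun m _ => ?_
    rw [Finset.prod_pow_eq_pow_sum, ← Finsupp.degree_apply]
    rfl
  rw [h1, finsetSum_coeff, Finset.sum_filter]
  refine Finset.sum_congr rfl fun m _ => ?_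
  rw [coeff_C_mul_X_pow]
  by_cases h : m.degree = d
  · rw [if_pos h, if_pos h.symm]
  · rw [if_neg h, if_neg (fun e => h e.symm)]

/-- The value at tridiagonal matrices with off-diagonal entries scaled by `s`. -/
noncomputable def QQ (k : ℕ) (f : FreeAlgebra K σ) :
    Matrix (Fin (k + 1)) (Fin (k + 1)) (TA K σ k)[X] :=
  FreeAlgebra.lift K (fun i => ((sp K σ k).restrictScalars K).mapMatrix (tri K σ k i)) f

theorem QQ_eq (f : FreeAlgebra K σ) (u w : Fin (k + 1)) :
    QQ k f u w = sp K σ k (FreeAlgebra.lift K (tri K σ k) f u w) := by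
  have := lift_map ((sp K σ k).restrictScalars K).mapMatrix (tri K σ k) f
  rw [QQ, ← this]
  rfl

theorem QQ_low [Infinite K] (f : FreeAlgebra K σ)
    (hf : ∀ m < k + 1, ∀ Y : σ → Matrix (Fin m) (Fin m) K, FreeAlgebra.lift K Y f = 0)
    (u w : Fin (k + 1)) (d : ℕ) (hd : (QQ k f u w).coeff d ≠ 0) :
    k ≤ d ∧ (d ≤ k → (u = 0 ∧ w = Fin.last k) ∨ (u = Fin.last k ∧ w = 0)) := by
  rw [QQ_eq, sp_coeff] at hd
  obtain ⟨m, hm, hne⟩ := Finset.exists_ne_zero_of_sum_ne_zero hd
  have hmd : m.degree = d := (Finset.mem_filter.mp hm).2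
  rw [← hmd]
  exact supp_tri f hf u w m hne

/-- The lowest coefficient. -/
noncomputable def PP (k : ℕ) (f : FreeAlgebra K σ) :
    Matrix (Fin (k + 1)) (Fin (k + 1)) (TA K σ k) :=
  Matrix.of fun u w => (QQ k f u w).coeff k

theorem PP_corner [Infinite K] (f : FreeAlgebra K σ)
    (hf : ∀ m < k + 1, ∀ Y : σ → Matrix (Fin m) (Fin m) K, FreeAlgebra.lift K Y f = 0)
    (u w : Fin (k + 1)) (h : PP k f u w ≠ 0) :
    (u = 0 ∧ w = Fin.last k) ∨ (u = Fin.last k ∧ w = 0) :=
  (QQ_low f hf u w k h).2 le_rfl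

/-- `PP ^ ν` is scalar if `f ^ ν` is. -/
theorem PP_pow_comm [Infinite K] (f : FreeAlgebra K σ)
    (hf : ∀ m < k + 1, ∀ Y : σ → Matrix (Fin m) (Fin m) K, FreeAlgebra.lift K Y f = 0)
    (ν : ℕ) (h : ∀ X : σ → Matrix (Fin (k + 1)) (Fin (k + 1)) K,
      ∀ Z : Matrix (Fin (k + 1)) (Fin (k + 1)) K,
      FreeAlgebra.lift K X (f ^ ν) * Z = Z * FreeAlgebra.lift K X (f ^ ν))
    (Z : Matrix (Fin (k + 1)) (Fin (k + 1)) K) :
    PP k f ^ ν * Z.map (algebraMap K (TA K σ k)) = Z.map (algebraMap K (TA K σ k)) * PP k f ^ ν := by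
  have h1 := transfer_comm (f ^ ν) Z (fun X => h X Z)
    (fun i => ((sp K σ k).restrictScalars K).mapMatrix (tri K σ k i))
  rw [map_pow] at h1
  change QQ k f ^ ν * _ = _ * QQ k f ^ ν at h1
  set q := matPolyEquiv (QQ k f) with hq
  have hz : matPolyEquiv (Z.map (algebraMap K (TA K σ k)[X])) =
      C (Z.map (algebraMap K (TA K σ k))) := by
    ext d a b
    rw [matPolyEquiv_coeff_apply, Matrix.map_apply, coeff_C]
    have : (algebraMap K (TA K σ k)[X]) (Z a b) = C (algebraMap K (TA K σ k) (Z a b)) := rfl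
    rw [this, coeff_C]
    by_cases hd : d = 0
    · simp [hd]
    · simp [hd]
  have h2 : q ^ ν * C (Z.map (algebraMap K (TA K σ k))) =
      C (Z.map (algebraMap K (TA K σ k))) * q ^ ν := by
    rw [hq, ← hz, ← map_pow, ← map_mul, h1, map_mul, map_pow]
  have h3 : (X : (Matrix (Fin (k + 1)) (Fin (k + 1)) (TA K σ k))[X]) ^ k ∣ q := by
    rw [X_pow_dvd_iff]
    intro d hd
    ext1 u w
    rw [hq, matPolyEquiv_coeff_apply]
    by_contra hne
    have := (QQ_low f hf u w d hne).1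
    omega
  obtain ⟨q', hq'⟩ := h3
  have h4 : q'.coeff 0 = PP k f := by
    have : q.coeff k = q'.coeff 0 := by
      rw [hq', coeff_X_pow_mul']
      simp
    rw [← this]
    ext1 u w
    rw [hq, matPolyEquiv_coeff_apply]
    rfl
  have h5 : q ^ ν = X ^ (k * ν) * q' ^ ν := by
    have hc : Commute ((X : (Matrix (Fin (k + 1)) (Fin (k + 1)) (TA K σ k))[X]) ^ k) q' :=
      (commute_X_pow q' k)
    rw [hq', hc.mul_pow, ← pow_mul]
  have h6 : (q ^ ν).coeff (k * ν) = PP k f ^ ν := by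
    rw [h5, coeff_X_pow_mul', if_pos le_rfl, Nat.sub_self]
    have : (q' ^ ν).coeff 0 = (q'.coeff 0) ^ ν := by
      exact map_pow (constantCoeff (R := Matrix (Fin (k + 1)) (Fin (k + 1)) (TA K σ k))) q' ν
    rw [this, h4]
  have h7 := congrArg (fun p => p.coeff (k * ν)) h2
  simp only [coeff_mul_C, coeff_C_mul] at h7
  rwa [h6] at h7

end Pool.Agent.TH82.NC
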