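import Mathlib
import Pool.Agent.TH82.NC.Low

/-!
The vanishing of the corner entry of the values on bidiagonal matrices.
-/

set_option autoImplicit false

namespace Pool.Agent.TH82.NC

open Matrix Polynomial Pool.Agent.H552R3.PC

variable {K : Type*} [Field K] {σ : Type*} {k : ℕ}

/-- One of the two corner entries of the lowest coefficient vanishes. -/
theorem corner_or [Infinite K] (hk : 2 ≤ k) (f : FreeAlgebra K σ)
    (hf : ∀ m < k + 1, ∀ Y : σ → Matrix (Fin m) (Fin m) K, FreeAlgebra.lift K Y f = 0)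
    (ν : ℕ) (hν : 0 < ν) (h : ∀ X : σ → Matrix (Fin (k + 1)) (Fin (k + 1)) K,
      ∀ Z : Matrix (Fin (k + 1)) (Fin (k + 1)) K,
      FreeAlgebra.lift K X (f ^ ν) * Z = Z * FreeAlgebra.lift K X (f ^ ν)) :
    PP k f 0 (Fin.last k) = 0 ∨ PP k f (Fin.last k) 0 = 0 := by
  classical
  have hne : (0 : Fin (k + 1)) ≠ Fin.last k := by
    intro e
    have := congrArg Fin.val e
    simp at this
    omega
  set P := PP k f with hP
  -- `P ^ ν` is scalar
  have h1 : P ^ ν ∈ Set.range (Matrix.scalar (Fin (k + 1)) (α := TA K σ k)) := by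
    rw [Matrix.mem_range_scalar_iff_commute_single']
    intro i j
    have h2 := PP_pow_comm f hf ν h (Matrix.single i j 1)
    have h3 : (Matrix.single i j (1 : K)).map (algebraMap K (TA K σ k)) = Matrix.single i j 1 := by
      ext1 a b
      rw [Matrix.map_apply, Matrix.single_apply, Matrix.single_apply]
      split_ifs <;> simp
    rw [h3] at h2
    exact h2.symm
  obtain ⟨c, hc⟩ := h1
  let one : Fin (k + 1) := ⟨1, by omega⟩
  have hone0 : one ≠ 0 := by
    intro e
    have := congrArg Fin.val e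
    simp [one] at this
  have honel : one ≠ Fin.last k := by
    intro e
    have := congrArg Fin.val e
    simp [one] at this
    omega
  have hrow : ∀ w, P one w = 0 := by
    intro w
    by_contra hcon
    rcases PP_corner f hf one w hcon with ⟨h1, -⟩ | ⟨h1, -⟩
    · exact hone0 h1
    · exact honel h1
  have hc0 : c = 0 := by
    have e1 := congrFun (congrFun hc one) one
    obtain ⟨μ, rfl⟩ : ∃ μ, ν = μ + 1 := ⟨ν - 1, by omega⟩
    rw [scalar_apply, diagonal_apply_eq, pow_succ', mul_apply] at e1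
    rw [e1]
    exact Finset.sum_eq_zero fun w _ => by rw [hrow, zero_mul]
  have hPν : P ^ ν = 0 := by rw [← hc, hc0, map_zero]
  -- `P * P` is diagonal
  have hPP : P * P = Matrix.diagonal fun v => if v = 0 ∨ v = Fin.last k then
      P 0 (Fin.last k) * P (Fin.last k) 0 else 0 := by
    have hform : P = Matrix.single 0 (Fin.last k) (P 0 (Fin.last k)) +
        Matrix.single (Fin.last k) 0 (P (Fin.last k) 0) := by
      ext1 a b
      rw [Matrix.add_apply, Matrix.single_apply, Matrix.single_apply]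
      by_cases h0 : P a b = 0
      · rw [h0]
        symm
        by_cases h1 : (0 : Fin (k + 1)) = a ∧ Fin.last k = b
        · obtain ⟨rfl, rfl⟩ := h1
          rw [if_pos ⟨rfl, rfl⟩, h0, if_neg (fun e => hne e.1.symm), add_zero]
        · rw [if_neg h1]
          by_cases h2 : Fin.last k = a ∧ (0 : Fin (k + 1)) = b
          · obtain ⟨rfl, rfl⟩ := h2
            rw [if_pos ⟨rfl, rfl⟩, h0, add_zero]
          · rw [if_neg h2, add_zero]
      · rcases PP_corner f hf a b h0 with ⟨rfl, rfl⟩ | ⟨rfl, rfl⟩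
        · rw [if_pos ⟨rfl, rfl⟩, if_neg (fun e => hne e.1.symm), add_zero]
        · rw [if_neg (fun e => hne e.1), if_pos ⟨rfl, rfl⟩, zero_add]
    generalize hA : P 0 (Fin.last k) = A at hform ⊢
    generalize hB : P (Fin.last k) 0 = B at hform ⊢
    rw [hform, add_mul, mul_add, mul_add, Matrix.single_mul_single_of_ne _ _ _ _ hne.symm,
      Matrix.single_mul_single_same, Matrix.single_mul_single_same,
      Matrix.single_mul_single_of_ne _ _ _ _ hne, zero_add, add_zero]
    ext1 a b
    rw [Matrix.add_apply, Matrix.single_apply, Matrix.single_apply, Matrix.diagonal_apply]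
    by_cases hab : a = b
    · subst hab
      rw [if_pos rfl]
      by_cases h1 : a = 0
      · subst h1
        rw [if_pos ⟨rfl, rfl⟩, if_neg (fun e => hne e.1.symm), if_pos (Or.inl rfl), add_zero]
      · rw [if_neg (fun e => h1 e.1.symm), zero_add]
        by_cases h2 : a = Fin.last k
        · subst h2
          rw [if_pos ⟨rfl, rfl⟩, if_pos (Or.inr rfl), mul_comm]
        · rw [if_neg (fun e => h2 e.1.symm), if_neg]
          rintro (h | h)
          · exact h1 h
          · exact h2 h
    · rw [if_neg hab, if_neg (fun e => hab (e.1.symm.trans e.2)),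
        if_neg (fun e => hab (e.1.symm.trans e.2)), add_zero]
  have h5 : (P * P) ^ ν = 0 := by
    rw [← pow_two, ← pow_mul, mul_comm, pow_mul, hPν, zero_pow two_ne_zero]
  rw [hPP, Matrix.diagonal_pow] at h5
  have h6 := congrFun (congrFun h5 0) 0
  rw [Matrix.diagonal_apply_eq, Pi.pow_apply, if_pos (Or.inl rfl), Matrix.zero_apply] at h6
  exact mul_eq_zero.mp (pow_eq_zero_iff hν.ne' |>.mp h6)

/-- The reversal. -/
noncomputable def rho (K : Type*) [Field K] (σ : Type*) (k : ℕ) : TA K σ k →ₐ[K] TA K σ k :=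
  MvPolynomial.rename (Prod.map id (Sum.map Fin.rev fun e : Arc k => (!e.1, e.2.rev)))

theorem sp_tri (i : σ) : ((sp K σ k).restrictScalars K).mapMatrix (tri K σ k i) =
    Matrix.diagonal (fun v => (C (MvPolynomial.X (i, Sum.inl v)) : (TA K σ k)[X])) +
    ∑ e : Arc k, Matrix.single (src e) (dst e)
      ((X : (TA K σ k)[X]) * C (MvPolynomial.X (i, Sum.inr e))) := by
  ext1 a b
  rw [tri, map_add, map_sum, Matrix.add_apply, Matrix.add_apply, Matrix.sum_apply, Matrix.sum_apply]
  congr 1
  · rw [AlgHom.mapMatrix_apply, Matrix.map_apply, Matrix.diagonal_apply, Matrix.diagonal_apply]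
    by_cases h : a = b
    · rw [if_pos h, if_pos h, AlgHom.restrictScalars_apply, sp, MvPolynomial.aeval_C]; rfl
    · rw [if_neg h, if_neg h, map_zero]
  · refine Finset.sum_congr rfl fun e _ => ?_
    rw [AlgHom.mapMatrix_apply, Matrix.map_apply, Matrix.single_apply, Matrix.single_apply]
    by_cases h : src e = a ∧ dst e = b
    · rw [if_pos h, if_pos h, AlgHom.restrictScalars_apply, sp, map_mul, MvPolynomial.aeval_X,
        MvPolynomial.aeval_C]; rfl
    · rw [if_neg h, if_neg h, map_zero]

/-- Mapping of the tridiagonal matrices under an algebra map of the coefficient ring. -/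
theorem map_sp_tri {B : Type*} [CommRing B] [Algebra K B] (ψ : TA K σ k →ₐ[K] B) (i : σ) :
    (Polynomial.mapAlgHom ψ).mapMatrix (((sp K σ k).restrictScalars K).mapMatrix (tri K σ k i)) =
    Matrix.diagonal (fun v => (C (ψ (MvPolynomial.X (i, Sum.inl v))) : B[X])) +
    ∑ e : Arc k, Matrix.single (src e) (dst e)
      ((X : B[X]) * C (ψ (MvPolynomial.X (i, Sum.inr e)))) := by
  rw [sp_tri]
  ext1 a b
  rw [map_add, map_sum, Matrix.add_apply, Matrix.add_apply, Matrix.sum_apply, Matrix.sum_apply]
  congr 1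
  · rw [AlgHom.mapMatrix_apply, Matrix.map_apply, Matrix.diagonal_apply, Matrix.diagonal_apply]
    by_cases h : a = b
    · rw [if_pos h, if_pos h]; simp
    · rw [if_neg h, if_neg h, map_zero]
  · refine Finset.sum_congr rfl fun e _ => ?_
    rw [AlgHom.mapMatrix_apply, Matrix.map_apply, Matrix.single_apply, Matrix.single_apply]
    by_cases h : src e = a ∧ dst e = b
    · rw [if_pos h, if_pos h]; simp
    · rw [if_neg h, if_neg h, map_zero]

theorem lift_submatrix_rev {B : Type*} [CommRing B] [Algebra K B] {n : ℕ}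
    (Y : σ → Matrix (Fin n) (Fin n) B) (f : FreeAlgebra K σ) :
    (FreeAlgebra.lift K Y f).submatrix Fin.rev Fin.rev =
      FreeAlgebra.lift K (fun i => (Y i).submatrix Fin.rev Fin.rev) f :=
  lift_map (Matrix.reindexAlgEquiv K B (Fin.revPerm (n := n))).toAlgHom Y f

theorem rho_inl (i : σ) (v : Fin (k + 1)) : rho K σ k (MvPolynomial.X (i, Sum.inl v)) =
    MvPolynomial.X (i, Sum.inl v.rev) := by
  rw [rho, MvPolynomial.rename_X]; rfl

theorem rho_inr (i : σ) (e : Arc k) : rho K σ k (MvPolynomial.X (i, Sum.inr e)) =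
    MvPolynomial.X (i, Sum.inr (!e.1, e.2.rev)) := by
  rw [rho, MvPolynomial.rename_X]; rfl

/-- Reversal of arcs. -/
def rarc (k : ℕ) : Arc k ≃ Arc k :=
  ⟨fun e => (!e.1, e.2.rev), fun e => (!e.1, e.2.rev), fun e => by simp, fun e => by simp⟩

theorem src_rarc (e : Arc k) : src (rarc k e) = (src e).rev := by
  obtain ⟨t, j⟩ := e
  cases t <;> simp [rarc, src, Fin.rev_castSucc, Fin.rev_succ]

theorem dst_rarc (e : Arc k) : dst (rarc k e) = (dst e).rev := by
  obtain ⟨t, j⟩ := e
  cases t <;> simp [rarc, dst, Fin.rev_castSucc, Fin.rev_succ]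

theorem tri_rev (i : σ) :
    (((sp K σ k).restrictScalars K).mapMatrix (tri K σ k i)).submatrix Fin.rev Fin.rev =
    (Polynomial.mapAlgHom (rho K σ k)).mapMatrix
      (((sp K σ k).restrictScalars K).mapMatrix (tri K σ k i)) := by
  rw [map_sp_tri, sp_tri]
  ext1 a b
  rw [Matrix.submatrix_apply, Matrix.add_apply, Matrix.add_apply, Matrix.sum_apply,
    Matrix.sum_apply]
  refine congrArg₂ _ ?_ ?_
  · rw [Matrix.diagonal_apply, Matrix.diagonal_apply]
    by_cases h : a = b
    · subst h
      rw [if_pos rfl, if_pos rfl, rho_inl]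
    · rw [if_neg (fun e => h (Fin.rev_injective e)), if_neg h]
  · rw [← Equiv.sum_comp (rarc k)]
    refine Finset.sum_congr rfl fun e _ => ?_
    rw [src_rarc, dst_rarc, Matrix.single_apply, Matrix.single_apply, rho_inr]
    simp only [Fin.rev_inj]
    rfl

theorem PP_rev (f : FreeAlgebra K σ) (u w : Fin (k + 1)) :
    PP k f u.rev w.rev = rho K σ k (PP k f u w) := by
  have h1 : (QQ k f).submatrix Fin.rev Fin.rev =
      (Polynomial.mapAlgHom (rho K σ k)).mapMatrix (QQ k f) := by
    unfold QQ
    rw [lift_submatrix_rev, lift_map]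
    exact congrArg (fun Y => FreeAlgebra.lift K Y f) (funext fun i => tri_rev i)
  have h2 := congrFun (congrFun h1 u) w
  have h3 : QQ k f u.rev w.rev = Polynomial.mapAlgHom (rho K σ k) (QQ k f u w) := h2
  show (QQ k f u.rev w.rev).coeff k = rho K σ k ((QQ k f u w).coeff k)
  rw [h3]
  simp

/-- Both corner entries of the lowest coefficient vanish. -/
theorem corner_zero [Infinite K] (hk : 2 ≤ k) (f : FreeAlgebra K σ)
    (hf : ∀ m < k + 1, ∀ Y : σ → Matrix (Fin m) (Fin m) K, FreeAlgebra.lift K Y f = 0)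
    (ν : ℕ) (hν : 0 < ν) (h : ∀ X : σ → Matrix (Fin (k + 1)) (Fin (k + 1)) K,
      ∀ Z : Matrix (Fin (k + 1)) (Fin (k + 1)) K,
      FreeAlgebra.lift K X (f ^ ν) * Z = Z * FreeAlgebra.lift K X (f ^ ν)) :
    PP k f (Fin.last k) 0 = 0 := by
  rcases corner_or hk f hf ν hν h with h1 | h1
  · have h2 := PP_rev f 0 (Fin.last k)
    rw [h1, map_zero] at h2
    simpa using h2
  · exact h1

end Pool.Agent.TH82.NC
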