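import Mathlib
import Pool.Agent.TH82.NC.Upp

/-!
The vanishing of the corner entry of the values on lower bidiagonal matrices.
-/

set_option autoImplicit false

namespace Pool.Agent.TH82.NC

open Matrix Polynomial Pool.Agent.H552R3.PC

variable {K : Type*} [Field K] {σ : Type*} {k : ℕ}

theorem intertwine {A : Type*} [Ring A] [Algebra K A] (M N : σ → A) (D : A)
    (h : ∀ i, M i * D = D * N i) (f : FreeAlgebra K σ) :
    FreeAlgebra.lift K M f * D = D * FreeAlgebra.lift K N f := by
  induction f using FreeAlgebra.induction with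
  | grade0 r => rw [AlgHom.commutes, AlgHom.commutes, Algebra.commutes]
  | grade1 x => rw [FreeAlgebra.lift_ι_apply, FreeAlgebra.lift_ι_apply, h]
  | mul a b ha hb => rw [map_mul, map_mul, mul_assoc, hb, ← mul_assoc, ha, mul_assoc]
  | add a b ha hb => rw [map_add, map_add, add_mul, mul_add, ha, hb]

variable {B : Type*} [CommRing B] [Algebra K B]

/-- Lower bidiagonal matrices. -/
def lbd {B : Type*} [CommRing B] {σ : Type*} {k : ℕ} (t : σ → Fin (k + 1) → B)
    (b : σ → Fin k → B) (i : σ) : Matrix (Fin (k + 1)) (Fin (k + 1)) B :=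
  Matrix.diagonal (t i) + ∑ j : Fin k, Matrix.single j.succ j.castSucc (b i j)

/-- Lower bidiagonal matrices with the entries below the diagonal scaled. -/
noncomputable def lbs {B : Type*} [CommRing B] {σ : Type*} {k : ℕ} (t : σ → Fin (k + 1) → B)
    (b : σ → Fin k → B) (i : σ) : Matrix (Fin (k + 1)) (Fin (k + 1)) B[X] :=
  Matrix.diagonal (fun v => C (t i v)) +
    ∑ j : Fin k, Matrix.single j.succ j.castSucc (X * C (b i j))

theorem lbs_inter (t : σ → Fin (k + 1) → B) (b : σ → Fin k → B) (i : σ) :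
    lbs t b i * Matrix.diagonal (fun v : Fin (k + 1) => (X : B[X]) ^ (v : ℕ)) =
      Matrix.diagonal (fun v : Fin (k + 1) => (X : B[X]) ^ (v : ℕ)) * (lbd t b i).map C := by
  ext1 u w
  rw [Matrix.mul_diagonal, Matrix.diagonal_mul, Matrix.map_apply, lbs, lbd, Matrix.add_apply,
    Matrix.add_apply, map_add, add_mul, mul_add, Matrix.sum_apply, Matrix.sum_apply, map_sum,
    Finset.sum_mul, Finset.mul_sum]
  refine congrArg₂ _ ?_ ?_
  · rw [Matrix.diagonal_apply, Matrix.diagonal_apply]
    by_cases h : u = w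
    · subst h
      rw [if_pos rfl, if_pos rfl, mul_comm]
    · rw [if_neg h, if_neg h, map_zero, mul_zero, zero_mul]
  · refine Finset.sum_congr rfl fun j _ => ?_
    rw [Matrix.single_apply, Matrix.single_apply]
    by_cases h : j.succ = u ∧ j.castSucc = w
    · obtain ⟨rfl, rfl⟩ := h
      rw [if_pos ⟨rfl, rfl⟩, if_pos ⟨rfl, rfl⟩, Fin.val_succ, Fin.val_castSucc]
      ring
    · rw [if_neg h, if_neg h, map_zero, mul_zero, zero_mul]

open Classical in
/-- The specialisation. -/
noncomputable def psi {B : Type*} [CommRing B] [Algebra K B] (t : σ → Fin (k + 1) → B)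
    (b : σ → Fin k → B) : TA K σ k →ₐ[K] B :=
  MvPolynomial.aeval fun p => Sum.elim (fun v => t p.1 v)
    (fun e : Arc k => if e.1 then 0 else b p.1 e.2) p.2

theorem psi_tri (t : σ → Fin (k + 1) → B) (b : σ → Fin k → B) (i : σ) :
    (Polynomial.mapAlgHom (psi (K := K) t b)).mapMatrix
      (((sp K σ k).restrictScalars K).mapMatrix (tri K σ k i)) = lbs t b i := by
  rw [map_sp_tri, lbs]
  refine congrArg₂ _ ?_ ?_
  · refine congrArg _ (funext fun v => ?_)
    rw [psi, MvPolynomial.aeval_X]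
    rfl
  · rw [Fintype.sum_prod_type, Fintype.sum_bool]
    have h1 : ∀ j : Fin k, Matrix.single (src ((true, j) : Arc k)) (dst ((true, j) : Arc k))
        ((X : B[X]) * C (psi (K := K) t b (MvPolynomial.X (i, Sum.inr (true, j))))) = 0 := by
      intro j
      rw [psi, MvPolynomial.aeval_X]
      simp
    rw [Finset.sum_congr rfl fun j _ => h1 j, Finset.sum_const_zero, zero_add]
    refine Finset.sum_congr rfl fun j _ => ?_
    rw [psi, MvPolynomial.aeval_X]
    simp [src, dst]

/-- The corner entry of the value at lower bidiagonal `n × n` matrices vanishes. -/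
theorem lower_top [Infinite K] (hk : 2 ≤ k) (f : FreeAlgebra K σ)
    (hf : ∀ m < k + 1, ∀ Y : σ → Matrix (Fin m) (Fin m) K, FreeAlgebra.lift K Y f = 0)
    (ν : ℕ) (hν : 0 < ν) (h : ∀ X : σ → Matrix (Fin (k + 1)) (Fin (k + 1)) K,
      ∀ Z : Matrix (Fin (k + 1)) (Fin (k + 1)) K,
      FreeAlgebra.lift K X (f ^ ν) * Z = Z * FreeAlgebra.lift K X (f ^ ν))
    (t : σ → Fin (k + 1) → B) (b : σ → Fin k → B) :
    FreeAlgebra.lift K (lbd t b) f (Fin.last k) 0 = 0 := by
  have h1 : (Polynomial.mapAlgHom (psi (K := K) t b)).mapMatrix (QQ k f) =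
      FreeAlgebra.lift K (lbs t b) f := by
    unfold QQ
    rw [lift_map]
    exact congrArg (fun Y => FreeAlgebra.lift K Y f) (funext fun i => psi_tri t b i)
  have h2 : (FreeAlgebra.lift K (lbs t b) f (Fin.last k) 0).coeff k = 0 := by
    rw [← h1, AlgHom.mapMatrix_apply, Matrix.map_apply, Polynomial.coe_mapAlgHom,
      Polynomial.coeff_map]
    have h3 := corner_zero hk f hf ν hν h
    have h4 : (QQ k f (Fin.last k) 0).coeff k = 0 := h3
    rw [h4, map_zero]
  have h3 := intertwine (K := K) (lbs t b) (fun i => (lbd t b i).map C)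
    (Matrix.diagonal (fun v : Fin (k + 1) => (X : B[X]) ^ (v : ℕ))) (lbs_inter t b) f
  have h4 : FreeAlgebra.lift K (fun i => (lbd t b i).map C) f =
      (FreeAlgebra.lift K (lbd t b) f).map (C : B →+* B[X]) := by
    have := lift_map (Polynomial.CAlgHom (R := K) (A := B)).mapMatrix (lbd t b) f
    exact this.symm
  rw [h4] at h3
  have h5 := congrFun (congrFun h3 (Fin.last k)) 0
  rw [Matrix.mul_diagonal, Matrix.diagonal_mul, Matrix.map_apply, Fin.val_zero, pow_zero, mul_one,
    Fin.val_last] at h5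
  rw [h5, coeff_X_pow_mul', if_pos le_rfl, Nat.sub_self, coeff_C_zero] at h2
  exact h2

/-- The corner entry of the value at lower bidiagonal `m × m` matrices vanishes, `m ≤ n`. -/
theorem lower_zero [Infinite K] {n : ℕ} (hn : 3 ≤ n) (f : FreeAlgebra K σ)
    (hf : ∀ m < n, ∀ Y : σ → Matrix (Fin m) (Fin m) K, FreeAlgebra.lift K Y f = 0)
    (ν : ℕ) (hν : 0 < ν) (h : ∀ X : σ → Matrix (Fin n) (Fin n) K,
      ∀ Z : Matrix (Fin n) (Fin n) K,
      FreeAlgebra.lift K X (f ^ ν) * Z = Z * FreeAlgebra.lift K X (f ^ ν)) (hk : k < n)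
    (t : σ → Fin (k + 1) → B) (b : σ → Fin k → B) :
    FreeAlgebra.lift K (lbd t b) f (Fin.last k) 0 = 0 := by
  rcases Nat.lt_or_ge (k + 1) n with h1 | h1
  · rw [transfer f (hf (k + 1) h1) (lbd t b)]
    rfl
  · obtain rfl : n = k + 1 := by omega
    exact lower_top (by omega) f hf ν hν h t b

end Pool.Agent.TH82.NC
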