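import Mathlib
import Pool.Agent.TH82.NC.Lbd

/-!
Reading off the coefficients of the staircase words from the values on bidiagonal matrices.
-/

set_option autoImplicit false

namespace Pool.Agent.TH82.NC

open Matrix Pool.Agent.H552R3.PC

variable {K : Type*} [Field K] {σ : Type*}

/-- The coefficient of the word `l` in `f`. -/
noncomputable def cf (f : FreeAlgebra K σ) (l : List σ) : K :=
  (FreeAlgebra.equivMonoidAlgebraFreeMonoid f).coeff (FreeMonoid.ofList l)

/-- The words `x_r ^ e_r y_{r-1} x_{r-1} ^ e_{r-1} ⋯ y_0 x_0 ^ e_0`. -/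
def wd (x y : ℕ → σ) (e : ℕ → ℕ) : ℕ → List σ
  | 0 => List.replicate (e 0) (x 0)
  | r + 1 => List.replicate (e (r + 1)) (x (r + 1)) ++ y r :: wd x y e r

theorem wd_congr {x y x' y' : ℕ → σ} {e e' : ℕ → ℕ} (r : ℕ) (h1 : ∀ i ≤ r, x i = x' i)
    (h2 : ∀ i < r, y i = y' i) (h3 : ∀ i ≤ r, e i = e' i) : wd x y e r = wd x' y' e' r := by
  induction r with
  | zero => rw [wd, wd, h1 0 le_rfl, h3 0 le_rfl]
  | succ r ih =>
    rw [wd, wd, h1 _ le_rfl, h3 _ le_rfl, h2 r (Nat.lt_succ_self r),
      ih (fun i hi => h1 i (Nat.le_succ_of_le hi)) (fun i hi => h2 i (Nat.lt_succ_of_lt hi))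
        (fun i hi => h3 i (Nat.le_succ_of_le hi))]

open Classical in
/-- The diagonal of the path matrices. -/
noncomputable def pt (K : Type*) [Field K] (k : ℕ) (x : ℕ → σ) (i : σ) (v : Fin (k + 1)) :
    MvPolynomial ℕ K :=
  if i = x v then MvPolynomial.X (v : ℕ) else 0

open Classical in
/-- The entries below the diagonal of the path matrices. -/
noncomputable def pb (K : Type*) [Field K] (k : ℕ) (y : ℕ → σ) (i : σ) (j : Fin k) :
    MvPolynomial ℕ K :=
  if i = y j then 1 else 0

theorem lbd_mul_zero {B : Type*} [CommRing B] {k : ℕ} (t : σ → Fin (k + 1) → B) (b : σ → Fin k → B)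
    (i : σ) (M : Matrix (Fin (k + 1)) (Fin (k + 1)) B) (w : Fin (k + 1)) :
    (lbd t b i * M) 0 w = t i 0 * M 0 w := by
  rw [lbd, Matrix.add_mul, Matrix.add_apply, Matrix.diagonal_mul, Matrix.sum_mul, Matrix.sum_apply]
  rw [Finset.sum_eq_zero, add_zero]
  intro j _
  rw [Matrix.single_mul_apply_of_ne]
  exact (Fin.succ_ne_zero j).symm

theorem lbd_mul_succ {B : Type*} [CommRing B] {k : ℕ} (t : σ → Fin (k + 1) → B) (b : σ → Fin k → B)
    (i : σ) (M : Matrix (Fin (k + 1)) (Fin (k + 1)) B) (j : Fin k) (w : Fin (k + 1)) :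
    (lbd t b i * M) j.succ w = t i j.succ * M j.succ w + b i j * M j.castSucc w := by
  rw [lbd, Matrix.add_mul, Matrix.add_apply, Matrix.diagonal_mul, Matrix.sum_mul, Matrix.sum_apply]
  rw [Finset.sum_eq_single j, Matrix.single_mul_apply_same]
  · intro j' _ hj
    rw [Matrix.single_mul_apply_of_ne]
    intro e
    exact hj (Fin.succ_injective _ e).symm
  · intro h; exact absurd (Finset.mem_univ _) h

open Classical in
theorem word_coeff (k : ℕ) (x y : ℕ → σ) (l : List σ) : ∀ (r : Fin (k + 1)) (e : ℕ →₀ ℕ),
    MvPolynomial.coeff e ((l.map (lbd (pt K k x) (pb K k y))).prod r 0) =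
      if (∀ i, (r : ℕ) < i → e i = 0) ∧ l = wd x y e r then 1 else 0 := by
  induction l with
  | nil =>
    intro r e
    rw [List.map_nil, List.prod_nil]
    induction r using Fin.cases with
    | zero =>
      rw [Matrix.one_apply_eq, MvPolynomial.coeff_one, Fin.val_zero, wd]
      by_cases h : 0 = e
      · subst h
        rw [if_pos rfl, if_pos]
        exact ⟨fun _ _ => rfl, rfl⟩
      · rw [if_neg h, if_neg]
        rintro ⟨h1, h2⟩
        apply h
        ext i
        rcases Nat.eq_zero_or_pos i with rfl | hi
        · have h3 := congrArg List.length h2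
          rw [List.length_nil, List.length_replicate] at h3
          exact h3
        · exact (h1 i hi).symm
    | succ j =>
      rw [Matrix.one_apply_ne (Fin.succ_ne_zero j), MvPolynomial.coeff_zero, if_neg]
      rintro ⟨h1, h2⟩
      rw [Fin.val_succ, wd] at h2
      simp at h2
  | cons a l ih =>
    intro r e
    rw [List.map_cons, List.prod_cons]
    induction r using Fin.cases with
    | zero =>
      rw [lbd_mul_zero, Fin.val_zero, wd, pt]
      by_cases ha : a = x (0 : Fin (k + 1))
      · rw [if_pos ha, Fin.val_zero, MvPolynomial.coeff_X_mul']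
        by_cases he : e 0 = 0
        · rw [if_neg (by simpa using he), if_neg]
          rintro ⟨-, h2⟩
          rw [he] at h2
          simp at h2
        · rw [if_pos (by simpa using he), ih]
          obtain ⟨m, hm⟩ : ∃ m, e 0 = m + 1 := ⟨e 0 - 1, by omega⟩
          have hm' : (e - Finsupp.single 0 1 : ℕ →₀ ℕ) 0 = m := by simp [hm]
          have hi : ∀ i, 0 < i → (e - Finsupp.single 0 1 : ℕ →₀ ℕ) i = e i := by
            intro i hi
            rw [Finsupp.tsub_apply, Finsupp.single_eq_of_ne (by omega), Nat.sub_zero]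
          rw [Fin.val_zero] at ha
          refine if_congr ?_ rfl rfl
          rw [Fin.val_zero, wd, hm', hm, List.replicate_succ, ha]
          constructor
          · rintro ⟨h1, h2⟩
            exact ⟨fun i h => by rw [← hi i h]; exact h1 i h, by rw [← h2]⟩
          · rintro ⟨h1, h2⟩
            exact ⟨fun i h => by rw [hi i h]; exact h1 i h, (List.cons.inj h2).2⟩
      · rw [if_neg ha, zero_mul, MvPolynomial.coeff_zero, if_neg]
        rintro ⟨-, h2⟩
        rw [Fin.val_zero] at ha
        cases he : e 0 with
        | zero => rw [he] at h2; simp at h2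
        | succ m =>
          rw [he, List.replicate_succ] at h2
          exact ha (List.cons.inj h2).1
    | succ j =>
      rw [lbd_mul_succ, MvPolynomial.coeff_add, pt, pb, Fin.val_succ, wd]
      cases he : e ((j : ℕ) + 1) with
      | zero =>
        have h0 : MvPolynomial.coeff e ((if a = x ((j : ℕ) + 1) then
            (MvPolynomial.X ((j : ℕ) + 1) : MvPolynomial ℕ K) else 0) *
            (l.map (lbd (pt K k x) (pb K k y))).prod j.succ 0) = 0 := by
          split_ifs
          · rw [MvPolynomial.coeff_X_mul', if_neg (by simpa using he)]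
          · rw [zero_mul, MvPolynomial.coeff_zero]
        rw [h0, zero_add, List.replicate_zero, List.nil_append]
        have hiff : (∀ i, (j : ℕ) < i → e i = 0) ↔ (∀ i, (j : ℕ) + 1 < i → e i = 0) := by
          constructor
          · intro h i hi; exact h i (by omega)
          · intro h i hi
            rcases Nat.eq_or_lt_of_le (Nat.succ_le_of_lt hi) with h1 | h1
            · rw [← h1]; exact he
            · exact h i h1
        by_cases ha : a = y j
        · rw [if_pos ha, one_mul, ih, Fin.val_castSucc]
          refine if_congr ?_ rfl rfl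
          rw [hiff]
          constructor
          · rintro ⟨h1, h2⟩; exact ⟨h1, by rw [ha, h2]⟩
          · rintro ⟨h1, h2⟩; exact ⟨h1, (List.cons.inj h2).2⟩
        · rw [if_neg ha, zero_mul, MvPolynomial.coeff_zero, if_neg]
          rintro ⟨-, h2⟩
          exact ha (List.cons.inj h2).1
      | succ m =>
        have h0 : MvPolynomial.coeff e ((if a = y j then (1 : MvPolynomial ℕ K) else 0) *
            (l.map (lbd (pt K k x) (pb K k y))).prod j.castSucc 0) = 0 := by
          split_ifs
          · rw [one_mul, ih, if_neg]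
            rintro ⟨h1, -⟩
            have := h1 ((j : ℕ) + 1) (by rw [Fin.val_castSucc]; omega)
            omega
          · rw [zero_mul, MvPolynomial.coeff_zero]
        rw [h0, add_zero, List.replicate_succ, List.cons_append]
        have hm' : (e - Finsupp.single ((j : ℕ) + 1) 1 : ℕ →₀ ℕ) ((j : ℕ) + 1) = m := by simp [he]
        have hi : ∀ i, i ≠ (j : ℕ) + 1 → (e - Finsupp.single ((j : ℕ) + 1) 1 : ℕ →₀ ℕ) i = e i := by
          intro i hi
          rw [Finsupp.tsub_apply, Finsupp.single_eq_of_ne hi, Nat.sub_zero]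
        by_cases ha : a = x ((j : ℕ) + 1)
        · rw [if_pos ha, MvPolynomial.coeff_X_mul', if_pos (by simp [he]), ih]
          refine if_congr ?_ rfl rfl
          rw [Fin.val_succ, wd, hm', ← ha, wd_congr (x' := x) (y' := y) (e' := e) (j : ℕ)
            (fun _ _ => rfl) (fun _ _ => rfl) (fun i h => hi i (by omega))]
          constructor
          · rintro ⟨h1, h2⟩
            exact ⟨fun i h => by rw [← hi i (by omega)]; exact h1 i h, by rw [← h2]⟩
          · rintro ⟨h1, h2⟩
            exact ⟨fun i h => by rw [hi i (by omega)]; exact h1 i h, (List.cons.inj h2).2⟩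
        · rw [if_neg ha, zero_mul, MvPolynomial.coeff_zero, if_neg]
          rintro ⟨-, h2⟩
          exact ha (List.cons.inj h2).1

end Pool.Agent.TH82.NC
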