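import Mathlib
import Pool.Agent.TH82.NC.Stair

/-!
The staircase words do not occur in power-central polynomials.
-/

set_option autoImplicit false

namespace Pool.Agent.TH82.NC

open Matrix Pool.Agent.H552R3.PC

variable {K : Type*} [Field K] {σ : Type*}

theorem lift_symm_single {A : Type*} [Ring A] [Algebra K A] (Y : σ → A) (w : FreeMonoid σ) (c : K) :
    FreeAlgebra.lift K Y (FreeAlgebra.equivMonoidAlgebraFreeMonoid.symm
      (MonoidAlgebra.single w c)) = c • ((FreeMonoid.toList w).map Y).prod := by
  have h1 : FreeAlgebra.equivMonoidAlgebraFreeMonoid.symm (MonoidAlgebra.single w c) =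
      c • FreeMonoid.lift (FreeAlgebra.ι K) w := by
    show MonoidAlgebra.lift K (FreeAlgebra K σ) (FreeMonoid σ) (FreeMonoid.lift (FreeAlgebra.ι K))
      (MonoidAlgebra.single w c) = _
    rw [MonoidAlgebra.lift_single]
  rw [h1, map_smul, FreeMonoid.lift_apply, map_list_prod, List.map_map]
  congr 3
  funext i
  simp

open Classical in
/-- The coefficient of a staircase word is a coefficient of the corner entry of the value on the
path matrices. -/
theorem lift_coeff (k : ℕ) (x y : ℕ → σ) (r : Fin (k + 1)) (e : ℕ →₀ ℕ)
    (he : ∀ i, (r : ℕ) < i → e i = 0) (f : FreeAlgebra K σ) :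
    MvPolynomial.coeff e (FreeAlgebra.lift K (lbd (pt K k x) (pb K k y)) f r 0) =
      cf f (wd x y e r) := by
  obtain ⟨g, rfl⟩ := (FreeAlgebra.equivMonoidAlgebraFreeMonoid (R := K) (X := σ)).symm.surjective f
  unfold cf
  rw [AlgEquiv.apply_symm_apply]
  induction g using MonoidAlgebra.induction_linear with
  | zero => simp
  | add g h hg hh =>
    rw [map_add, map_add, Matrix.add_apply, MvPolynomial.coeff_add, hg, hh, MonoidAlgebra.coeff_add,
      Finsupp.add_apply]
  | single w c =>
    rw [lift_symm_single, Matrix.smul_apply, MvPolynomial.coeff_smul, word_coeff,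
      MonoidAlgebra.coeff_single, Finsupp.single_apply]
    by_cases h : w = FreeMonoid.ofList (wd x y e r)
    · rw [if_pos h, if_pos ⟨he, by rw [h]; rfl⟩, smul_eq_mul, mul_one]
    · rw [if_neg h, if_neg, smul_zero]
      rintro ⟨-, h2⟩
      exact h (by rw [← h2]; rfl)

/-- `Stair k l`: deleting `k` suitable letters of the word `l` (at `k` places) cuts `l` into
`k + 1` blocks (possibly empty), each of which is a power of a single letter. -/
inductive Stair {σ : Type*} : ℕ → List σ → Prop
  | zero (e : ℕ) (x : σ) : Stair 0 (List.replicate e x)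
  | succ (k e : ℕ) (x y : σ) (l : List σ) (h : Stair k l) :
      Stair (k + 1) (List.replicate e x ++ y :: l)

theorem Stair.exists_wd {k : ℕ} {l : List σ} (h : Stair k l) :
    ∃ (x y : ℕ → σ) (e : ℕ →₀ ℕ), (∀ i, k < i → e i = 0) ∧ l = wd x y e k := by
  classical
  induction h with
  | zero e x =>
    refine ⟨fun _ => x, fun _ => x, Finsupp.single 0 e, fun i hi => ?_, ?_⟩
    · rw [Finsupp.single_eq_of_ne (by omega)]
    · rw [wd, Finsupp.single_eq_same]
  | succ k e x y l h ih =>
    obtain ⟨x', y', e', h1, h2⟩ := ih
    refine ⟨Function.update x' (k + 1) x, Function.update y' k y,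
      e' + Finsupp.single (k + 1) e, fun i hi => ?_, ?_⟩
    · rw [Finsupp.add_apply, h1 i (by omega), Finsupp.single_eq_of_ne (by omega), add_zero]
    · rw [wd, Finsupp.add_apply, h1 (k + 1) (by omega), Finsupp.single_eq_same, zero_add,
        Function.update_self, Function.update_self, h2]
      congr 2
      refine wd_congr k (fun i hi => ?_) (fun i hi => ?_) (fun i hi => ?_)
      · rw [Function.update_of_ne (by omega)]
      · rw [Function.update_of_ne (by omega)]
      · rw [Finsupp.add_apply, Finsupp.single_eq_of_ne (by omega), add_zero]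

/-- The staircase words with fewer than `n` steps do not occur in `f`. -/
theorem no_stair [Infinite K] {n : ℕ} (hn : 3 ≤ n) (f : FreeAlgebra K σ)
    (hf : ∀ m < n, ∀ Y : σ → Matrix (Fin m) (Fin m) K, FreeAlgebra.lift K Y f = 0)
    (ν : ℕ) (hν : 0 < ν) (h : ∀ X : σ → Matrix (Fin n) (Fin n) K,
      ∀ Z : Matrix (Fin n) (Fin n) K,
      FreeAlgebra.lift K X (f ^ ν) * Z = Z * FreeAlgebra.lift K X (f ^ ν))
    (k : ℕ) (hk : k < n) (l : List σ) (hl : Stair k l) : cf f l = 0 := by
  obtain ⟨x, y, e, h1, rfl⟩ := hl.exists_wd
  have h2 := lift_coeff (K := K) k x y (Fin.last k) e h1 f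
  rw [Fin.val_last] at h2
  rw [← h2, lower_zero hn f hf ν hν h hk, MvPolynomial.coeff_zero]

theorem stair_count [DecidableEq σ] (x : σ) (l : List σ) : ∀ m : ℕ,
    Stair (l.countP (fun a => a ≠ x)) (List.replicate m x ++ l) := by
  induction l with
  | nil => intro m; simpa using Stair.zero m x
  | cons a l ih =>
    intro m
    by_cases h : a = x
    · subst h
      have h1 := ih (m + 1)
      rw [List.countP_cons_of_neg (by simp)]
      have h2 : List.replicate m a ++ a :: l = List.replicate (m + 1) a ++ l := by
        rw [List.replicate_succ', List.append_assoc]; rfl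
      rw [h2]; exact h1
    · rw [List.countP_cons_of_pos (by simpa using h)]
      have h1 := ih 0
      rw [List.replicate_zero, List.nil_append] at h1
      exact Stair.succ _ m x a l h1

theorem stair_half : ∀ (N : ℕ) (l : List σ), l.length = N → l ≠ [] → Stair (N / 2) l := by
  intro N
  induction N using Nat.strong_induction_on with
  | _ N ih =>
    intro l hl hne
    match l with
    | [] => exact absurd rfl hne
    | [a] =>
      have : N = 1 := by rw [← hl]; rfl
      subst this
      exact Stair.zero 1 a
    | a :: b :: l' =>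
      have hN : N = l'.length + 2 := by rw [← hl]; rfl
      have h2 : N / 2 = l'.length / 2 + 1 := by omega
      rw [h2]
      by_cases h3 : l' = []
      · subst h3
        have h4 : ([] : List σ).length / 2 + 1 = 0 + 1 := by simp
        rw [h4]
        exact Stair.succ 0 1 a b [] (Stair.zero 0 a)
      · exact Stair.succ _ 1 a b l' (ih l'.length (by omega) l' rfl h3)

end Pool.Agent.TH82.NC
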