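import Mathlib
import Pool.Agent.TH82.NC.Fin

/-!
Polynomials whose coefficients are matrices supported on the cyclic diagonals of a transitive
permutation: they form a domain.
-/

set_option autoImplicit false

namespace Pool.Agent.TH82.NC

open Matrix Polynomial Pool.Agent.H552R3.PC

section Shift

variable {ι : Type*} [Fintype ι] [DecidableEq ι] (s : Equiv.Perm ι) {A : Type*} [CommRing A]
  (τ : A →+* A)

/-- Matrices supported on the `d`-th cyclic diagonal of `s` and equivariant under `s`. -/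
def WP (d : ℕ) (M : Matrix ι ι A) : Prop :=
  (∀ j k, M j k ≠ 0 → k = (s ^ d) j) ∧ ∀ j k, M (s j) (s k) = τ (M j k)

theorem WP_zero (d : ℕ) : WP s τ d 0 := ⟨fun j k h => absurd rfl h, fun j k => by simp⟩

theorem WP_add {d : ℕ} {M M' : Matrix ι ι A} (h : WP s τ d M) (h' : WP s τ d M') :
    WP s τ d (M + M') := by
  refine ⟨fun j k hne => ?_, fun j k => by simp [h.2, h'.2]⟩
  by_cases h0 : M j k = 0
  · refine h'.1 j k (fun h1 => hne (by simp [h0, h1]))
  · exact h.1 j k h0

theorem WP_sum {α : Type*} (t : Finset α) {d : ℕ} (M : α → Matrix ι ι A)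
    (h : ∀ i ∈ t, WP s τ d (M i)) : WP s τ d (∑ i ∈ t, M i) := by
  classical
  induction t using Finset.induction_on with
  | empty => simpa using WP_zero s τ d
  | insert a t ha ih =>
    rw [Finset.sum_insert ha]
    exact WP_add s τ (h a (Finset.mem_insert_self _ _))
      (ih fun i hi => h i (Finset.mem_insert_of_mem hi))

theorem WP_mul {d e : ℕ} {M M' : Matrix ι ι A} (h : WP s τ d M) (h' : WP s τ e M') :
    WP s τ (d + e) (M * M') := by
  constructor
  · intro j k hne
    rw [mul_apply] at hne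
    obtain ⟨l, -, hl⟩ := Finset.exists_ne_zero_of_sum_ne_zero hne
    have h1 : M j l ≠ 0 := left_ne_zero_of_mul hl
    have h2 : M' l k ≠ 0 := right_ne_zero_of_mul hl
    rw [h'.1 l k h2, h.1 j l h1, add_comm, pow_add]
    rfl
  · intro j k
    rw [mul_apply, mul_apply, map_sum]
    rw [← Equiv.sum_comp s]
    refine Finset.sum_congr rfl fun l _ => ?_
    rw [h.2, h'.2, map_mul]

theorem WP_ne [IsDomain A] (hs : ∀ j k, ∃ m : ℕ, (s ^ m) j = k) (hτ : Function.Injective τ) {d : ℕ}
    {M : Matrix ι ι A} (h : WP s τ d M) (hM : M ≠ 0) (j : ι) : M j ((s ^ d) j) ≠ 0 := by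
  obtain ⟨j0, k0, h0⟩ : ∃ j0 k0, M j0 k0 ≠ 0 := by
    by_contra hcon
    push Not at hcon
    exact hM (by ext1 a b; exact hcon a b)
  have hk := h.1 j0 k0 h0
  have hm : ∀ m : ℕ, M ((s ^ m) j0) ((s ^ m) k0) ≠ 0 := by
    intro m
    induction m with
    | zero => simpa using h0
    | succ m ih =>
      rw [pow_succ', Equiv.Perm.mul_apply, Equiv.Perm.mul_apply, h.2]
      exact (map_ne_zero_iff τ hτ).mpr ih
  obtain ⟨m, hmj⟩ := hs j0 j
  have e := hm m
  have e1 : (s ^ m) ((s ^ d) j0) = (s ^ d) ((s ^ m) j0) := by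
    rw [← Equiv.Perm.mul_apply, ← Equiv.Perm.mul_apply, ← pow_add, ← pow_add, add_comm]
  rw [hk, e1, hmj] at e
  exact e

theorem WP_mul_ne [Nonempty ι] [IsDomain A] (hs : ∀ j k, ∃ m : ℕ, (s ^ m) j = k)
    (hτ : Function.Injective τ) {d e : ℕ} {M M' : Matrix ι ι A}
    (h : WP s τ d M) (h' : WP s τ e M') (hM : M ≠ 0) (hM' : M' ≠ 0) : M * M' ≠ 0 := by
  intro h0
  obtain ⟨j⟩ := ‹Nonempty ι›
  have e1 : (M * M') j ((s ^ e) ((s ^ d) j)) = 0 := by rw [h0]; rfl
  rw [mul_apply, Finset.sum_eq_single ((s ^ d) j)] at e1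
  · rcases mul_eq_zero.mp e1 with e2 | e2
    · exact WP_ne s τ hs hτ h hM j e2
    · exact WP_ne s τ hs hτ h' hM' _ e2
  · intro b _ hb
    have : M j b = 0 := by
      by_contra hcon
      exact hb (h.1 j b hcon)
    rw [this, zero_mul]
  · intro h1; exact absurd (Finset.mem_univ _) h1

end Shift

section Poly

variable {K : Type*} [Field K] {ι : Type*} [Fintype ι] [DecidableEq ι] (s : Equiv.Perm ι)
  {A : Type*} [CommRing A] [Algebra K A]

/-- Polynomials with matrix coefficients, the `d`-th coefficient lying in `WP d`. -/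
def SP (τ : A →ₐ[K] A) : Subalgebra K (Matrix ι ι A)[X] where
  carrier := {q | ∀ d, WP s (τ : A →+* A) d (q.coeff d)}
  mul_mem' := by
    intro p q hp hq d
    rw [Polynomial.coeff_mul]
    refine WP_sum _ _ _ _ fun x hx => ?_
    rw [← Finset.HasAntidiagonal.mem_antidiagonal.mp hx]
    exact WP_mul _ _ (hp _) (hq _)
  add_mem' := by
    intro p q hp hq d
    rw [Polynomial.coeff_add]
    exact WP_add _ _ (hp d) (hq d)
  algebraMap_mem' := by
    intro c d
    have : (algebraMap K (Matrix ι ι A)[X]) c = C (algebraMap K (Matrix ι ι A) c) := rfl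
    rw [this, coeff_C]
    by_cases hd : d = 0
    · rw [if_pos hd, hd]
      refine ⟨fun j k hjk => ?_, fun j k => ?_⟩
      · by_contra hcon
        apply hjk
        rw [algebraMap_matrix_apply, if_neg]
        intro e; apply hcon; rw [e]; simp
      · rw [algebraMap_matrix_apply, algebraMap_matrix_apply]
        by_cases hjk : j = k
        · subst hjk; simp
        · rw [if_neg hjk, if_neg (fun e => hjk (s.injective e)), map_zero]
    · rw [if_neg hd]; exact WP_zero _ _ d

theorem SP_mul [Nonempty ι] [IsDomain A] (hs : ∀ j k, ∃ m : ℕ, (s ^ m) j = k) (τ : A →ₐ[K] A)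
    (hτ : Function.Injective τ) {q q' : (Matrix ι ι A)[X]} (hq : q ∈ SP (K := K) s τ)
    (hq' : q' ∈ SP (K := K) s τ) (h : q * q' = 0) : q = 0 ∨ q' = 0 := by
  by_contra hne
  push Not at hne
  have h1 : q.leadingCoeff ≠ 0 := leadingCoeff_ne_zero.mpr hne.1
  have h2 : q'.leadingCoeff ≠ 0 := leadingCoeff_ne_zero.mpr hne.2
  apply WP_mul_ne s (τ : A →+* A) hs hτ (hq q.natDegree) (hq' q'.natDegree) h1 h2
  have h3 := coeff_mul_degree_add_degree q q'
  rw [h, coeff_zero] at h3
  exact h3.symm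

end Poly

end Pool.Agent.TH82.NC
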