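import Mathlib
import Pool.Agent.TH82.NC.Perm

/-!
Off-diagonal blocks of values on block triangular matrices, and the operators describing their
dependence on the off-diagonal blocks of the substituted matrices.
-/

set_option autoImplicit false

namespace Pool.Agent.TH82.NC

open Matrix Pool.Agent.H552R3.PC
open scoped Kronecker

section Blocks

variable {K : Type*} [Field K] {σ : Type*} {ι κ : Type*} [Fintype ι] [DecidableEq ι] [Fintype κ]
  [DecidableEq κ] {R : Type*} [CommRing R] [Algebra K R]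

/-- The upper off-diagonal block of the value at upper block triangular matrices. -/
noncomputable def up (A : σ → Matrix ι ι R) (A' : σ → Matrix κ κ R) (b : σ → Matrix ι κ R)
    (f : FreeAlgebra K σ) : Matrix ι κ R :=
  (FreeAlgebra.lift K (fun i => fromBlocks (A i) (b i) 0 (A' i)) f).toBlocks₁₂

/-- The lower off-diagonal block of the value at lower block triangular matrices. -/
noncomputable def lo (A : σ → Matrix ι ι R) (A' : σ → Matrix κ κ R) (c : σ → Matrix κ ι R)
    (f : FreeAlgebra K σ) : Matrix κ ι R :=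
  (FreeAlgebra.lift K (fun i => fromBlocks (A i) 0 (c i) (A' i)) f).toBlocks₂₁

theorem algebraMap_fromBlocks (r : K) : algebraMap K (Matrix (ι ⊕ κ) (ι ⊕ κ) R) r =
    fromBlocks (algebraMap K _ r) 0 0 (algebraMap K _ r) := by
  ext a b
  rcases a with a | a <;> rcases b with b | b <;>
    simp [algebraMap_matrix_apply]

theorem lift_up (A : σ → Matrix ι ι R) (A' : σ → Matrix κ κ R) (b : σ → Matrix ι κ R)
    (f : FreeAlgebra K σ) : FreeAlgebra.lift K (fun i => fromBlocks (A i) (b i) 0 (A' i)) f =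
      fromBlocks (FreeAlgebra.lift K A f) (up A A' b f) 0 (FreeAlgebra.lift K A' f) := by
  have key : ∃ u, FreeAlgebra.lift K (fun i => fromBlocks (A i) (b i) 0 (A' i)) f =
      fromBlocks (FreeAlgebra.lift K A f) u 0 (FreeAlgebra.lift K A' f) := by
    induction f using FreeAlgebra.induction with
    | grade0 r =>
      refine ⟨0, ?_⟩
      rw [AlgHom.commutes, AlgHom.commutes, AlgHom.commutes, algebraMap_fromBlocks]
    | grade1 x =>
      exact ⟨b x, by rw [FreeAlgebra.lift_ι_apply, FreeAlgebra.lift_ι_apply,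
        FreeAlgebra.lift_ι_apply]⟩
    | mul f g hf hg =>
      obtain ⟨u, hu⟩ := hf
      obtain ⟨v, hv⟩ := hg
      refine ⟨FreeAlgebra.lift K A f * v + u * FreeAlgebra.lift K A' g, ?_⟩
      rw [map_mul, hu, hv, fromBlocks_multiply, map_mul, map_mul]
      simp
    | add f g hf hg =>
      obtain ⟨u, hu⟩ := hf
      obtain ⟨v, hv⟩ := hg
      refine ⟨u + v, ?_⟩
      rw [map_add, hu, hv, fromBlocks_add, map_add, map_add]
      simp
  obtain ⟨u, hu⟩ := key
  have h1 : up A A' b f = u := by rw [up, hu, toBlocks_fromBlocks₁₂]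
  rw [h1, hu]

theorem lift_lo (A : σ → Matrix ι ι R) (A' : σ → Matrix κ κ R) (c : σ → Matrix κ ι R)
    (f : FreeAlgebra K σ) : FreeAlgebra.lift K (fun i => fromBlocks (A i) 0 (c i) (A' i)) f =
      fromBlocks (FreeAlgebra.lift K A f) 0 (lo A A' c f) (FreeAlgebra.lift K A' f) := by
  have key : ∃ u, FreeAlgebra.lift K (fun i => fromBlocks (A i) 0 (c i) (A' i)) f =
      fromBlocks (FreeAlgebra.lift K A f) 0 u (FreeAlgebra.lift K A' f) := by
    induction f using FreeAlgebra.induction with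
    | grade0 r =>
      refine ⟨0, ?_⟩
      rw [AlgHom.commutes, AlgHom.commutes, AlgHom.commutes, algebraMap_fromBlocks]
    | grade1 x =>
      exact ⟨c x, by rw [FreeAlgebra.lift_ι_apply, FreeAlgebra.lift_ι_apply,
        FreeAlgebra.lift_ι_apply]⟩
    | mul f g hf hg =>
      obtain ⟨u, hu⟩ := hf
      obtain ⟨v, hv⟩ := hg
      refine ⟨u * FreeAlgebra.lift K A g + FreeAlgebra.lift K A' f * v, ?_⟩
      rw [map_mul, hu, hv, fromBlocks_multiply, map_mul, map_mul]
      simp
    | add f g hf hg =>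
      obtain ⟨u, hu⟩ := hf
      obtain ⟨v, hv⟩ := hg
      refine ⟨u + v, ?_⟩
      rw [map_add, hu, hv, fromBlocks_add, map_add, map_add]
      simp
  obtain ⟨u, hu⟩ := key
  have h1 : lo A A' c f = u := by rw [lo, hu, toBlocks_fromBlocks₂₁]
  rw [h1, hu]

variable (A : σ → Matrix ι ι R) (A' : σ → Matrix κ κ R)

theorem up_algebraMap (b : σ → Matrix ι κ R) (r : K) :
    up A A' b (algebraMap K (FreeAlgebra K σ) r) = 0 := by
  rw [up, AlgHom.commutes, algebraMap_fromBlocks, toBlocks_fromBlocks₁₂]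

theorem up_ι (b : σ → Matrix ι κ R) (i : σ) : up A A' b (FreeAlgebra.ι K i) = b i := by
  rw [up, FreeAlgebra.lift_ι_apply, toBlocks_fromBlocks₁₂]

theorem up_add (b : σ → Matrix ι κ R) (f g : FreeAlgebra K σ) :
    up A A' b (f + g) = up A A' b f + up A A' b g := by
  rw [up, map_add]; rfl

theorem up_mul (b : σ → Matrix ι κ R) (f g : FreeAlgebra K σ) :
    up A A' b (f * g) = FreeAlgebra.lift K A f * up A A' b g +
      up A A' b f * FreeAlgebra.lift K A' g := by
  rw [up, map_mul, lift_up, lift_up, fromBlocks_multiply, toBlocks_fromBlocks₁₂]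

theorem lo_algebraMap (c : σ → Matrix κ ι R) (r : K) :
    lo A A' c (algebraMap K (FreeAlgebra K σ) r) = 0 := by
  rw [lo, AlgHom.commutes, algebraMap_fromBlocks, toBlocks_fromBlocks₂₁]

theorem lo_ι (c : σ → Matrix κ ι R) (i : σ) : lo A A' c (FreeAlgebra.ι K i) = c i := by
  rw [lo, FreeAlgebra.lift_ι_apply, toBlocks_fromBlocks₂₁]

theorem lo_add (c : σ → Matrix κ ι R) (f g : FreeAlgebra K σ) :
    lo A A' c (f + g) = lo A A' c f + lo A A' c g := by
  rw [lo, map_add]; rfl

theorem lo_mul (c : σ → Matrix κ ι R) (f g : FreeAlgebra K σ) :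
    lo A A' c (f * g) = lo A A' c f * FreeAlgebra.lift K A g +
      FreeAlgebra.lift K A' f * lo A A' c g := by
  rw [lo, map_mul, lift_lo, lift_lo, fromBlocks_multiply, toBlocks_fromBlocks₂₁]

/-- Additivity in the off-diagonal block. -/
theorem up_sum {α : Type*} (t : Finset α) (b : α → σ → Matrix ι κ R) (f : FreeAlgebra K σ) :
    up A A' (fun i => ∑ a ∈ t, b a i) f = ∑ a ∈ t, up A A' (b a) f := by
  induction f using FreeAlgebra.induction with
  | grade0 r => simp only [up_algebraMap, Finset.sum_const_zero]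
  | grade1 x => simp only [up_ι]
  | mul f g hf hg =>
    simp only [up_mul, hf, hg, Matrix.mul_sum, Matrix.sum_mul, Finset.sum_add_distrib]
  | add f g hf hg => simp only [up_add, hf, hg, Finset.sum_add_distrib]

theorem lo_sum {α : Type*} (t : Finset α) (c : α → σ → Matrix κ ι R) (f : FreeAlgebra K σ) :
    lo A A' (fun i => ∑ a ∈ t, c a i) f = ∑ a ∈ t, lo A A' (c a) f := by
  induction f using FreeAlgebra.induction with
  | grade0 r => simp only [lo_algebraMap, Finset.sum_const_zero]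
  | grade1 x => simp only [lo_ι]
  | mul f g hf hg =>
    simp only [lo_mul, hf, hg, Matrix.mul_sum, Matrix.sum_mul, Finset.sum_add_distrib]
  | add f g hf hg => simp only [lo_add, hf, hg, Finset.sum_add_distrib]

/-- Naturality. -/
theorem up_map {R' : Type*} [CommRing R'] [Algebra K R'] (ψ : R →ₐ[K] R') (b : σ → Matrix ι κ R)
    (f : FreeAlgebra K σ) : (up A A' b f).map ψ =
      up (fun i => (A i).map ψ) (fun i => (A' i).map ψ) (fun i => (b i).map ψ) f := by
  have h1 := lift_map (ψ.mapMatrix (m := ι ⊕ κ)) (fun i => fromBlocks (A i) (b i) 0 (A' i)) f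
  have h2 : (fun i => (ψ.mapMatrix (m := ι ⊕ κ)) (fromBlocks (A i) (b i) 0 (A' i))) =
      fun i => fromBlocks ((A i).map ψ) ((b i).map ψ) 0 ((A' i).map ψ) := by
    funext i
    rw [AlgHom.mapMatrix_apply, fromBlocks_map, Matrix.map_zero _ (map_zero ψ)]
  rw [h2] at h1
  rw [up, up, ← h1, AlgHom.mapMatrix_apply]
  rfl

theorem lo_map {R' : Type*} [CommRing R'] [Algebra K R'] (ψ : R →ₐ[K] R') (c : σ → Matrix κ ι R)
    (f : FreeAlgebra K σ) : (lo A A' c f).map ψ =
      lo (fun i => (A i).map ψ) (fun i => (A' i).map ψ) (fun i => (c i).map ψ) f := by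
  have h1 := lift_map (ψ.mapMatrix (m := ι ⊕ κ)) (fun i => fromBlocks (A i) 0 (c i) (A' i)) f
  have h2 : (fun i => (ψ.mapMatrix (m := ι ⊕ κ)) (fromBlocks (A i) 0 (c i) (A' i))) =
      fun i => fromBlocks ((A i).map ψ) 0 ((c i).map ψ) ((A' i).map ψ) := by
    funext i
    rw [AlgHom.mapMatrix_apply, fromBlocks_map, Matrix.map_zero _ (map_zero ψ)]
  rw [h2] at h1
  rw [lo, lo, ← h1, AlgHom.mapMatrix_apply]
  rfl

/-- The operator describing the upper block. -/
noncomputable def Bop (z : σ → R) (f : FreeAlgebra K σ) : Matrix (ι × κ) (ι × κ) R :=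
  Matrix.of fun x y => up A A' (fun i => Matrix.single y.1 y.2 (z i)) f x.1 x.2

/-- The operator describing the lower block. -/
noncomputable def Gop (w : σ → R) (f : FreeAlgebra K σ) : Matrix (ι × κ) (ι × κ) R :=
  Matrix.of fun x y => lo A A' (fun i => Matrix.single x.2 x.1 (w i)) f y.2 y.1

theorem Bop_mul (z : σ → R) (f g : FreeAlgebra K σ) : Bop A A' z (f * g) =
    (FreeAlgebra.lift K A f ⊗ₖ (1 : Matrix κ κ R)) * Bop A A' z g +
      ((1 : Matrix ι ι R) ⊗ₖ (FreeAlgebra.lift K A' g)ᵀ) * Bop A A' z f := by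
  ext ⟨p', q'⟩ ⟨p, q⟩
  rw [Matrix.add_apply, Matrix.mul_apply, Matrix.mul_apply, Bop, Matrix.of_apply, up_mul,
    Matrix.add_apply, Matrix.mul_apply, Matrix.mul_apply, Fintype.sum_prod_type,
    Fintype.sum_prod_type]
  congr 1
  · refine Finset.sum_congr rfl fun x _ => ?_
    rw [Finset.sum_eq_single q']
    · rw [kroneckerMap_apply, Matrix.one_apply_eq, mul_one]; rfl
    · intro y _ hy
      rw [kroneckerMap_apply, Matrix.one_apply_ne (Ne.symm hy), mul_zero, zero_mul]
    · intro h; exact absurd (Finset.mem_univ _) h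
  · rw [Finset.sum_eq_single p']
    · refine Finset.sum_congr rfl fun y _ => ?_
      rw [kroneckerMap_apply, Matrix.one_apply_eq, one_mul, Matrix.transpose_apply, mul_comm]; rfl
    · intro x _ hx
      refine Finset.sum_eq_zero fun y _ => ?_
      rw [kroneckerMap_apply, Matrix.one_apply_ne (Ne.symm hx), zero_mul, zero_mul]
    · intro h; exact absurd (Finset.mem_univ _) h

theorem Gop_mul (w : σ → R) (f g : FreeAlgebra K σ) : Gop A A' w (f * g) =
    Gop A A' w f * (FreeAlgebra.lift K A g ⊗ₖ (1 : Matrix κ κ R)) +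
      Gop A A' w g * ((1 : Matrix ι ι R) ⊗ₖ (FreeAlgebra.lift K A' f)ᵀ) := by
  ext ⟨s, r⟩ ⟨p', q'⟩
  rw [Matrix.add_apply, Matrix.mul_apply, Matrix.mul_apply, Gop, Matrix.of_apply, lo_mul,
    Matrix.add_apply, Matrix.mul_apply, Matrix.mul_apply, Fintype.sum_prod_type,
    Fintype.sum_prod_type]
  congr 1
  · refine Finset.sum_congr rfl fun x _ => ?_
    rw [Finset.sum_eq_single q']
    · rw [kroneckerMap_apply, Matrix.one_apply_eq, mul_one]; rfl
    · intro y _ hy
      rw [kroneckerMap_apply, Matrix.one_apply_ne hy, mul_zero, mul_zero]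
    · intro h; exact absurd (Finset.mem_univ _) h
  · rw [Finset.sum_eq_single p']
    · refine Finset.sum_congr rfl fun y _ => ?_
      rw [kroneckerMap_apply, Matrix.one_apply_eq, one_mul, Matrix.transpose_apply, mul_comm]; rfl
    · intro x _ hx
      refine Finset.sum_eq_zero fun y _ => ?_
      rw [kroneckerMap_apply, Matrix.one_apply_ne hx, zero_mul, mul_zero]
    · intro h; exact absurd (Finset.mem_univ _) h

theorem Bop_ι (z : σ → R) (i : σ) : Bop A A' z (FreeAlgebra.ι K i) =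
    z i • (1 : Matrix (ι × κ) (ι × κ) R) := by
  ext ⟨p', q'⟩ ⟨p, q⟩
  rw [Bop, Matrix.of_apply, up_ι, Matrix.single_apply, Matrix.smul_apply, Matrix.one_apply,
    smul_eq_mul]
  by_cases h : p = p' ∧ q = q'
  · obtain ⟨rfl, rfl⟩ := h
    rw [if_pos ⟨rfl, rfl⟩, if_pos rfl, mul_one]
  · rw [if_neg h, if_neg, mul_zero]
    intro e
    exact h ⟨(congrArg Prod.fst e).symm, (congrArg Prod.snd e).symm⟩

theorem Gop_ι (w : σ → R) (i : σ) : Gop A A' w (FreeAlgebra.ι K i) =
    w i • (1 : Matrix (ι × κ) (ι × κ) R) := by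
  ext ⟨s, r⟩ ⟨p', q'⟩
  rw [Gop, Matrix.of_apply, lo_ι, Matrix.single_apply, Matrix.smul_apply, Matrix.one_apply,
    smul_eq_mul]
  by_cases h : r = q' ∧ s = p'
  · obtain ⟨rfl, rfl⟩ := h
    rw [if_pos ⟨rfl, rfl⟩, if_pos rfl, mul_one]
  · rw [if_neg h, if_neg, mul_zero]
    intro e
    exact h ⟨congrArg Prod.snd e, congrArg Prod.fst e⟩

theorem kron_one_mem (S : Subalgebra K (Matrix (ι × κ) (ι × κ) R))
    (hA : ∀ i, A i ⊗ₖ (1 : Matrix κ κ R) ∈ S) (f : FreeAlgebra K σ) :
    FreeAlgebra.lift K A f ⊗ₖ (1 : Matrix κ κ R) ∈ S := by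
  induction f using FreeAlgebra.induction with
  | grade0 r =>
    rw [AlgHom.commutes]
    have : algebraMap K (Matrix ι ι R) r ⊗ₖ (1 : Matrix κ κ R) =
        algebraMap K (Matrix (ι × κ) (ι × κ) R) r := by
      rw [Algebra.algebraMap_eq_smul_one, Algebra.algebraMap_eq_smul_one, smul_kronecker,
        one_kronecker_one]
    rw [this]
    exact S.algebraMap_mem r
  | grade1 x => rw [FreeAlgebra.lift_ι_apply]; exact hA x
  | mul f g hf hg =>
    have : FreeAlgebra.lift K A (f * g) ⊗ₖ (1 : Matrix κ κ R) =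
        (FreeAlgebra.lift K A f ⊗ₖ (1 : Matrix κ κ R)) *
          (FreeAlgebra.lift K A g ⊗ₖ (1 : Matrix κ κ R)) := by
      rw [map_mul, ← mul_kronecker_mul, mul_one]
    rw [this]
    exact S.mul_mem hf hg
  | add f g hf hg =>
    rw [map_add, add_kronecker]
    exact S.add_mem hf hg

theorem one_kron_mem (S : Subalgebra K (Matrix (ι × κ) (ι × κ) R))
    (hA' : ∀ i, (1 : Matrix ι ι R) ⊗ₖ (A' i)ᵀ ∈ S) (f : FreeAlgebra K σ) :
    (1 : Matrix ι ι R) ⊗ₖ (FreeAlgebra.lift K A' f)ᵀ ∈ S := by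
  induction f using FreeAlgebra.induction with
  | grade0 r =>
    rw [AlgHom.commutes]
    have : (1 : Matrix ι ι R) ⊗ₖ (algebraMap K (Matrix κ κ R) r)ᵀ =
        algebraMap K (Matrix (ι × κ) (ι × κ) R) r := by
      rw [Algebra.algebraMap_eq_smul_one, Algebra.algebraMap_eq_smul_one, transpose_smul,
        transpose_one, kronecker_smul, one_kronecker_one]
    rw [this]
    exact S.algebraMap_mem r
  | grade1 x => rw [FreeAlgebra.lift_ι_apply]; exact hA' x
  | mul f g hf hg =>
    have : (1 : Matrix ι ι R) ⊗ₖ (FreeAlgebra.lift K A' (f * g))ᵀ =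
        ((1 : Matrix ι ι R) ⊗ₖ (FreeAlgebra.lift K A' g)ᵀ) *
          ((1 : Matrix ι ι R) ⊗ₖ (FreeAlgebra.lift K A' f)ᵀ) := by
      rw [map_mul, transpose_mul, ← mul_kronecker_mul, mul_one]
    rw [this]
    exact S.mul_mem hg hf
  | add f g hf hg =>
    rw [map_add, transpose_add, kronecker_add]
    exact S.add_mem hf hg

theorem Bop_mem (S : Subalgebra K (Matrix (ι × κ) (ι × κ) R))
    (hA : ∀ i, A i ⊗ₖ (1 : Matrix κ κ R) ∈ S) (hA' : ∀ i, (1 : Matrix ι ι R) ⊗ₖ (A' i)ᵀ ∈ S)
    (z : σ → R) (hz : ∀ i, z i • (1 : Matrix (ι × κ) (ι × κ) R) ∈ S) (f : FreeAlgebra K σ) :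
    Bop A A' z f ∈ S := by
  induction f using FreeAlgebra.induction with
  | grade0 r =>
    have : Bop A A' z (algebraMap K (FreeAlgebra K σ) r) = 0 := by
      ext x y
      rw [Bop, Matrix.of_apply, up_algebraMap]; rfl
    rw [this]
    exact S.zero_mem
  | grade1 x => rw [Bop_ι]; exact hz x
  | mul f g hf hg =>
    rw [Bop_mul]
    exact S.add_mem (S.mul_mem (kron_one_mem A S hA f) hg) (S.mul_mem (one_kron_mem A' S hA' g) hf)
  | add f g hf hg =>
    have : Bop A A' z (f + g) = Bop A A' z f + Bop A A' z g := by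
      ext x y
      rw [Bop, Matrix.of_apply, up_add]; rfl
    rw [this]
    exact S.add_mem hf hg

theorem Gop_mem (S : Subalgebra K (Matrix (ι × κ) (ι × κ) R))
    (hA : ∀ i, A i ⊗ₖ (1 : Matrix κ κ R) ∈ S) (hA' : ∀ i, (1 : Matrix ι ι R) ⊗ₖ (A' i)ᵀ ∈ S)
    (w : σ → R) (hw : ∀ i, w i • (1 : Matrix (ι × κ) (ι × κ) R) ∈ S) (f : FreeAlgebra K σ) :
    Gop A A' w f ∈ S := by
  induction f using FreeAlgebra.induction with
  | grade0 r =>
    have : Gop A A' w (algebraMap K (FreeAlgebra K σ) r) = 0 := by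
      ext x y
      rw [Gop, Matrix.of_apply, lo_algebraMap]; rfl
    rw [this]
    exact S.zero_mem
  | grade1 x => rw [Gop_ι]; exact hw x
  | mul f g hf hg =>
    rw [Gop_mul]
    exact S.add_mem (S.mul_mem hf (kron_one_mem A S hA g)) (S.mul_mem hg (one_kron_mem A' S hA' f))
  | add f g hf hg =>
    have : Gop A A' w (f + g) = Gop A A' w f + Gop A A' w g := by
      ext x y
      rw [Gop, Matrix.of_apply, lo_add]; rfl
    rw [this]
    exact S.add_mem hf hg

/-- If the traces of the products of the two off-diagonal blocks vanish, so does the product of the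
operators. -/
theorem Gop_mul_Bop (z w : σ → R) (f : FreeAlgebra K σ)
    (h : ∀ (b : σ → Matrix ι κ R) (c : σ → Matrix κ ι R),
      (up A A' b f * lo A A' c f).trace = 0) : Gop A A' w f * Bop A A' z f = 0 := by
  ext ⟨s, r⟩ ⟨p, q⟩
  rw [Matrix.zero_apply, ← h (fun i => Matrix.single p q (z i)) (fun i => Matrix.single r s (w i)),
    Matrix.mul_apply, Matrix.trace, Fintype.sum_prod_type]
  refine Finset.sum_congr rfl fun p' _ => ?_
  rw [Matrix.diag_apply, Matrix.mul_apply]
  refine Finset.sum_congr rfl fun q' _ => ?_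
  rw [mul_comm]; rfl

end Blocks

end Pool.Agent.TH82.NC
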