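import Mathlib
import Pool.Agent.TH82.NC.Kron

/-!
The product of the two off-diagonal blocks is nilpotent.
-/

set_option autoImplicit false

namespace Pool.Agent.TH82.NC

open Matrix Polynomial Pool.Agent.H552R3.PC

variable {K : Type*} [Field K] {σ : Type*}

section First

variable {ι κ : Type*} [Fintype ι] [DecidableEq ι] [Fintype κ]
  [DecidableEq κ] {R : Type*} [CommRing R] [Algebra K R]

/-- Block matrices with the off-diagonal blocks scaled by the variable. -/
noncomputable def Xs (A : σ → Matrix ι ι R) (A' : σ → Matrix κ κ R) (b : σ → Matrix ι κ R)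
    (c : σ → Matrix κ ι R) (i : σ) : Matrix (ι ⊕ κ) (ι ⊕ κ) R[X] :=
  fromBlocks ((A i).map C) ((b i).map fun x => X * C x) ((c i).map fun x => X * C x)
    ((A' i).map C)

/-- The coefficients of degree zero and one. -/
theorem Xs_coeff (A : σ → Matrix ι ι R) (A' : σ → Matrix κ κ R) (b : σ → Matrix ι κ R)
    (c : σ → Matrix κ ι R) (f : FreeAlgebra K σ) :
    (matPolyEquiv (FreeAlgebra.lift K (Xs A A' b c) f)).coeff 0 =
      fromBlocks (FreeAlgebra.lift K A f) 0 0 (FreeAlgebra.lift K A' f) ∧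
    (matPolyEquiv (FreeAlgebra.lift K (Xs A A' b c) f)).coeff 1 =
      fromBlocks 0 (up A A' b f) (lo A A' c f) 0 := by
  induction f using FreeAlgebra.induction with
  | grade0 r =>
    rw [AlgHom.commutes, AlgHom.commutes, AlgHom.commutes, up_algebraMap, lo_algebraMap,
      fromBlocks_zero, ← algebraMap_fromBlocks]
    have h1 : (algebraMap K R[X]) r = C (algebraMap K R r) := rfl
    constructor
    · ext1 a b
      rw [matPolyEquiv_coeff_apply, algebraMap_matrix_apply, algebraMap_matrix_apply, h1]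
      by_cases h : a = b
      · rw [if_pos h, if_pos h, coeff_C_zero]
      · rw [if_neg h, if_neg h, coeff_zero]
    · ext1 a b
      rw [matPolyEquiv_coeff_apply, algebraMap_matrix_apply, h1]
      by_cases h : a = b
      · rw [if_pos h, coeff_C_of_ne_zero one_ne_zero]; rfl
      · rw [if_neg h, coeff_zero]; rfl
  | grade1 i =>
    rw [FreeAlgebra.lift_ι_apply, FreeAlgebra.lift_ι_apply, FreeAlgebra.lift_ι_apply, up_ι, lo_ι]
    constructor
    · ext a b
      rw [matPolyEquiv_coeff_apply, Xs]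
      rcases a with a | a <;> rcases b with b | b <;> simp
    · ext a b
      rw [matPolyEquiv_coeff_apply, Xs]
      rcases a with a | a <;> rcases b with b | b <;> simp [coeff_C]
  | mul f g hf hg =>
    constructor
    · rw [map_mul, map_mul, mul_coeff_zero, hf.1, hg.1, fromBlocks_multiply, map_mul, map_mul]
      simp
    · rw [map_mul, map_mul, mul_coeff_one, hf.1, hg.1, hf.2, hg.2, fromBlocks_multiply,
        fromBlocks_multiply, fromBlocks_add, up_mul, lo_mul]
      simp [add_comm]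
  | add f g hf hg =>
    constructor
    · rw [map_add, map_add, coeff_add, hf.1, hg.1, fromBlocks_add, map_add, map_add]
      simp
    · rw [map_add, map_add, coeff_add, hf.2, hg.2, fromBlocks_add, up_add, lo_add]
      simp

end First

section Second

variable {R : Type*} [CommRing R] [Algebra K R] {d e : ℕ}

theorem comm_sum [Infinite K] (g : FreeAlgebra K σ)
    (h : ∀ X : σ → Matrix (Fin (d + e)) (Fin (d + e)) K,
      ∀ Z : Matrix (Fin (d + e)) (Fin (d + e)) K,
      FreeAlgebra.lift K X g * Z = Z * FreeAlgebra.lift K X g)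
    (W : σ → Matrix (Fin d ⊕ Fin e) (Fin d ⊕ Fin e) R) (a b : Fin d ⊕ Fin e) :
    FreeAlgebra.lift K W g * Matrix.single a b 1 = Matrix.single a b 1 * FreeAlgebra.lift K W g := by
  let E := Matrix.reindexAlgEquiv K R (finSumFinEquiv (m := d) (n := e))
  apply E.injective
  rw [map_mul, map_mul]
  have h1 : E (FreeAlgebra.lift K W g) = FreeAlgebra.lift K (fun i => E (W i)) g :=
    lift_map E.toAlgHom W g
  have h2 : E (Matrix.single a b 1) =
      (Matrix.single (finSumFinEquiv a) (finSumFinEquiv b) (1 : K)).map (algebraMap K R) := by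
    ext1 x y
    rw [Matrix.map_apply, Matrix.single_apply]
    simp only [E, Matrix.coe_reindexAlgEquiv, Matrix.reindex_apply, Matrix.submatrix_apply,
      Matrix.single_apply]
    by_cases hxy : finSumFinEquiv a = x ∧ finSumFinEquiv b = y
    · obtain ⟨rfl, rfl⟩ := hxy
      simp
    · rw [if_neg hxy, if_neg, map_zero]
      rintro ⟨h3, h4⟩
      exact hxy ⟨by rw [h3, Equiv.apply_symm_apply], by rw [h4, Equiv.apply_symm_apply]⟩
  rw [h1, h2]
  exact transfer_comm g _ (fun X => h X _) _

/-- The `ν`-th power of the first order part commutes with the matrix units. -/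
theorem first_comm [Infinite K] (f : FreeAlgebra K σ)
    (hd : ∀ Y : σ → Matrix (Fin d) (Fin d) K, FreeAlgebra.lift K Y f = 0)
    (he : ∀ Y : σ → Matrix (Fin e) (Fin e) K, FreeAlgebra.lift K Y f = 0) (ν : ℕ)
    (h : ∀ X : σ → Matrix (Fin (d + e)) (Fin (d + e)) K,
      ∀ Z : Matrix (Fin (d + e)) (Fin (d + e)) K,
      FreeAlgebra.lift K X (f ^ ν) * Z = Z * FreeAlgebra.lift K X (f ^ ν))
    (A : σ → Matrix (Fin d) (Fin d) R) (A' : σ → Matrix (Fin e) (Fin e) R)
    (b : σ → Matrix (Fin d) (Fin e) R) (c : σ → Matrix (Fin e) (Fin d) R)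
    (x y : Fin d ⊕ Fin e) :
    (fromBlocks 0 (up A A' b f) (lo A A' c f) 0) ^ ν * Matrix.single x y 1 =
      Matrix.single x y 1 * (fromBlocks 0 (up A A' b f) (lo A A' c f) 0) ^ ν := by
  have h1 := comm_sum (f ^ ν) h (Xs A A' b c) x y
  rw [map_pow] at h1
  obtain ⟨q0, q1⟩ := Xs_coeff A A' b c f
  set q := matPolyEquiv (FreeAlgebra.lift K (Xs A A' b c) f) with hq
  set P := fromBlocks (0 : Matrix (Fin d) (Fin d) R) (up A A' b f) (lo A A' c f)
    (0 : Matrix (Fin e) (Fin e) R) with hP
  rw [transfer f hd, transfer f he, fromBlocks_zero] at q0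
  have hz : matPolyEquiv (Matrix.single x y (1 : R[X])) = C (Matrix.single x y (1 : R)) := by
    ext m u w
    rw [matPolyEquiv_coeff_apply, coeff_C, Matrix.single_apply]
    by_cases hm : m = 0
    · rw [if_pos hm, Matrix.single_apply, hm]
      split_ifs <;> simp
    · rw [if_neg hm, Matrix.zero_apply]
      split_ifs
      · rw [coeff_one, if_neg hm]
      · rw [coeff_zero]
  have h2 : q ^ ν * C (Matrix.single x y (1 : R)) = C (Matrix.single x y (1 : R)) * q ^ ν := by
    rw [hq, ← hz, ← map_pow, ← map_mul, h1, map_mul, map_pow]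
  have h3 : (X : (Matrix (Fin d ⊕ Fin e) (Fin d ⊕ Fin e) R)[X]) ∣ q := by
    rw [X_dvd_iff]; exact q0
  obtain ⟨q', hq'⟩ := h3
  have h4 : q'.coeff 0 = P := by
    rw [← q1, hq', coeff_X_mul]
  have h5 : q ^ ν = X ^ ν * q' ^ ν := by
    have hc : Commute (X : (Matrix (Fin d ⊕ Fin e) (Fin d ⊕ Fin e) R)[X]) q' := commute_X q'
    rw [hq', hc.mul_pow]
  have h6 : (q ^ ν).coeff ν = P ^ ν := by
    rw [h5, coeff_X_pow_mul', if_pos le_rfl, Nat.sub_self]
    have : (q' ^ ν).coeff 0 = (q'.coeff 0) ^ ν := by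
      exact map_pow (constantCoeff (R := Matrix (Fin d ⊕ Fin e) (Fin d ⊕ Fin e) R)) q' ν
    rw [this, h4]
  have h7 := congrArg (fun p => p.coeff ν) h2
  simp only [coeff_mul_C, coeff_C_mul] at h7
  rwa [h6] at h7

/-- The trace of the product of the off-diagonal blocks vanishes. -/
theorem trace_up_lo [Infinite K] [IsReduced R] (hd0 : 0 < d) (f : FreeAlgebra K σ)
    (hd : ∀ Y : σ → Matrix (Fin d) (Fin d) K, FreeAlgebra.lift K Y f = 0)
    (he : ∀ Y : σ → Matrix (Fin e) (Fin e) K, FreeAlgebra.lift K Y f = 0) (ν : ℕ) (hν : Odd ν)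
    (h : ∀ X : σ → Matrix (Fin (d + e)) (Fin (d + e)) K,
      ∀ Z : Matrix (Fin (d + e)) (Fin (d + e)) K,
      FreeAlgebra.lift K X (f ^ ν) * Z = Z * FreeAlgebra.lift K X (f ^ ν))
    (A : σ → Matrix (Fin d) (Fin d) R) (A' : σ → Matrix (Fin e) (Fin e) R)
    (b : σ → Matrix (Fin d) (Fin e) R) (c : σ → Matrix (Fin e) (Fin d) R) :
    (up A A' b f * lo A A' c f).trace = 0 := by
  set β := up A A' b f with hβ
  set γ := lo A A' c f with hγ
  set P := fromBlocks (0 : Matrix (Fin d) (Fin d) R) β γ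
    (0 : Matrix (Fin e) (Fin e) R) with hP
  have hsq : ∀ m : ℕ, (P * P) ^ m = fromBlocks ((β * γ) ^ m) 0 0 ((γ * β) ^ m) := by
    intro m
    induction m with
    | zero => rw [pow_zero, pow_zero, pow_zero, fromBlocks_one]
    | succ m ih =>
      rw [pow_succ, ih, hP, fromBlocks_multiply, fromBlocks_multiply, pow_succ, pow_succ]
      simp
  have hscal : P ^ ν ∈ Set.range (Matrix.scalar (Fin d ⊕ Fin e) (α := R)) := by
    rw [Matrix.mem_range_scalar_iff_commute_single']
    intro i j
    exact (first_comm f hd he ν h A A' b c i j).symm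
  obtain ⟨z, hz⟩ := hscal
  obtain ⟨m, hm⟩ := hν
  have hz0 : z = 0 := by
    have h1 : P ^ ν = fromBlocks ((β * γ) ^ m) 0 0 ((γ * β) ^ m) * P := by
      rw [hm, pow_succ, pow_mul, pow_two, hsq]
    rw [hP, fromBlocks_multiply] at h1
    have h2 := congrFun (congrFun (hz.trans h1) (Sum.inl ⟨0, hd0⟩)) (Sum.inl ⟨0, hd0⟩)
    rw [Matrix.scalar_apply, Matrix.diagonal_apply_eq, fromBlocks_apply₁₁] at h2
    simpa using h2
  have hPν : P ^ ν = 0 := by rw [← hz, hz0, map_zero]
  have h3 : (P * P) ^ ν = 0 := by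
    rw [← pow_two, ← pow_mul, mul_comm, pow_mul, hPν, zero_pow two_ne_zero]
  rw [hsq] at h3
  have h4 : (β * γ) ^ ν = 0 := by
    have := congrArg toBlocks₁₁ h3
    rw [toBlocks_fromBlocks₁₁] at this
    rw [this]; rfl
  have h5 : IsNilpotent (β * γ) := ⟨ν, h4⟩
  exact (Matrix.isNilpotent_trace_of_isNilpotent h5).eq_zero

end Second

end Pool.Agent.TH82.NC
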