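import Mathlib
import Pool.Agent.TH82.NC.Nil

/-!
One of the two off-diagonal blocks vanishes identically.
-/

set_option autoImplicit false

namespace Pool.Agent.TH82.NC

open Matrix Polynomial Pool.Agent.H552R3.PC
open scoped Kronecker

section Index

variable {d e : ℕ} [NeZero d] [NeZero e]

/-- The simultaneous cyclic shift. -/
def spm (d e : ℕ) [NeZero d] [NeZero e] : Equiv.Perm (Fin d × Fin e) :=
  Equiv.prodCongr (Equiv.addRight 1) (Equiv.addRight 1)

theorem spm_apply (x : Fin d × Fin e) : spm d e x = (x.1 + 1, x.2 + 1) := rfl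

theorem spm_pow (m : ℕ) (x : Fin d × Fin e) :
    (spm d e ^ m) x = (x.1 + m • (1 : Fin d), x.2 + m • (1 : Fin e)) := by
  induction m with
  | zero => simp
  | succ m ih =>
    rw [pow_succ', Equiv.Perm.mul_apply, ih, spm_apply, succ_nsmul, succ_nsmul, add_assoc,
      add_assoc]

/-- The exponent with prescribed residues. -/
def crt (hco : Nat.Coprime d e) (x : Fin d) (y : Fin e) : ℕ :=
  (Nat.chineseRemainder hco (x : ℕ) (y : ℕ) : ℕ)

theorem crt_left (hco : Nat.Coprime d e) (x : Fin d) (y : Fin e) :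
    crt hco x y • (1 : Fin d) = x := by
  apply Fin.ext
  rw [nsmul_one_val]
  have h := (Nat.chineseRemainder hco (x : ℕ) (y : ℕ)).2.1
  rw [Nat.ModEq] at h
  rw [crt, h, Nat.mod_eq_of_lt x.isLt]

theorem crt_right (hco : Nat.Coprime d e) (x : Fin d) (y : Fin e) :
    crt hco x y • (1 : Fin e) = y := by
  apply Fin.ext
  rw [nsmul_one_val]
  have h := (Nat.chineseRemainder hco (x : ℕ) (y : ℕ)).2.2
  rw [Nat.ModEq] at h
  rw [crt, h, Nat.mod_eq_of_lt y.isLt]

theorem spm_crt (hco : Nat.Coprime d e) (x y : Fin d × Fin e) :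
    (spm d e ^ crt hco (y.1 - x.1) (y.2 - x.2)) x = y := by
  rw [spm_pow, crt_left, crt_right]
  ext1 <;> simp

end Index

section Ring

variable {K : Type*} [Field K] {σ : Type*} {d e : ℕ} [NeZero d] [NeZero e]

/-- The coefficient ring. -/
abbrev A0 (K : Type*) [Field K] (σ : Type*) (d e : ℕ) :=
  MvPolynomial (σ × (Fin d × Fin d ⊕ (Fin e × Fin e ⊕ Bool))) K

/-- The shift of the indices. -/
noncomputable def t0 (K : Type*) [Field K] (σ : Type*) (d e : ℕ) [NeZero d] [NeZero e] :
    A0 K σ d e →ₐ[K] A0 K σ d e :=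
  MvPolynomial.rename (Prod.map id (Sum.map (Prod.map (· + 1) (· + 1))
    (Sum.map (Prod.map (· + 1) (· + 1)) id)))

theorem t0_inj : Function.Injective (t0 K σ d e) := by
  apply MvPolynomial.rename_injective
  refine Function.Injective.prodMap Function.injective_id ?_
  refine Function.Injective.sumMap ?_ (Function.Injective.sumMap ?_ Function.injective_id)
  · exact Function.Injective.prodMap (add_left_injective 1) (add_left_injective 1)
  · exact Function.Injective.prodMap (add_left_injective 1) (add_left_injective 1)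

/-- The scaled generic matrices of size `d`. -/
noncomputable def V1 (K : Type*) [Field K] (σ : Type*) {d e : ℕ} [NeZero d] [NeZero e]
    (hco : Nat.Coprime d e) (i : σ) : Matrix (Fin d) (Fin d) (A0 K σ d e)[X] :=
  Matrix.of fun j k => C (MvPolynomial.X (i, Sum.inl (j, k))) * X ^ crt hco (k - j) 0

/-- The scaled generic matrices of size `e`. -/
noncomputable def V2 (K : Type*) [Field K] (σ : Type*) {d e : ℕ} [NeZero d] [NeZero e]
    (hco : Nat.Coprime d e) (i : σ) : Matrix (Fin e) (Fin e) (A0 K σ d e)[X] :=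
  Matrix.of fun j k => C (MvPolynomial.X (i, Sum.inr (Sum.inl (j, k)))) * X ^ crt hco 0 (j - k)

/-- The domain. -/
noncomputable def Dm (K : Type*) [Field K] (σ : Type*) (d e : ℕ) [NeZero d] [NeZero e] :
    Subalgebra K (Matrix (Fin d × Fin e) (Fin d × Fin e) (A0 K σ d e)[X]) :=
  (SP (K := K) (spm d e) (t0 K σ d e)).comap
    ((matPolyEquiv (n := Fin d × Fin e) (R := A0 K σ d e)).toAlgHom.restrictScalars K)

theorem mem_Dm (M : Matrix (Fin d × Fin e) (Fin d × Fin e) (A0 K σ d e)[X]) :
    M ∈ Dm K σ d e ↔ matPolyEquiv M ∈ SP (K := K) (spm d e) (t0 K σ d e) := Iff.rfl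

theorem V1_mem (hco : Nat.Coprime d e) (i : σ) :
    V1 K σ hco i ⊗ₖ (1 : Matrix (Fin e) (Fin e) (A0 K σ d e)[X]) ∈ Dm K σ d e := by
  rw [mem_Dm]
  intro m
  constructor
  · rintro ⟨p, q⟩ ⟨p', q'⟩ h
    rw [matPolyEquiv_coeff_apply, kroneckerMap_apply] at h
    by_cases hq : q = q'
    · subst hq
      rw [Matrix.one_apply_eq, mul_one, V1, Matrix.of_apply, coeff_C_mul, coeff_X_pow] at h
      by_cases hm : m = crt hco (p' - p) 0
      · rw [spm_pow, hm, crt_left, crt_right]
        ext1 <;> simp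
      · rw [if_neg hm, mul_zero] at h; exact absurd rfl h
    · rw [Matrix.one_apply_ne hq, mul_zero, coeff_zero] at h; exact absurd rfl h
  · rintro ⟨p, q⟩ ⟨p', q'⟩
    rw [matPolyEquiv_coeff_apply, matPolyEquiv_coeff_apply, spm_apply, spm_apply,
      kroneckerMap_apply, kroneckerMap_apply]
    by_cases hq : q = q'
    · subst hq
      rw [Matrix.one_apply_eq, Matrix.one_apply_eq, mul_one, mul_one, V1, Matrix.of_apply,
        Matrix.of_apply, coeff_C_mul, coeff_C_mul, coeff_X_pow, coeff_X_pow,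
        add_sub_add_right_eq_sub]
      by_cases hm : m = crt hco (p' - p) 0
      · rw [if_pos hm, mul_one, mul_one]
        simp [t0]
      · rw [if_neg hm, mul_zero, mul_zero, map_zero]
    · rw [Matrix.one_apply_ne hq, Matrix.one_apply_ne (fun h => hq (add_right_cancel h)), mul_zero,
        mul_zero, coeff_zero, map_zero]

theorem V2_mem (hco : Nat.Coprime d e) (i : σ) :
    (1 : Matrix (Fin d) (Fin d) (A0 K σ d e)[X]) ⊗ₖ (V2 K σ hco i)ᵀ ∈ Dm K σ d e := by
  rw [mem_Dm]
  intro m
  constructor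
  · rintro ⟨p, q⟩ ⟨p', q'⟩ h
    rw [matPolyEquiv_coeff_apply, kroneckerMap_apply] at h
    by_cases hp : p = p'
    · subst hp
      rw [Matrix.one_apply_eq, one_mul, Matrix.transpose_apply, V2, Matrix.of_apply, coeff_C_mul,
        coeff_X_pow] at h
      by_cases hm : m = crt hco 0 (q' - q)
      · rw [spm_pow, hm, crt_left, crt_right]
        ext1 <;> simp
      · rw [if_neg hm, mul_zero] at h; exact absurd rfl h
    · rw [Matrix.one_apply_ne hp, zero_mul, coeff_zero] at h; exact absurd rfl h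
  · rintro ⟨p, q⟩ ⟨p', q'⟩
    rw [matPolyEquiv_coeff_apply, matPolyEquiv_coeff_apply, spm_apply, spm_apply,
      kroneckerMap_apply, kroneckerMap_apply]
    by_cases hp : p = p'
    · subst hp
      rw [Matrix.one_apply_eq, Matrix.one_apply_eq, one_mul, one_mul, Matrix.transpose_apply,
        Matrix.transpose_apply, V2, Matrix.of_apply,
        Matrix.of_apply, coeff_C_mul, coeff_C_mul, coeff_X_pow, coeff_X_pow,
        add_sub_add_right_eq_sub]
      by_cases hm : m = crt hco 0 (q' - q)
      · rw [if_pos hm, mul_one, mul_one]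
        simp [t0]
      · rw [if_neg hm, mul_zero, mul_zero, map_zero]
    · rw [Matrix.one_apply_ne hp, Matrix.one_apply_ne (fun h => hp (add_right_cancel h)), zero_mul,
        zero_mul, coeff_zero, map_zero]

theorem smul_mem_Dm (i : σ) (t : Bool) :
    (C (MvPolynomial.X (i, Sum.inr (Sum.inr t))) : (A0 K σ d e)[X]) •
      (1 : Matrix (Fin d × Fin e) (Fin d × Fin e) (A0 K σ d e)[X]) ∈ Dm K σ d e := by
  rw [mem_Dm]
  intro m
  constructor
  · intro x y h
    rw [matPolyEquiv_coeff_apply, Matrix.smul_apply, smul_eq_mul, coeff_C_mul] at h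
    by_cases hxy : x = y
    · subst hxy
      rw [Matrix.one_apply_eq, coeff_one] at h
      by_cases hm : m = 0
      · rw [hm]; rfl
      · rw [if_neg hm, mul_zero] at h; exact absurd rfl h
    · rw [Matrix.one_apply_ne hxy, coeff_zero, mul_zero] at h; exact absurd rfl h
  · intro x y
    rw [matPolyEquiv_coeff_apply, matPolyEquiv_coeff_apply, Matrix.smul_apply, smul_eq_mul,
      coeff_C_mul, Matrix.smul_apply, smul_eq_mul, coeff_C_mul]
    by_cases hxy : x = y
    · subst hxy
      rw [Matrix.one_apply_eq, Matrix.one_apply_eq, coeff_one]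
      by_cases hm : m = 0
      · rw [if_pos hm, mul_one]
        simp [t0]
      · rw [if_neg hm, mul_zero, map_zero]
    · rw [Matrix.one_apply_ne hxy, Matrix.one_apply_ne (fun h => hxy ((spm d e).injective h)),
        coeff_zero, mul_zero, map_zero]

/-- Specialisation. -/
noncomputable def sz (A : σ → Matrix (Fin d) (Fin d) K) (A' : σ → Matrix (Fin e) (Fin e) K)
    (z : σ → Bool → K) : (A0 K σ d e)[X] →ₐ[K] K :=
  (MvPolynomial.aeval (fun p => Sum.elim (fun q => A p.1 q.1 q.2)
    (Sum.elim (fun q => A' p.1 q.1 q.2) (z p.1)) p.2)).comp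
  ((Polynomial.aeval (R := A0 K σ d e) (1 : A0 K σ d e)).restrictScalars K)

theorem sz_V1 (hco : Nat.Coprime d e) (A : σ → Matrix (Fin d) (Fin d) K)
    (A' : σ → Matrix (Fin e) (Fin e) K) (z : σ → Bool → K) (i : σ) :
    (V1 K σ hco i).map (sz A A' z) = A i := by
  ext j k
  simp [V1, sz]

theorem sz_V2 (hco : Nat.Coprime d e) (A : σ → Matrix (Fin d) (Fin d) K)
    (A' : σ → Matrix (Fin e) (Fin e) K) (z : σ → Bool → K) (i : σ) :
    (V2 K σ hco i).map (sz A A' z) = A' i := by
  ext j k
  simp [V2, sz]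

theorem sz_z (A : σ → Matrix (Fin d) (Fin d) K)
    (A' : σ → Matrix (Fin e) (Fin e) K) (z : σ → Bool → K) (i : σ) (t : Bool) :
    sz A A' z (C (MvPolynomial.X (i, Sum.inr (Sum.inr t)))) = z i t := by
  simp [sz]

/-- One of the two off-diagonal blocks vanishes identically. -/
theorem alternative [Infinite K] (hco : Nat.Coprime d e) (f : FreeAlgebra K σ)
    (hd : ∀ Y : σ → Matrix (Fin d) (Fin d) K, FreeAlgebra.lift K Y f = 0)
    (he : ∀ Y : σ → Matrix (Fin e) (Fin e) K, FreeAlgebra.lift K Y f = 0) (ν : ℕ) (hν : Odd ν)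
    (h : ∀ X : σ → Matrix (Fin (d + e)) (Fin (d + e)) K,
      ∀ Z : Matrix (Fin (d + e)) (Fin (d + e)) K,
      FreeAlgebra.lift K X (f ^ ν) * Z = Z * FreeAlgebra.lift K X (f ^ ν)) :
    (∀ (A : σ → Matrix (Fin d) (Fin d) K) (A' : σ → Matrix (Fin e) (Fin e) K)
      (b : σ → Matrix (Fin d) (Fin e) K), up A A' b f = 0) ∨
    (∀ (A : σ → Matrix (Fin d) (Fin d) K) (A' : σ → Matrix (Fin e) (Fin e) K)
      (c : σ → Matrix (Fin e) (Fin d) K), lo A A' c f = 0) := by
  set B := Bop (K := K) (V1 K σ hco) (V2 K σ hco)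
    (fun i => C (MvPolynomial.X (i, Sum.inr (Sum.inr true)))) f with hB
  set G := Gop (K := K) (V1 K σ hco) (V2 K σ hco)
    (fun i => C (MvPolynomial.X (i, Sum.inr (Sum.inr false)))) f with hG
  have hBm : B ∈ Dm K σ d e := Bop_mem _ _ _ (V1_mem hco) (V2_mem hco) _
    (fun i => smul_mem_Dm i true) f
  have hGm : G ∈ Dm K σ d e := Gop_mem _ _ _ (V1_mem hco) (V2_mem hco) _
    (fun i => smul_mem_Dm i false) f
  have hGB : G * B = 0 := Gop_mul_Bop _ _ _ _ f fun b c =>
    trace_up_lo (Nat.pos_of_neZero d) f hd he ν hν h _ _ b c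
  have h1 : matPolyEquiv G * matPolyEquiv B = 0 := by rw [← map_mul, hGB, map_zero]
  have h2 := SP_mul (spm d e) (fun x y => ⟨_, spm_crt hco x y⟩) (t0 K σ d e) t0_inj
    ((mem_Dm G).mp hGm) ((mem_Dm B).mp hBm) h1
  rcases h2 with h3 | h3
  · -- the lower block vanishes
    right
    have hG0 : G = 0 := by
      exact (EmbeddingLike.map_eq_zero_iff
        (f := matPolyEquiv (n := Fin d × Fin e) (R := A0 K σ d e))).mp h3
    intro A A' c
    have hc : c = fun i => ∑ a : Fin e × Fin d, Matrix.single a.1 a.2 (c i a.1 a.2) := by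
      funext i
      rw [Fintype.sum_prod_type]
      exact Matrix.matrix_eq_sum_single (c i)
    rw [hc, lo_sum]
    refine Finset.sum_eq_zero fun a _ => ?_
    have h4 := lo_map (K := K) (V1 K σ hco) (V2 K σ hco) (sz A A' fun i _ => c i a.1 a.2)
      (fun i => Matrix.single a.1 a.2 (C (MvPolynomial.X (i, Sum.inr (Sum.inr false))))) f
    simp only [sz_V1, sz_V2] at h4
    have h5 : (fun i => (Matrix.single a.1 a.2 (C (MvPolynomial.X (i, Sum.inr (Sum.inr false))) :
        (A0 K σ d e)[X])).map (sz A A' fun i _ => c i a.1 a.2)) =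
        fun i => Matrix.single a.1 a.2 (c i a.1 a.2) := by
      funext i
      rw [Matrix.map_single, sz_z]
    rw [h5] at h4
    rw [← h4]
    ext x y
    rw [Matrix.map_apply, Matrix.zero_apply]
    have h6 := congrFun (congrFun hG0 (a.2, a.1)) (y, x)
    rw [hG, Gop, Matrix.of_apply, Matrix.zero_apply] at h6
    rw [h6, map_zero]
  · left
    have hB0 : B = 0 := by
      exact (EmbeddingLike.map_eq_zero_iff
        (f := matPolyEquiv (n := Fin d × Fin e) (R := A0 K σ d e))).mp h3
    intro A A' b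
    have hb : b = fun i => ∑ a : Fin d × Fin e, Matrix.single a.1 a.2 (b i a.1 a.2) := by
      funext i
      rw [Fintype.sum_prod_type]
      exact Matrix.matrix_eq_sum_single (b i)
    rw [hb, up_sum]
    refine Finset.sum_eq_zero fun a _ => ?_
    have h4 := up_map (K := K) (V1 K σ hco) (V2 K σ hco) (sz A A' fun i _ => b i a.1 a.2)
      (fun i => Matrix.single a.1 a.2 (C (MvPolynomial.X (i, Sum.inr (Sum.inr true))))) f
    simp only [sz_V1, sz_V2] at h4
    have h5 : (fun i => (Matrix.single a.1 a.2 (C (MvPolynomial.X (i, Sum.inr (Sum.inr true))) :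
        (A0 K σ d e)[X])).map (sz A A' fun i _ => b i a.1 a.2)) =
        fun i => Matrix.single a.1 a.2 (b i a.1 a.2) := by
      funext i
      rw [Matrix.map_single, sz_z]
    rw [h5] at h4
    rw [← h4]
    ext x y
    rw [Matrix.map_apply, Matrix.zero_apply]
    have h6 := congrFun (congrFun hB0 (x, y)) (a.1, a.2)
    rw [hB, Bop, Matrix.of_apply, Matrix.zero_apply] at h6
    rw [h6, map_zero]

end Ring

end Pool.Agent.TH82.NC
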