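import Mathlib
import Pool.Agent.TH82.NC.Alt

/-!
Vanishing on block triangular matrices over arbitrary commutative algebras.
-/

set_option autoImplicit false

namespace Pool.Agent.TH82.NC

open Matrix Polynomial Pool.Agent.H552R3.PC
open scoped Kronecker

section Ratio

/-- In a domain over an algebraically closed field, elements with equal `n`-th powers differ by a
nonzero constant. -/
theorem root_ratio {L R : Type*} [Field L] [IsAlgClosed L] [CommRing R] [IsDomain R] [Algebra L R]
    {x y : R} {n : ℕ} (hn : 0 < n) (h : x ^ n = y ^ n) : ∃ ε : L, ε ≠ 0 ∧ x = algebraMap L R ε * y := by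
  by_cases hy : y = 0
  · refine ⟨1, one_ne_zero, ?_⟩
    rw [hy, zero_pow hn.ne'] at h
    rw [hy, mul_zero]
    exact pow_eq_zero_iff hn.ne' |>.mp h
  · let F := FractionRing R
    have hinj : Function.Injective (algebraMap R F) := IsFractionRing.injective R F
    have hy' : algebraMap R F y ≠ 0 := fun h0 => hy (hinj (h0.trans (map_zero _).symm))
    set z : F := algebraMap R F x / algebraMap R F y with hz
    have hz1 : z ^ n = 1 := by
      rw [hz, div_pow, ← map_pow, ← map_pow, h, div_self]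
      rw [map_pow]; exact pow_ne_zero _ hy'
    have hint : IsIntegral L z := by
      refine ⟨X ^ n - 1, ?_, ?_⟩
      · exact monic_X_pow_sub_C 1 hn.ne'
      · simp [hz1]
    have : Algebra.IsIntegral L (integralClosure L F) := integralClosure.AlgebraIsIntegral
    obtain ⟨ε, hε⟩ := (IsAlgClosed.algebraMap_bijective_of_isIntegral
      (k := L) (K := integralClosure L F)).2 ⟨z, hint⟩
    have hε' : algebraMap L F ε = z := congrArg Subtype.val hε
    refine ⟨ε, ?_, ?_⟩
    · rintro rfl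
      rw [map_zero] at hε'
      rw [← hε', zero_pow hn.ne'] at hz1
      exact zero_ne_one hz1
    · apply hinj
      rw [map_mul, ← IsScalarTower.algebraMap_apply, hε', hz, div_mul_cancel₀ _ hy']

end Ratio

section Alt

variable {K : Type*} [Field K] {σ : Type*} {d e : ℕ} [NeZero d] [NeZero e]

/-- One of the two generic operators vanishes. -/
theorem alt_gen [Infinite K] (hco : Nat.Coprime d e) (f : FreeAlgebra K σ)
    (hd : ∀ Y : σ → Matrix (Fin d) (Fin d) K, FreeAlgebra.lift K Y f = 0)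
    (he : ∀ Y : σ → Matrix (Fin e) (Fin e) K, FreeAlgebra.lift K Y f = 0) (ν : ℕ) (hν : Odd ν)
    (h : ∀ X : σ → Matrix (Fin (d + e)) (Fin (d + e)) K,
      ∀ Z : Matrix (Fin (d + e)) (Fin (d + e)) K,
      FreeAlgebra.lift K X (f ^ ν) * Z = Z * FreeAlgebra.lift K X (f ^ ν)) :
    Bop (K := K) (V1 K σ hco) (V2 K σ hco)
      (fun i => C (MvPolynomial.X (i, Sum.inr (Sum.inr true)))) f = 0 ∨
    Gop (K := K) (V1 K σ hco) (V2 K σ hco)
      (fun i => C (MvPolynomial.X (i, Sum.inr (Sum.inr false)))) f = 0 := by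
  set B := Bop (K := K) (V1 K σ hco) (V2 K σ hco)
    (fun i => C (MvPolynomial.X (i, Sum.inr (Sum.inr true)))) f with hB
  set G := Gop (K := K) (V1 K σ hco) (V2 K σ hco)
    (fun i => C (MvPolynomial.X (i, Sum.inr (Sum.inr false)))) f with hG
  have hBm : B ∈ Dm K σ d e := Bop_mem _ _ _ (V1_mem hco) (V2_mem hco) _
    (fun i => smul_mem_Dm i true) f
  have hGm : G ∈ Dm K σ d e := Gop_mem _ _ _ (V1_mem hco) (V2_mem hco) _
    (fun i => smul_mem_Dm i false) f
  have hGB : G * B = 0 := Gop_mul_Bop _ _ _ _ f fun b c =>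
    trace_up_lo (Nat.pos_of_neZero d) f hd he ν hν h _ _ b c
  have h1 : matPolyEquiv G * matPolyEquiv B = 0 := by rw [← map_mul, hGB, map_zero]
  have h2 := SP_mul (spm d e) (fun x y => ⟨_, spm_crt hco x y⟩) (t0 K σ d e) t0_inj
    ((mem_Dm G).mp hGm) ((mem_Dm B).mp hBm) h1
  rcases h2 with h3 | h3
  · right
    exact (EmbeddingLike.map_eq_zero_iff
        (f := matPolyEquiv (n := Fin d × Fin e) (R := A0 K σ d e))).mp h3
  · left
    exact (EmbeddingLike.map_eq_zero_iff
        (f := matPolyEquiv (n := Fin d × Fin e) (R := A0 K σ d e))).mp h3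

variable {B : Type*} [CommRing B] [Algebra K B]

/-- Specialisation. -/
noncomputable def szB (A : σ → Matrix (Fin d) (Fin d) B) (A' : σ → Matrix (Fin e) (Fin e) B)
    (z : σ → Bool → B) : (A0 K σ d e)[X] →ₐ[K] B :=
  (MvPolynomial.aeval (fun p => Sum.elim (fun q => A p.1 q.1 q.2)
    (Sum.elim (fun q => A' p.1 q.1 q.2) (z p.1)) p.2)).comp
  ((Polynomial.aeval (R := A0 K σ d e) (1 : A0 K σ d e)).restrictScalars K)

theorem szB_V1 (hco : Nat.Coprime d e) (A : σ → Matrix (Fin d) (Fin d) B)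
    (A' : σ → Matrix (Fin e) (Fin e) B) (z : σ → Bool → B) (i : σ) :
    (V1 K σ hco i).map (szB A A' z) = A i := by
  ext j k
  simp [V1, szB]

theorem szB_V2 (hco : Nat.Coprime d e) (A : σ → Matrix (Fin d) (Fin d) B)
    (A' : σ → Matrix (Fin e) (Fin e) B) (z : σ → Bool → B) (i : σ) :
    (V2 K σ hco i).map (szB A A' z) = A' i := by
  ext j k
  simp [V2, szB]

theorem szB_z (A : σ → Matrix (Fin d) (Fin d) B)
    (A' : σ → Matrix (Fin e) (Fin e) B) (z : σ → Bool → B) (i : σ) (t : Bool) :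
    szB (K := K) A A' z (C (MvPolynomial.X (i, Sum.inr (Sum.inr t)))) = z i t := by
  simp [szB]

theorem up_of_gen (hco : Nat.Coprime d e) (f : FreeAlgebra K σ)
    (hB0 : Bop (K := K) (V1 K σ hco) (V2 K σ hco)
      (fun i => C (MvPolynomial.X (i, Sum.inr (Sum.inr true)))) f = 0)
    (A : σ → Matrix (Fin d) (Fin d) B) (A' : σ → Matrix (Fin e) (Fin e) B)
    (b : σ → Matrix (Fin d) (Fin e) B) : up A A' b f = 0 := by
  have hb : b = fun i => ∑ a : Fin d × Fin e, Matrix.single a.1 a.2 (b i a.1 a.2) := by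
    funext i
    rw [Fintype.sum_prod_type]
    exact Matrix.matrix_eq_sum_single (b i)
  rw [hb, up_sum]
  refine Finset.sum_eq_zero fun a _ => ?_
  have h4 := up_map (K := K) (V1 K σ hco) (V2 K σ hco) (szB A A' fun i _ => b i a.1 a.2)
    (fun i => Matrix.single a.1 a.2 (C (MvPolynomial.X (i, Sum.inr (Sum.inr true))))) f
  simp only [szB_V1, szB_V2] at h4
  have h5 : (fun i => (Matrix.single a.1 a.2 (C (MvPolynomial.X (i, Sum.inr (Sum.inr true))) :
      (A0 K σ d e)[X])).map (szB A A' fun i _ => b i a.1 a.2)) =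
      fun i => Matrix.single a.1 a.2 (b i a.1 a.2) := by
    funext i
    rw [Matrix.map_single, szB_z]
  rw [h5] at h4
  rw [← h4]
  ext x y
  rw [Matrix.map_apply, Matrix.zero_apply]
  have h6 := congrFun (congrFun hB0 (x, y)) (a.1, a.2)
  rw [Bop, Matrix.of_apply, Matrix.zero_apply] at h6
  rw [h6, map_zero]

theorem lo_of_gen (hco : Nat.Coprime d e) (f : FreeAlgebra K σ)
    (hG0 : Gop (K := K) (V1 K σ hco) (V2 K σ hco)
      (fun i => C (MvPolynomial.X (i, Sum.inr (Sum.inr false)))) f = 0)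
    (A : σ → Matrix (Fin d) (Fin d) B) (A' : σ → Matrix (Fin e) (Fin e) B)
    (c : σ → Matrix (Fin e) (Fin d) B) : lo A A' c f = 0 := by
  have hc : c = fun i => ∑ a : Fin e × Fin d, Matrix.single a.1 a.2 (c i a.1 a.2) := by
    funext i
    rw [Fintype.sum_prod_type]
    exact Matrix.matrix_eq_sum_single (c i)
  rw [hc, lo_sum]
  refine Finset.sum_eq_zero fun a _ => ?_
  have h4 := lo_map (K := K) (V1 K σ hco) (V2 K σ hco) (szB A A' fun i _ => c i a.1 a.2)
    (fun i => Matrix.single a.1 a.2 (C (MvPolynomial.X (i, Sum.inr (Sum.inr false))))) f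
  simp only [szB_V1, szB_V2] at h4
  have h5 : (fun i => (Matrix.single a.1 a.2 (C (MvPolynomial.X (i, Sum.inr (Sum.inr false))) :
      (A0 K σ d e)[X])).map (szB A A' fun i _ => c i a.1 a.2)) =
      fun i => Matrix.single a.1 a.2 (c i a.1 a.2) := by
    funext i
    rw [Matrix.map_single, szB_z]
  rw [h5] at h4
  rw [← h4]
  ext x y
  rw [Matrix.map_apply, Matrix.zero_apply]
  have h6 := congrFun (congrFun hG0 (a.2, a.1)) (y, x)
  rw [Gop, Matrix.of_apply, Matrix.zero_apply] at h6
  rw [h6, map_zero]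

end Alt

section Van

variable {K : Type*} [Field K] {σ : Type*} {B : Type*} [CommRing B] [Algebra K B] {n : ℕ}

/-- `f` vanishes on the matrices over `B` without entries from outside `D` into `D`, for all `D`
with `d` elements. -/
def Van (B : Type*) [CommRing B] [Algebra K B] (n : ℕ) (f : FreeAlgebra K σ) (d : ℕ) : Prop :=
  ∀ D : Finset (Fin n), D.card = d → ∀ X : σ → Matrix (Fin n) (Fin n) B,
    (∀ i a b, a ∉ D → b ∈ D → X i a b = 0) → FreeAlgebra.lift K X f = 0

theorem van_alt [Infinite K] (f : FreeAlgebra K σ)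
    (hvan : ∀ m < n, ∀ Y : σ → Matrix (Fin m) (Fin m) K, FreeAlgebra.lift K Y f = 0)
    (ν : ℕ) (hν : Odd ν)
    (h : ∀ X : σ → Matrix (Fin n) (Fin n) K, ∀ Z : Matrix (Fin n) (Fin n) K,
      FreeAlgebra.lift K X (f ^ ν) * Z = Z * FreeAlgebra.lift K X (f ^ ν))
    {d e : ℕ} (hde : d + e = n) (hd : 0 < d) (he : 0 < e) (hco : Nat.Coprime d e) :
    Van B n f d ∨ Van B n f e := by
  have : NeZero d := ⟨hd.ne'⟩
  have : NeZero e := ⟨he.ne'⟩
  subst hde
  have hvd : ∀ Y : σ → Matrix (Fin d) (Fin d) B, FreeAlgebra.lift K Y f = 0 :=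
    transfer f (hvan d (by omega))
  have hve : ∀ Y : σ → Matrix (Fin e) (Fin e) B, FreeAlgebra.lift K Y f = 0 :=
    transfer f (hvan e (by omega))
  rcases alt_gen hco f (hvan d (by omega)) (hvan e (by omega)) ν hν h with hg | hg
  · left
    intro D hD X hX
    have hDc : Dᶜ.card = e := by rw [Finset.card_compl, hD, Fintype.card_fin]; omega
    set E := finSumEquivOfFinset hD hDc with hE
    have hl : ∀ i, E (Sum.inl i) ∈ D := fun i => by
      rw [hE, finSumEquivOfFinset_inl]; exact Finset.orderEmbOfFin_mem _ _ _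
    have hr : ∀ i, E (Sum.inr i) ∉ D := fun i => by
      rw [hE, finSumEquivOfFinset_inr]
      exact Finset.mem_compl.mp (Finset.orderEmbOfFin_mem _ _ _)
    let Φ := Matrix.reindexAlgEquiv K B E.symm
    have h1 : (fun i => Φ (X i)) = fun i => fromBlocks ((Φ (X i)).toBlocks₁₁)
        ((Φ (X i)).toBlocks₁₂) 0 ((Φ (X i)).toBlocks₂₂) := by
      funext i
      conv_lhs => rw [← fromBlocks_toBlocks (Φ (X i))]
      congr 1
      ext a b
      exact hX i _ _ (hr a) (hl b)
    have h2 := lift_map Φ.toAlgHom X f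
    have h3 : FreeAlgebra.lift K (fun i => Φ (X i)) f = 0 := by
      rw [h1, lift_up, up_of_gen hco f hg, hvd, hve, fromBlocks_zero]
    exact (EmbeddingLike.map_eq_zero_iff (f := Φ)).mp (h2.trans h3)
  · right
    intro D hD X hX
    have hDc : Dᶜ.card = d := by rw [Finset.card_compl, hD, Fintype.card_fin]; omega
    have hD' : Dᶜᶜ.card = e := by rw [compl_compl, hD]
    set E := finSumEquivOfFinset hDc hD' with hE
    have hl : ∀ i, E (Sum.inl i) ∉ D := fun i => by
      rw [hE, finSumEquivOfFinset_inl]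
      exact Finset.mem_compl.mp (Finset.orderEmbOfFin_mem _ _ _)
    have hr : ∀ i, E (Sum.inr i) ∈ D := fun i => by
      rw [hE, finSumEquivOfFinset_inr]
      have h9 := Finset.orderEmbOfFin_mem Dᶜᶜ hD' i
      by_contra hcon
      exact (Finset.mem_compl.mp h9) (Finset.mem_compl.mpr hcon)
    let Φ := Matrix.reindexAlgEquiv K B E.symm
    have h1 : (fun i => Φ (X i)) = fun i => fromBlocks ((Φ (X i)).toBlocks₁₁) 0
        ((Φ (X i)).toBlocks₂₁) ((Φ (X i)).toBlocks₂₂) := by
      funext i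
      conv_lhs => rw [← fromBlocks_toBlocks (Φ (X i))]
      congr 1
      ext a b
      exact hX i _ _ (hl a) (hr b)
    have h2 := lift_map Φ.toAlgHom X f
    have h3 : FreeAlgebra.lift K (fun i => Φ (X i)) f = 0 := by
      rw [h1, lift_lo, lo_of_gen hco f hg, hvd, hve, fromBlocks_zero]
    exact (EmbeddingLike.map_eq_zero_iff (f := Φ)).mp (h2.trans h3)

end Van

end Pool.Agent.TH82.NC
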