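import Mathlib
import Pool.Agent.TH82.NC.Van

/-!
Generic matrices, diagonal for the variables in a set `J`; the flow condition for the monomials
occurring in the values.
-/

set_option autoImplicit false

namespace Pool.Agent.TH82.NC

open Matrix Pool.Agent.H552R3.PC

section Kill

variable {α : Type*} {A : Type*} [CommRing A]

open Classical in
/-- Setting the variables outside `S` to zero. -/
noncomputable def kl (A : Type*) [CommRing A] {α : Type*} (S : Set α) :
    MvPolynomial α A →ₐ[A] MvPolynomial α A :=
  MvPolynomial.aeval fun e => if e ∈ S then MvPolynomial.X e else 0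

theorem coeff_kl (S : Set α) (m : α →₀ ℕ) (hm : ∀ e, m e ≠ 0 → e ∈ S) (g : MvPolynomial α A) :
    MvPolynomial.coeff m (kl A S g) = MvPolynomial.coeff m g := by
  classical
  induction g using MvPolynomial.induction_on' with
  | monomial s a =>
    rw [kl, MvPolynomial.aeval_monomial, MvPolynomial.algebraMap_eq]
    by_cases hs : ∀ e, s e ≠ 0 → e ∈ S
    · have : (s.prod fun i k => (if i ∈ S then (MvPolynomial.X i : MvPolynomial α A) else 0) ^ k) =
          s.prod fun i k => (MvPolynomial.X i : MvPolynomial α A) ^ k := by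
        refine Finset.prod_congr rfl fun e he => ?_
        simp only [if_pos (hs e (Finsupp.mem_support_iff.mp he))]
      rw [this, ← MvPolynomial.monomial_eq]
    · push Not at hs
      obtain ⟨e, he, heS⟩ := hs
      have : (s.prod fun i k => (if i ∈ S then (MvPolynomial.X i : MvPolynomial α A) else 0) ^ k)
          = 0 := by
        refine Finset.prod_eq_zero (Finsupp.mem_support_iff.mpr he) ?_
        simp only [if_neg heS]
        exact zero_pow he
      rw [this, mul_zero, MvPolynomial.coeff_zero, MvPolynomial.coeff_monomial, if_neg]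
      rintro rfl
      exact heS (hm e he)
  | add p q hp hq => rw [map_add, MvPolynomial.coeff_add, MvPolynomial.coeff_add, hp, hq]

theorem coeff_kl_ne (S : Set α) (m : α →₀ ℕ) (g : MvPolynomial α A)
    (h : MvPolynomial.coeff m (kl A S g) ≠ 0) :
    (∀ e, m e ≠ 0 → e ∈ S) ∧ MvPolynomial.coeff m g ≠ 0 := by
  classical
  have h1 : ∀ e, m e ≠ 0 → e ∈ S := by
    induction g using MvPolynomial.induction_on' with
    | monomial s a =>
      rw [kl, MvPolynomial.aeval_monomial, MvPolynomial.algebraMap_eq] at h
      by_cases hs : ∀ e, s e ≠ 0 → e ∈ S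
      · have : (s.prod fun i k => (if i ∈ S then (MvPolynomial.X i : MvPolynomial α A) else 0) ^ k)
            = s.prod fun i k => (MvPolynomial.X i : MvPolynomial α A) ^ k := by
          refine Finset.prod_congr rfl fun e he => ?_
          simp only [if_pos (hs e (Finsupp.mem_support_iff.mp he))]
        rw [this, ← MvPolynomial.monomial_eq, MvPolynomial.coeff_monomial] at h
        have h2 : s = m := by
          by_contra hcon
          rw [if_neg hcon] at h
          exact h rfl
        rw [← h2]; exact hs
      · push Not at hs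
        obtain ⟨e, he, heS⟩ := hs
        have : (s.prod fun i k => (if i ∈ S then (MvPolynomial.X i : MvPolynomial α A) else 0) ^ k)
            = 0 := by
          refine Finset.prod_eq_zero (Finsupp.mem_support_iff.mpr he) ?_
          simp only [if_neg heS]
          exact zero_pow he
        rw [this, mul_zero, MvPolynomial.coeff_zero] at h
        exact absurd rfl h
    | add p q hp hq =>
      rw [map_add, MvPolynomial.coeff_add] at h
      by_cases h0 : MvPolynomial.coeff m (kl A S p) = 0
      · rw [h0, zero_add] at h; exact hq h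
      · exact hp h0
  exact ⟨h1, by rw [← coeff_kl S m h1]; exact h⟩

end Kill

section Gen

variable {K L : Type*} [Field K] [Field L] [Algebra K L] {σ : Type*} {n : ℕ}

/-- The ring of parameters. -/
abbrev TB (L : Type*) [Field L] (σ : Type*) (n : ℕ) :=
  MvPolynomial (σ × (Fin n ⊕ Fin n × Fin n)) L

/-- The ring with a variable for each arc. -/
abbrev RB (L : Type*) [Field L] (σ : Type*) (n : ℕ) := MvPolynomial (Fin n × Fin n) (TB L σ n)

open Classical in
/-- Generic matrices, diagonal for the variables in `J`. -/
noncomputable def gx (L : Type*) [Field L] {σ : Type*} (n : ℕ) (J : Set σ) (i : σ) :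
    Matrix (Fin n) (Fin n) (RB L σ n) :=
  if i ∈ J then Matrix.diagonal fun v => MvPolynomial.C (MvPolynomial.X (i, Sum.inl v))
  else Matrix.of fun a b => MvPolynomial.X (a, b) * MvPolynomial.C (MvPolynomial.X (i, Sum.inr (a, b)))

/-- The values at the generic matrices. -/
noncomputable def PJ (L : Type*) [Field L] [Algebra K L] (n : ℕ) (J : Set σ) (f : FreeAlgebra K σ) :
    Matrix (Fin n) (Fin n) (RB L σ n) :=
  FreeAlgebra.lift K (gx L n J) f

/-- Number of arcs leaving `v`. -/
def ou (m : Fin n × Fin n →₀ ℕ) (v : Fin n) : ℕ := ∑ b, m (v, b)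

/-- Number of arcs entering `v`. -/
def inn (m : Fin n × Fin n →₀ ℕ) (v : Fin n) : ℕ := ∑ a, m (a, v)

theorem ou_add (m m' : Fin n × Fin n →₀ ℕ) (v : Fin n) : ou (m + m') v = ou m v + ou m' v := by
  simp [ou, Finset.sum_add_distrib]

theorem inn_add (m m' : Fin n × Fin n →₀ ℕ) (v : Fin n) : inn (m + m') v = inn m v + inn m' v := by
  simp [inn, Finset.sum_add_distrib]

/-- The flow condition. -/
def Flow (m : Fin n × Fin n →₀ ℕ) (u w : Fin n) : Prop :=
  ∀ v, ou m v + (if w = v then 1 else 0) = inn m v + (if u = v then 1 else 0)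

theorem Flow.add {m m' : Fin n × Fin n →₀ ℕ} {u c w : Fin n} (h : Flow m u c) (h' : Flow m' c w) :
    Flow (m + m') u w := by
  intro v
  have h1 := h v
  have h2 := h' v
  rw [ou_add, inn_add]
  omega

theorem degree_eq_inn (m : Fin n × Fin n →₀ ℕ) : m.degree = ∑ v, inn m v := by
  rw [Finsupp.degree_eq_sum, Fintype.sum_prod_type_right]
  rfl

/-- Matrices whose entries satisfy the flow condition. -/
def flowAlg (K L : Type*) [Field K] [Field L] [Algebra K L] (σ : Type*) (n : ℕ) :
    Subalgebra K (Matrix (Fin n) (Fin n) (RB L σ n)) where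
  carrier := {M | ∀ u w m, MvPolynomial.coeff m (M u w) ≠ 0 → Flow m u w}
  mul_mem' := by
    classical
    intro M M' h h' u w m hm
    rw [mul_apply, MvPolynomial.coeff_sum] at hm
    obtain ⟨c, -, hc⟩ := Finset.exists_ne_zero_of_sum_ne_zero hm
    rw [MvPolynomial.coeff_mul] at hc
    obtain ⟨⟨x, y⟩, hxy, hne⟩ := Finset.exists_ne_zero_of_sum_ne_zero hc
    rw [← Finset.HasAntidiagonal.mem_antidiagonal.mp hxy]
    exact (h u c x (left_ne_zero_of_mul hne)).add (h' c w y (right_ne_zero_of_mul hne))
  add_mem' := by
    intro M M' h h' u w m hm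
    rw [Matrix.add_apply, MvPolynomial.coeff_add] at hm
    by_cases h0 : MvPolynomial.coeff m (M u w) = 0
    · rw [h0, zero_add] at hm; exact h' u w m hm
    · exact h u w m h0
  algebraMap_mem' := by
    classical
    intro c u w m hm
    rw [algebraMap_matrix_apply] at hm
    by_cases huw : u = w
    · subst huw
      rw [if_pos rfl] at hm
      have : (algebraMap K (RB L σ n)) c = MvPolynomial.C (algebraMap K (TB L σ n) c) := rfl
      rw [this, MvPolynomial.coeff_C] at hm
      have h0 : 0 = m := by
        by_contra hcon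
        rw [if_neg hcon] at hm
        exact hm rfl
      rw [← h0]
      intro v
      simp [ou, inn]
    · rw [if_neg huw, MvPolynomial.coeff_zero] at hm
      exact absurd rfl hm

theorem flow_C (g : TB L σ n) (u : Fin n) (m : Fin n × Fin n →₀ ℕ)
    (hm : MvPolynomial.coeff m (MvPolynomial.C g : RB L σ n) ≠ 0) : Flow m u u := by
  classical
  rw [MvPolynomial.coeff_C] at hm
  have h0 : 0 = m := by
    by_contra hcon
    rw [if_neg hcon] at hm
    exact hm rfl
  rw [← h0]
  intro v
  simp [ou, inn]

theorem flow_X (g : TB L σ n) (u w : Fin n) (m : Fin n × Fin n →₀ ℕ)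
    (hm : MvPolynomial.coeff m (MvPolynomial.X (u, w) * MvPolynomial.C g : RB L σ n) ≠ 0) :
    Flow m u w := by
  classical
  rw [mul_comm, MvPolynomial.coeff_C_mul, MvPolynomial.coeff_X] at hm
  have h0 : Finsupp.single (u, w) 1 = m := by
    by_contra hcon
    rw [if_neg hcon, mul_zero] at hm
    exact hm rfl
  rw [← h0]
  intro v
  simp only [ou, inn, Finsupp.single_apply, Prod.mk.injEq]
  by_cases h1 : u = v <;> by_cases h2 : w = v <;> simp [h1, h2]

theorem PJ_flow (J : Set σ) (f : FreeAlgebra K σ) (u w : Fin n) (m : Fin n × Fin n →₀ ℕ)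
    (hm : MvPolynomial.coeff m (PJ L n J f u w) ≠ 0) : Flow m u w := by
  have : PJ L n J f ∈ flowAlg K L σ n := by
    refine lift_mem _ _ (fun i => ?_) f
    intro u w m hm
    unfold gx at hm
    by_cases hi : i ∈ J
    · rw [if_pos hi] at hm
      by_cases huw : u = w
      · subst huw
        rw [Matrix.diagonal_apply_eq] at hm
        exact flow_C _ u m hm
      · rw [Matrix.diagonal_apply_ne _ huw, MvPolynomial.coeff_zero] at hm
        exact absurd rfl hm
    · rw [if_neg hi] at hm
      exact flow_X _ u w m hm
  exact this u w m hm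

end Gen

end Pool.Agent.TH82.NC
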