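import Mathlib
import Pool.Agent.TH82.NC.Gx

/-!
The monomials of degree at most `n` in the values at the generic matrices.
-/

set_option autoImplicit false

namespace Pool.Agent.TH82.NC

open Matrix Pool.Agent.H552R3.PC

section Comb

variable {n : ℕ}

/-- The monomial with one arc into each vertex. -/
noncomputable def mon (φ : Fin n → Fin n) : Fin n × Fin n →₀ ℕ :=
  Finsupp.equivFunOnFinite.symm fun e => if e.1 = φ e.2 then 1 else 0

theorem mon_apply (φ : Fin n → Fin n) (a b : Fin n) : mon φ (a, b) = if a = φ b then 1 else 0 := rfl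

theorem mon_ne (φ : Fin n → Fin n) (e : Fin n × Fin n) : mon φ e ≠ 0 ↔ e.1 = φ e.2 := by
  obtain ⟨a, b⟩ := e
  rw [mon_apply]
  simp

theorem inn_mon (φ : Fin n → Fin n) (v : Fin n) : inn (mon φ) v = 1 := by
  simp [inn, mon_apply]

theorem degree_mon (φ : Fin n → Fin n) : (mon φ).degree = n := by
  rw [degree_eq_inn]
  simp [inn_mon]

/-- The standard functional graph: a cycle `p, …, n - 1` with the tail `0, …, p`. -/
def fg (p : Fin n) (i : Fin n) : Fin n := if h : (i : ℕ) + 1 < n then ⟨i + 1, h⟩ else p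

theorem fg_lt {p i : Fin n} (h : (i : ℕ) + 1 < n) : ((fg p i : Fin n) : ℕ) = i + 1 := by
  simp [fg, h]

theorem fg_ge {p i : Fin n} (h : ¬ (i : ℕ) + 1 < n) : fg p i = p := by
  simp [fg, h]

/-- The non-loop arcs of a monomial. -/
def rel (m : Fin n × Fin n →₀ ℕ) (a b : Fin n) : Prop := a ≠ b ∧ m (a, b) ≠ 0

theorem two_le_ou {φ : Fin n → Fin n} {x b b' : Fin n} (hb : φ b = x) (hb' : φ b' = x)
    (h : b ≠ b') : 2 ≤ ou (mon φ) x := by
  classical
  have h1 : ∑ y ∈ ({b, b'} : Finset (Fin n)), mon φ (x, y) ≤ ou (mon φ) x :=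
    Finset.sum_le_sum_of_subset (Finset.subset_univ _)
  rw [Finset.sum_pair h, mon_apply, mon_apply, if_pos hb.symm, if_pos hb'.symm] at h1
  exact h1

theorem one_le_ou {φ : Fin n → Fin n} {x b : Fin n} (hb : φ b = x) : 1 ≤ ou (mon φ) x := by
  classical
  have h1 : ∑ y ∈ ({b} : Finset (Fin n)), mon φ (x, y) ≤ ou (mon φ) x :=
    Finset.sum_le_sum_of_subset (Finset.subset_univ _)
  rw [Finset.sum_singleton, mon_apply, if_pos hb.symm] at h1
  exact h1

theorem iter_lt {φ : Fin n → Fin n} {w : Fin n} (hw : ∀ v, ∃ k, φ^[k] w = v) (v : Fin n) :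
    ∃ k < n, φ^[k] w = v := by
  classical
  refine ⟨Nat.find (hw v), ?_, Nat.find_spec (hw v)⟩
  by_contra hcon
  set k := Nat.find (hw v) with hk
  have hcard : Fintype.card (Fin n) < Fintype.card (Fin (k + 1)) := by
    rw [Fintype.card_fin, Fintype.card_fin]; omega
  obtain ⟨i, j, hij, he⟩ := Fintype.exists_ne_map_eq_of_card_lt
    (fun i : Fin (k + 1) => φ^[(i : ℕ)] w) hcard
  have key : ∀ i j : ℕ, i < j → j ≤ k → φ^[i] w = φ^[j] w → False := by
    intro i j hij hj he
    have h1 : φ^[(k - j) + i] w = v := by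
      rw [Function.iterate_add_apply, he, ← Function.iterate_add_apply, Nat.sub_add_cancel hj]
      exact Nat.find_spec (hw v)
    exact Nat.find_min (hw v) (show (k - j) + i < Nat.find (hw v) by omega) h1
  have hne : (i : ℕ) ≠ j := fun h => hij (Fin.ext h)
  rcases Nat.lt_or_gt_of_ne hne with h | h
  · exact key i j h (by omega) he
  · exact key j i h (by omega) he.symm

/-- Classification of the monomials. -/
theorem classify [NeZero n] (φ : Fin n → Fin n) (hφ : ∀ v, φ v ≠ v) (u w : Fin n)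
    (hw : ∀ v, ∃ k, φ^[k] w = v) (hflow : Flow (mon φ) u w) :
    ∃ (π : Equiv.Perm (Fin n)) (p : Fin n), (p : ℕ) + 1 < n ∧ π 0 = w ∧ π p = u ∧
      (∀ j : Fin n, π j = φ^[(j : ℕ)] w) ∧ ∀ i, φ (π i) = π (fg p i) := by
  have hn : 0 < n := Nat.pos_of_neZero n
  have hsurj : Function.Surjective (fun i : Fin n => φ^[(i : ℕ)] w) := by
    intro v
    obtain ⟨k, hk, hv⟩ := iter_lt hw v
    exact ⟨⟨k, hk⟩, hv⟩
  let π : Equiv.Perm (Fin n) := Equiv.ofBijective _ (Finite.surjective_iff_bijective.mp hsurj)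
  have hπ : ∀ j : Fin n, π j = φ^[(j : ℕ)] w := fun j => rfl
  obtain ⟨p, hp⟩ := hsurj (φ^[n] w)
  have hp' : π p = φ^[n] w := hp
  have hstep : ∀ i, φ (π i) = π (fg p i) := by
    intro i
    rw [hπ, ← Function.iterate_succ_apply' φ]
    by_cases h : (i : ℕ) + 1 < n
    · rw [hπ, fg_lt h]
    · rw [fg_ge h, hp']
      have : (i : ℕ).succ = n := by have := i.isLt; omega
      rw [this]
  have hlast : n - 1 < n := by omega
  have hl : φ (π ⟨n - 1, hlast⟩) = π p := by
    rw [hstep, fg_ge]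
    show ¬ (n - 1 + 1 < n)
    omega
  have hp1 : (p : ℕ) + 1 < n := by
    by_contra hcon
    have : p = ⟨n - 1, hlast⟩ := Fin.ext (by have := p.isLt; show (p : ℕ) = n - 1; omega)
    rw [← this] at hl
    exact hφ _ hl
  have hπ0 : π 0 = w := by rw [hπ]; rfl
  refine ⟨π, p, hp1, hπ0, ?_, hπ, hstep⟩
  have hf := hflow (π p)
  rw [inn_mon] at hf
  have h2 : 2 ≤ ou (mon φ) (π p) + (if w = π p then 1 else 0) := by
    by_cases hp0 : (p : ℕ) = 0
    · have : p = 0 := Fin.ext hp0
      have h3 : w = π p := by rw [this, hπ0]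
      rw [if_pos h3]
      have := one_le_ou hl
      omega
    · have hq : (p : ℕ) - 1 < n := by omega
      have h3 : φ (π ⟨(p : ℕ) - 1, hq⟩) = π p := by
        rw [hstep]
        congr 1
        apply Fin.ext
        rw [fg_lt (show ((p : ℕ) - 1) + 1 < n by omega)]
        show (p : ℕ) - 1 + 1 = p
        omega
      have := two_le_ou h3 hl (by
        intro e
        have := congrArg Fin.val (π.injective e)
        simp only at this
        omega)
      omega
  by_contra hne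
  rw [if_neg (show ¬ (u = π p) from fun e => hne e.symm)] at hf
  omega

/-- A monomial with exactly one arc into each vertex, no loops. -/
theorem exists_mon (m : Fin n × Fin n →₀ ℕ) (h : ∀ v, ∃ a, a ≠ v ∧ m (a, v) ≠ 0)
    (hd : m.degree ≤ n) : ∃ φ : Fin n → Fin n, (∀ v, φ v ≠ v) ∧ m = mon φ := by
  classical
  choose φ hφ using h
  have h1 : ∀ v, 1 ≤ inn m v := by
    intro v
    have : m (φ v, v) ≤ inn m v := Finset.single_le_sum (f := fun a => m (a, v))
      (fun a _ => Nat.zero_le _) (Finset.mem_univ _)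
    have := (hφ v).2
    omega
  have h2 : ∀ v, inn m v = 1 := by
    intro v
    by_contra hcon
    have h3 : ∑ v : Fin n, 1 < ∑ v, inn m v := Finset.sum_lt_sum (fun v _ => h1 v)
      ⟨v, Finset.mem_univ _, by have := h1 v; omega⟩
    rw [← degree_eq_inn] at h3
    simp at h3
    omega
  refine ⟨φ, fun v => (hφ v).1, ?_⟩
  ext ⟨a, b⟩
  rw [mon_apply]
  have h4 : m (φ b, b) + ∑ a ∈ Finset.univ.erase (φ b), m (a, b) = 1 := by
    rw [← h2 b, inn, Finset.add_sum_erase _ (fun a => m (a, b)) (Finset.mem_univ _)]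
  have h5 := (hφ b).2
  by_cases hab : a = φ b
  · rw [if_pos hab, hab]; omega
  · rw [if_neg hab]
    have h6 : ∑ a ∈ Finset.univ.erase (φ b), m (a, b) = 0 := by omega
    exact (Finset.sum_eq_zero_iff.mp h6) a (Finset.mem_erase.mpr ⟨hab, Finset.mem_univ _⟩)

end Comb

section Main

variable {K L : Type*} [Field K] [Field L] [Algebra K L] {σ : Type*} {n : ℕ}

theorem gx_kl_ne (J : Set σ) (S : Set (Fin n × Fin n)) (i : σ) (a b : Fin n)
    (h : kl (TB L σ n) S (gx L n J i a b) ≠ 0) : a = b ∨ (a, b) ∈ S := by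
  by_contra hcon
  push Not at hcon
  apply h
  unfold gx
  by_cases hi : i ∈ J
  · rw [if_pos hi, Matrix.diagonal_apply_ne _ hcon.1, map_zero]
  · rw [if_neg hi, Matrix.of_apply, map_mul, kl, MvPolynomial.aeval_X, if_neg hcon.2, zero_mul]

theorem PJ_kl (J : Set σ) (f : FreeAlgebra K σ) (S : Set (Fin n × Fin n)) :
    (PJ L n J f).map (kl (TB L σ n) S) =
      FreeAlgebra.lift K (fun i => (gx L n J i).map (kl (TB L σ n) S)) f :=
  lift_map (((kl (TB L σ n) S).restrictScalars K).mapMatrix (m := Fin n)) (gx L n J) f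

theorem PJ_kl_ne (J : Set σ) (f : FreeAlgebra K σ) (u w : Fin n) (m : Fin n × Fin n →₀ ℕ)
    (hm : MvPolynomial.coeff m (PJ L n J f u w) ≠ 0) (S : Set (Fin n × Fin n))
    (hS : ∀ e, m e ≠ 0 → e ∈ S) :
    FreeAlgebra.lift K (fun i => (gx L n J i).map (kl (TB L σ n) S)) f u w ≠ 0 := by
  rw [← PJ_kl]
  intro h0
  apply hm
  rw [← coeff_kl S m hS]
  have : kl (TB L σ n) S (PJ L n J f u w) = 0 := h0
  rw [this, MvPolynomial.coeff_zero]

theorem arcs [Infinite K] (J : Set σ) (f : FreeAlgebra K σ)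
    (hvan : ∀ m < n, ∀ Y : σ → Matrix (Fin m) (Fin m) K, FreeAlgebra.lift K Y f = 0)
    (u w : Fin n) (m : Fin n × Fin n →₀ ℕ)
    (hm : MvPolynomial.coeff m (PJ L n J f u w) ≠ 0) :
    ∀ v, Relation.ReflTransGen (rel m) u v ∧ Relation.ReflTransGen (rel m) v w := by
  refine entry_zero f hvan (Relation.ReflTransGen (rel m))
    (fun a => Relation.ReflTransGen.refl) (fun a b c => Relation.ReflTransGen.trans) _
    (fun i a b hne => ?_) u w (PJ_kl_ne J f u w m hm {e | m e ≠ 0} fun e he => he)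
  by_cases hab : a = b
  · rw [hab]
  · rcases gx_kl_ne J _ i a b hne with h | h
    · exact absurd h hab
    · exact Relation.ReflTransGen.single ⟨hab, h⟩

theorem in_arc [Infinite K] (J : Set σ) (f : FreeAlgebra K σ)
    (hvan : ∀ m < n, ∀ Y : σ → Matrix (Fin m) (Fin m) K, FreeAlgebra.lift K Y f = 0)
    (hV : Van (RB L σ n) n f 1) (u w : Fin n) (m : Fin n × Fin n →₀ ℕ)
    (hm : MvPolynomial.coeff m (PJ L n J f u w) ≠ 0) (v : Fin n) :
    ∃ a, a ≠ v ∧ m (a, v) ≠ 0 := by
  classical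
  by_cases huv : u = v
  · subst huv
    by_contra hcon
    push Not at hcon
    refine PJ_kl_ne J f u w m hm {e | m e ≠ 0} (fun e he => he) ?_
    rw [hV {u} (Finset.card_singleton u) _ fun i a b ha hb => ?_]
    · rfl
    · rw [Finset.mem_singleton] at ha hb
      subst hb
      by_contra hne
      rcases gx_kl_ne J _ i a b hne with h | h
      · exact ha h
      · exact h (hcon a ha)
  · rcases (Relation.ReflTransGen.cases_tail (arcs J f hvan u w m hm v).1) with h | ⟨c, -, hc⟩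
    · exact absurd h.symm huv
    · exact ⟨c, hc⟩

theorem reach_iter {φ : Fin n → Fin n} {v w : Fin n}
    (h : Relation.ReflTransGen (rel (mon φ)) v w) : ∃ k, φ^[k] w = v := by
  induction h using Relation.ReflTransGen.head_induction_on with
  | refl => exact ⟨0, rfl⟩
  | head hab _ ih =>
    obtain ⟨k, hk⟩ := ih
    refine ⟨k + 1, ?_⟩
    rw [Function.iterate_succ_apply', hk]
    exact ((mon_ne φ _).mp hab.2).symm

/-- The structure of the monomials of degree at most `n`. -/
theorem struct [Infinite K] [NeZero n] (J : Set σ) (f : FreeAlgebra K σ)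
    (hvan : ∀ m < n, ∀ Y : σ → Matrix (Fin m) (Fin m) K, FreeAlgebra.lift K Y f = 0)
    (hV : Van (RB L σ n) n f 1) (u w : Fin n) (m : Fin n × Fin n →₀ ℕ)
    (hm : MvPolynomial.coeff m (PJ L n J f u w) ≠ 0) (hd : m.degree ≤ n) :
    ∃ (φ : Fin n → Fin n) (π : Equiv.Perm (Fin n)) (p : Fin n), m = mon φ ∧ (p : ℕ) + 1 < n ∧
      π 0 = w ∧ π p = u ∧ (∀ j : Fin n, π j = φ^[(j : ℕ)] w) ∧ ∀ i, φ (π i) = π (fg p i) := by
  obtain ⟨φ, hφ, rfl⟩ := exists_mon m (in_arc J f hvan hV u w m hm) hd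
  obtain ⟨π, p, h1⟩ := classify φ hφ u w
    (fun v => reach_iter (arcs J f hvan u w _ hm v).2) (PJ_flow J f u w _ hm)
  exact ⟨φ, π, p, rfl, h1⟩

end Main

end Pool.Agent.TH82.NC
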