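import Mathlib
import Pool.Agent.TH82.NC.Struct
import Pool.Agent.TH46.NC.Main

/-!
Permutation symmetry of the values at the generic matrices, and their component of degree `n`.
-/

set_option autoImplicit false

namespace Pool.Agent.TH82.NC

open Matrix Pool.Agent.H552R3.PC

section Sym

variable {K L : Type*} [Field K] [Field L] [Algebra K L] {σ : Type*} {n : ℕ}

/-- The action of a permutation on the parameters. -/
noncomputable def tp (L : Type*) [Field L] (σ : Type*) {n : ℕ} (π : Equiv.Perm (Fin n)) :
    TB L σ n →ₐ[L] TB L σ n :=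
  MvPolynomial.rename (Prod.map id (Sum.map π (Prod.map π π)))

theorem tp_inj (π : Equiv.Perm (Fin n)) : Function.Injective (tp L σ π) := by
  apply MvPolynomial.rename_injective
  exact Function.Injective.prodMap Function.injective_id
    (Function.Injective.sumMap π.injective (Function.Injective.prodMap π.injective π.injective))

/-- The action of a permutation. -/
noncomputable def TP (K L : Type*) [Field K] [Field L] [Algebra K L] (σ : Type*) {n : ℕ}
    (π : Equiv.Perm (Fin n)) : RB L σ n →ₐ[K] RB L σ n :=
  ((MvPolynomial.rename (R := TB L σ n) (Prod.map π π)).restrictScalars K).comp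
    (MvPolynomial.mapAlgHom ((tp L σ π).restrictScalars K))

theorem TP_X (π : Equiv.Perm (Fin n)) (a b : Fin n) :
    TP K L σ π (MvPolynomial.X (a, b)) = MvPolynomial.X (π a, π b) := by
  simp [TP]

theorem TP_C (π : Equiv.Perm (Fin n)) (g : TB L σ n) :
    TP K L σ π (MvPolynomial.C g) = MvPolynomial.C (tp L σ π g) := by
  simp [TP]

theorem coeff_TP (π : Equiv.Perm (Fin n)) (m : Fin n × Fin n →₀ ℕ) (g : RB L σ n) :
    MvPolynomial.coeff (m.mapDomain (Prod.map π π)) (TP K L σ π g) =
      tp L σ π (MvPolynomial.coeff m g) := by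
  have hinj : Function.Injective (Prod.map π π : Fin n × Fin n → Fin n × Fin n) :=
    Function.Injective.prodMap π.injective π.injective
  show MvPolynomial.coeff _ (MvPolynomial.rename (Prod.map π π)
    (MvPolynomial.mapAlgHom ((tp L σ π).restrictScalars K) g)) = _
  rw [MvPolynomial.coeff_rename_mapDomain _ hinj]
  have h1 : MvPolynomial.mapAlgHom ((tp L σ π).restrictScalars K) g =
      MvPolynomial.map (((tp L σ π).restrictScalars K : TB L σ n →ₐ[K] TB L σ n) :
        TB L σ n →+* TB L σ n) g :=
    RingHom.congr_fun (MvPolynomial.mapAlgHom_coe_ringHom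
      (σ := Fin n × Fin n) ((tp L σ π).restrictScalars K)) g
  rw [h1, MvPolynomial.coeff_map]
  rfl

theorem PJ_perm (J : Set σ) (f : FreeAlgebra K σ) (π : Equiv.Perm (Fin n)) (u w : Fin n) :
    PJ L n J f (π u) (π w) = TP K L σ π (PJ L n J f u w) := by
  have h1 := lift_map ((TP K L σ π).mapMatrix (m := Fin n)) (gx L n J) f
  have h2 := lift_map (Matrix.reindexAlgEquiv K (RB L σ n) π.symm).toAlgHom (gx L n J) f
  have h3 : (fun i => (TP K L σ π).mapMatrix (m := Fin n) (gx L n J i)) =
      fun i => (Matrix.reindexAlgEquiv K (RB L σ n) π.symm).toAlgHom (gx L n J i) := by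
    funext i
    ext1 a b
    show TP K L σ π (gx L n J i a b) = gx L n J i (π a) (π b)
    unfold gx
    by_cases hi : i ∈ J
    · rw [if_pos hi]
      by_cases hab : a = b
      · subst hab
        rw [Matrix.diagonal_apply_eq, Matrix.diagonal_apply_eq, TP_C]
        simp [tp]
      · rw [Matrix.diagonal_apply_ne _ hab, Matrix.diagonal_apply_ne _
          (fun e => hab (π.injective e)), map_zero]
    · rw [if_neg hi, Matrix.of_apply, Matrix.of_apply, map_mul, TP_X, TP_C]
      simp [tp]
  rw [h3, ← h2] at h1
  have h4 := congrFun (congrFun h1 u) w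
  exact h4.symm

theorem mapDomain_mon (π : Equiv.Perm (Fin n)) {φ ψ : Fin n → Fin n}
    (h : ∀ i, φ (π i) = π (ψ i)) : (mon ψ).mapDomain (Prod.map π π) = mon φ := by
  have hinj : Function.Injective (Prod.map π π : Fin n × Fin n → Fin n × Fin n) :=
    Function.Injective.prodMap π.injective π.injective
  ext ⟨a, b⟩
  obtain ⟨a, rfl⟩ := π.surjective a
  obtain ⟨b, rfl⟩ := π.surjective b
  have h1 := Finsupp.mapDomain_apply hinj (mon ψ) (a, b)
  have h2 : (Prod.map π π : Fin n × Fin n → Fin n × Fin n) (a, b) = (π a, π b) := rfl
  rw [h2] at h1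
  rw [h1, mon_apply, mon_apply, h]
  simp

/-- The coefficients of conjugate monomials. -/
theorem coeff_conj (J : Set σ) (f : FreeAlgebra K σ) (π : Equiv.Perm (Fin n))
    {φ ψ : Fin n → Fin n} (h : ∀ i, φ (π i) = π (ψ i)) (u w : Fin n) :
    MvPolynomial.coeff (mon φ) (PJ L n J f (π u) (π w)) =
      tp L σ π (MvPolynomial.coeff (mon ψ) (PJ L n J f u w)) := by
  rw [PJ_perm, ← mapDomain_mon π h, coeff_TP]

end Sym

section Comp

variable {A : Type*} [CommRing A] {α : Type*}

/-- Scaling the variables. -/
noncomputable def th (A : Type*) [CommRing A] (α : Type*) :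
    MvPolynomial α A →ₐ[A] Polynomial (MvPolynomial α A) :=
  MvPolynomial.aeval fun e => Polynomial.X * Polynomial.C (MvPolynomial.X e)

theorem th_coeff (g : MvPolynomial α A) (k : ℕ) :
    (th A α g).coeff k = MvPolynomial.homogeneousComponent k g := by
  classical
  induction g using MvPolynomial.induction_on' with
  | monomial m a =>
    have h1 : th A α (MvPolynomial.monomial m a) =
        Polynomial.X ^ m.degree * Polynomial.C (MvPolynomial.monomial m a) := by
      rw [th, MvPolynomial.aeval_monomial, MvPolynomial.monomial_eq]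
      have h2 : (m.prod fun i k => (Polynomial.X * Polynomial.C (MvPolynomial.X i) :
          Polynomial (MvPolynomial α A)) ^ k) = Polynomial.X ^ m.degree *
            Polynomial.C (m.prod fun i k => (MvPolynomial.X i : MvPolynomial α A) ^ k) := by
        rw [Finsupp.prod, Finsupp.prod, map_prod, Finsupp.degree_apply, ← Finset.prod_pow_eq_pow_sum,
          ← Finset.prod_mul_distrib]
        refine Finset.prod_congr rfl fun e _ => ?_
        rw [mul_pow, map_pow]
      rw [h2, map_mul]
      have h3 : (algebraMap A (Polynomial (MvPolynomial α A))) a =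
        Polynomial.C (MvPolynomial.C a) := rfl
      rw [h3]
      ring
    rw [h1, Polynomial.coeff_X_pow_mul', MvPolynomial.homogeneousComponent_apply]
    by_cases hk : m.degree = k
    · subst hk
      rw [if_pos le_rfl, Nat.sub_self, Polynomial.coeff_C_zero]
      by_cases ha : a = 0
      · subst ha; simp
      · rw [MvPolynomial.support_monomial, if_neg ha, Finset.filter_singleton, if_pos rfl,
          Finset.sum_singleton, MvPolynomial.coeff_monomial, if_pos rfl]
    · have h2 : (if m.degree ≤ k then (Polynomial.C (MvPolynomial.monomial m a)).coeff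
          (k - m.degree) else 0) = (0 : MvPolynomial α A) := by
        by_cases h3 : m.degree ≤ k
        · rw [if_pos h3, Polynomial.coeff_C_of_ne_zero (by omega)]
        · rw [if_neg h3]
      rw [h2]
      symm
      by_cases ha : a = 0
      · subst ha; simp
      · rw [MvPolynomial.support_monomial, if_neg ha, Finset.filter_singleton, if_neg hk,
          Finset.sum_empty]
  | add p q hp hq => rw [map_add, Polynomial.coeff_add, map_add, hp, hq]

end Comp

end Pool.Agent.TH82.NC
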