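import Mathlib
import Pool.Agent.TH82.NC.Sym

/-!
The component of degree `n` of the values at the generic matrices.
-/

set_option autoImplicit false

namespace Pool.Agent.TH82.NC

open Matrix Polynomial Pool.Agent.H552R3.PC

section Trace

variable {K : Type*} [Field K] {σ : Type*} {n : ℕ}

/-- If all values over the infinite field `K` have trace zero, so have the values over every
commutative algebra. -/
theorem trace_transfer [Infinite K] (f : FreeAlgebra K σ)
    (h : ∀ X : σ → Matrix (Fin n) (Fin n) K, (FreeAlgebra.lift K X f).trace = 0)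
    {B : Type*} [CommRing B] [Algebra K B] (W : σ → Matrix (Fin n) (Fin n) B) :
    (FreeAlgebra.lift K W f).trace = 0 := by
  let G : σ → Matrix (Fin n) (Fin n) (MvPolynomial (σ × Fin n × Fin n) K) := fun i =>
    Matrix.of fun a b => MvPolynomial.X (i, a, b)
  have key : ∀ {B : Type _} [CommRing B] [Algebra K B] (W : σ → Matrix (Fin n) (Fin n) B),
      (FreeAlgebra.lift K W f).trace =
        MvPolynomial.aeval (fun p : σ × Fin n × Fin n => W p.1 p.2.1 p.2.2)
          ((FreeAlgebra.lift K G f).trace) := by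
    intro B _ _ W
    have h1 := lift_map ((MvPolynomial.aeval (R := K)
      (fun p : σ × Fin n × Fin n => W p.1 p.2.1 p.2.2)).mapMatrix (m := Fin n)) G f
    have h2 : (fun i => (MvPolynomial.aeval (R := K)
      (fun p : σ × Fin n × Fin n => W p.1 p.2.1 p.2.2)).mapMatrix (m := Fin n) (G i)) = W := by
      funext i
      ext1 a b
      simp [G]
    rw [h2] at h1
    rw [← h1, Matrix.trace, Matrix.trace, map_sum]
    rfl
  have h0 : (FreeAlgebra.lift K G f).trace = 0 := by
    apply MvPolynomial.funext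
    intro x
    have h1 := key (B := K) (fun i => Matrix.of fun a b => x (i, a, b))
    rw [h] at h1
    rw [map_zero]
    exact h1.symm
  have h1 := lift_map ((MvPolynomial.aeval (R := K)
      (fun p : σ × Fin n × Fin n => W p.1 p.2.1 p.2.2)).mapMatrix (m := Fin n)) G f
  have h2 : (fun i => (MvPolynomial.aeval (R := K)
      (fun p : σ × Fin n × Fin n => W p.1 p.2.1 p.2.2)).mapMatrix (m := Fin n) (G i)) = W := by
    funext i
    ext1 a b
    simp [G]
  rw [h2] at h1
  have h3 : (FreeAlgebra.lift K W f).trace = MvPolynomial.aeval (R := K)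
      (fun p : σ × Fin n × Fin n => W p.1 p.2.1 p.2.2) ((FreeAlgebra.lift K G f).trace) := by
    rw [← h1, Matrix.trace, Matrix.trace, map_sum]
    rfl
  rw [h3, h0, map_zero]

end Trace

section FF

variable {K L : Type*} [Field K] [Field L] [Algebra K L] {σ : Type*} {n : ℕ}

/-- The component of degree `n`. -/
noncomputable def FF (L : Type*) [Field L] [Algebra K L] (n : ℕ) (J : Set σ) (f : FreeAlgebra K σ) :
    Matrix (Fin n) (Fin n) (RB L σ n) :=
  Matrix.of fun u w => MvPolynomial.homogeneousComponent n (PJ L n J f u w)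

theorem coeff_FF (J : Set σ) (f : FreeAlgebra K σ) (u w : Fin n) (m : Fin n × Fin n →₀ ℕ) :
    MvPolynomial.coeff m (FF L n J f u w) =
      if m.degree = n then MvPolynomial.coeff m (PJ L n J f u w) else 0 := by
  rw [FF, Matrix.of_apply, MvPolynomial.coeff_homogeneousComponent]

theorem coeff_FF_mon (J : Set σ) (f : FreeAlgebra K σ) (u w : Fin n) (φ : Fin n → Fin n) :
    MvPolynomial.coeff (mon φ) (FF L n J f u w) =
      MvPolynomial.coeff (mon φ) (PJ L n J f u w) := by
  rw [coeff_FF, if_pos (degree_mon φ)]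

theorem coeff_FF_ne (J : Set σ) (f : FreeAlgebra K σ) (u w : Fin n) (m : Fin n × Fin n →₀ ℕ)
    (h : MvPolynomial.coeff m (FF L n J f u w) ≠ 0) :
    m.degree = n ∧ MvPolynomial.coeff m (PJ L n J f u w) ≠ 0 := by
  rw [coeff_FF] at h
  by_cases hd : m.degree = n
  · rw [if_pos hd] at h; exact ⟨hd, h⟩
  · rw [if_neg hd] at h; exact absurd rfl h

theorem FF_pow [Infinite K] (J : Set σ) (f : FreeAlgebra K σ) (ν : ℕ)
    (h : ∀ X : σ → Matrix (Fin n) (Fin n) K, ∀ Z : Matrix (Fin n) (Fin n) K,
      FreeAlgebra.lift K X (f ^ ν) * Z = Z * FreeAlgebra.lift K X (f ^ ν))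
    (hlow : ∀ u w m, MvPolynomial.coeff m (PJ L n J f u w) ≠ 0 → n ≤ m.degree) :
    ∃ c, (FF L n J f) ^ ν = Matrix.scalar (Fin n) c := by
  obtain ⟨c, hc⟩ := Pool.Agent.TH46.NC.pow_scalar f ν h (gx L n J)
  let θ := th (TB L σ n) (Fin n × Fin n)
  let Q : Matrix (Fin n) (Fin n) (RB L σ n)[X] := θ.mapMatrix (PJ L n J f)
  have hQ : Q ^ ν = Matrix.scalar (Fin n) (θ c) := by
    show (θ.mapMatrix (PJ L n J f)) ^ ν = _
    rw [← map_pow, PJ, hc]
    ext1 a b
    rw [AlgHom.mapMatrix_apply, Matrix.map_apply, Matrix.scalar_apply, Matrix.scalar_apply]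
    by_cases hab : a = b
    · subst hab; rw [Matrix.diagonal_apply_eq, Matrix.diagonal_apply_eq]
    · rw [Matrix.diagonal_apply_ne _ hab, Matrix.diagonal_apply_ne _ hab, map_zero]
  set q := matPolyEquiv Q with hq
  have hco : ∀ k u w, q.coeff k u w = MvPolynomial.homogeneousComponent k (PJ L n J f u w) := by
    intro k u w
    rw [hq, matPolyEquiv_coeff_apply]
    exact th_coeff _ k
  have hz : ∀ k < n, q.coeff k = 0 := by
    intro k hk
    ext1 u w
    rw [hco, Matrix.zero_apply]
    apply MvPolynomial.ext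
    intro m
    rw [MvPolynomial.coeff_homogeneousComponent, MvPolynomial.coeff_zero]
    by_cases hm : m.degree = k
    · rw [if_pos hm]
      by_contra hne
      have := hlow u w m hne
      omega
    · rw [if_neg hm]
  obtain ⟨q', hq'⟩ := (X_pow_dvd_iff (f := q) (n := n)).mpr hz
  have h4 : q'.coeff 0 = FF L n J f := by
    have h5 : q.coeff n = q'.coeff 0 := by
      have h6 := coeff_X_pow_mul q' n 0
      rw [← hq', zero_add] at h6
      exact h6
    rw [← h5]
    ext1 u w
    rw [hco, FF, Matrix.of_apply]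
  have h5 : q ^ ν = X ^ (n * ν) * q' ^ ν := by
    have hcm : Commute ((X : (Matrix (Fin n) (Fin n) (RB L σ n))[X]) ^ n) q' :=
      (commute_X q').pow_left n
    rw [hq', hcm.mul_pow, ← pow_mul]
  have h6 : (q ^ ν).coeff (n * ν) = (FF L n J f) ^ ν := by
    rw [h5, coeff_X_pow_mul', if_pos le_rfl, Nat.sub_self]
    have : (q' ^ ν).coeff 0 = (q'.coeff 0) ^ ν :=
      map_pow (constantCoeff (R := Matrix (Fin n) (Fin n) (RB L σ n))) q' ν
    rw [this, h4]
  refine ⟨(θ c).coeff (n * ν), ?_⟩
  rw [← h6, hq, ← map_pow, hQ]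
  ext1 a b
  rw [matPolyEquiv_coeff_apply, Matrix.scalar_apply, Matrix.scalar_apply]
  by_cases hab : a = b
  · subst hab; rw [Matrix.diagonal_apply_eq, Matrix.diagonal_apply_eq]
  · rw [Matrix.diagonal_apply_ne _ hab, Matrix.diagonal_apply_ne _ hab, coeff_zero]

theorem FF_trace [Infinite K] (J : Set σ) (f : FreeAlgebra K σ)
    (h : ∀ X : σ → Matrix (Fin n) (Fin n) K, (FreeAlgebra.lift K X f).trace = 0) :
    ∑ u, FF L n J f u u = 0 := by
  have h1 := trace_transfer f h (gx L n J)
  have h2 : ∑ u, FF L n J f u u = MvPolynomial.homogeneousComponent n ((PJ L n J f).trace) := by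
    rw [Matrix.trace, map_sum]
    rfl
  rw [h2, PJ, h1, map_zero]

/-- Restriction to a set of arcs. -/
noncomputable def FS (L : Type*) [Field L] (σ : Type*) {n : ℕ} (S : Set (Fin n × Fin n))
    (M : Matrix (Fin n) (Fin n) (RB L σ n)) : Matrix (Fin n) (Fin n) (RB L σ n) :=
  (kl (TB L σ n) S).mapMatrix M

theorem FS_apply (S : Set (Fin n × Fin n)) (M : Matrix (Fin n) (Fin n) (RB L σ n)) (a b : Fin n) :
    FS L σ S M a b = kl (TB L σ n) S (M a b) := rfl

theorem FS_pow (S : Set (Fin n × Fin n)) (M : Matrix (Fin n) (Fin n) (RB L σ n)) (ν : ℕ)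
    (c : RB L σ n) (h : M ^ ν = Matrix.scalar (Fin n) c) :
    (FS L σ S M) ^ ν = Matrix.scalar (Fin n) (kl (TB L σ n) S c) := by
  rw [FS, ← map_pow, h]
  ext1 a b
  rw [AlgHom.mapMatrix_apply, Matrix.map_apply, Matrix.scalar_apply, Matrix.scalar_apply]
  by_cases hab : a = b
  · subst hab; rw [Matrix.diagonal_apply_eq, Matrix.diagonal_apply_eq]
  · rw [Matrix.diagonal_apply_ne _ hab, Matrix.diagonal_apply_ne _ hab, map_zero]

end FF

section Rows

variable {R : Type*} [CommRing R] {n : ℕ}

/-- A row with only a diagonal entry. -/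
theorem row_pow (M : Matrix (Fin n) (Fin n) R) (a : Fin n) (h : ∀ w, w ≠ a → M a w = 0) (ν : ℕ) :
    (∀ w, w ≠ a → (M ^ ν) a w = 0) ∧ (M ^ ν) a a = (M a a) ^ ν := by
  induction ν with
  | zero =>
    rw [pow_zero, pow_zero]
    exact ⟨fun w hw => Matrix.one_apply_ne hw.symm, Matrix.one_apply_eq a⟩
  | succ ν ih =>
    rw [pow_succ']
    constructor
    · intro w hw
      rw [Matrix.mul_apply]
      refine Finset.sum_eq_zero fun x _ => ?_
      by_cases hx : x = a
      · subst hx; rw [ih.1 w hw, mul_zero]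
      · rw [h x hx, zero_mul]
    · rw [Matrix.mul_apply, Finset.sum_eq_single a]
      · rw [ih.2, pow_succ']
      · intro x _ hx; rw [h x hx, zero_mul]
      · intro h; exact absurd (Finset.mem_univ _) h

/-- Two rows swapped by a nilpotent matrix. -/
theorem two_rows [IsDomain R] (M : Matrix (Fin n) (Fin n) R) (a b : Fin n) (hab : a ≠ b)
    (ha : ∀ w, w ≠ b → M a w = 0) (hb : ∀ w, w ≠ a → M b w = 0) (ν : ℕ) (h : M ^ ν = 0) :
    M a b = 0 ∨ M b a = 0 := by
  have h1 : ∀ w, w ≠ a → (M * M) a w = 0 := by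
    intro w hw
    rw [Matrix.mul_apply]
    refine Finset.sum_eq_zero fun x _ => ?_
    by_cases hx : x = b
    · subst hx; rw [hb w hw, mul_zero]
    · rw [ha x hx, zero_mul]
  have h2 : (M * M) a a = M a b * M b a := by
    rw [Matrix.mul_apply, Finset.sum_eq_single b]
    · intro x _ hx; rw [ha x hx, zero_mul]
    · intro h; exact absurd (Finset.mem_univ _) h
  have h3 := (row_pow (M * M) a h1 ν).2
  have h4 : (M * M) ^ ν = 0 := by
    rw [← pow_two, ← pow_mul, mul_comm, pow_mul, h, zero_pow two_ne_zero]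
  rw [h4, Matrix.zero_apply, h2] at h3
  by_cases hν : ν = 0
  · subst hν
    rw [pow_zero] at h3
    exact absurd h3 zero_ne_one
  · exact mul_eq_zero.mp (pow_eq_zero_iff hν |>.mp h3.symm)

end Rows

end Pool.Agent.TH82.NC
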