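import Mathlib
import Pool.Agent.TH82.NC.Deg

/-!
The diagonal entries of the component of degree `n` are equal.
-/

set_option autoImplicit false

namespace Pool.Agent.TH82.NC

open Matrix Pool.Agent.H552R3.PC

section Perm

variable {n : ℕ}

/-- A permutation of `Fin n` given by a function on natural numbers. -/
noncomputable def mkp (f : ℕ → ℕ) (hf : ∀ i < n, f i < n)
    (hi : ∀ i < n, ∀ j < n, f i = f j → i = j) : Equiv.Perm (Fin n) :=
  Equiv.ofBijective (fun i => ⟨f i, hf i i.2⟩) (Finite.injective_iff_bijective.mp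
    fun i j h => Fin.ext (hi i i.2 j j.2 (congrArg Fin.val h)))

theorem mkp_val (f : ℕ → ℕ) (hf : ∀ i < n, f i < n)
    (hi : ∀ i < n, ∀ j < n, f i = f j → i = j) (i : Fin n) :
    ((mkp f hf hi i : Fin n) : ℕ) = f i := rfl

theorem fg_val (p i : Fin n) :
    ((fg p i : Fin n) : ℕ) = if (i : ℕ) + 1 < n then (i : ℕ) + 1 else (p : ℕ) := by
  by_cases h : (i : ℕ) + 1 < n
  · rw [fg_lt h, if_pos h]
  · rw [fg_ge h, if_neg h]

theorem fg_zero [NeZero n] (i : Fin n) : fg 0 i = i + 1 := by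
  by_cases h1 : n = 1
  · subst h1; exact Subsingleton.elim _ _
  · apply Fin.ext
    have hn : 0 < n := Nat.pos_of_neZero n
    rw [fg_val, Fin.val_add, Fin.val_one']
    have := i.isLt
    have h2 : 1 % n = 1 := Nat.mod_eq_of_lt (by omega)
    rw [h2]
    by_cases h : (i : ℕ) + 1 < n
    · rw [if_pos h, Nat.mod_eq_of_lt h]
    · rw [if_neg h]
      have : (i : ℕ) + 1 = n := by omega
      rw [this, Nat.mod_self]; rfl

end Perm

section Main

variable {K L : Type*} [Field K] [Field L] [Algebra K L] {σ : Type*} {n : ℕ} [NeZero n]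

/-- The standard coefficients. -/
noncomputable def lam (L : Type*) [Field L] [Algebra K L] (n : ℕ) [NeZero n] (J : Set σ)
    (f : FreeAlgebra K σ) (p : Fin n) : TB L σ n :=
  MvPolynomial.coeff (mon (fg p)) (PJ L n J f p 0)

theorem FF_struct [Infinite K] (J : Set σ) (f : FreeAlgebra K σ)
    (hvan : ∀ m < n, ∀ Y : σ → Matrix (Fin m) (Fin m) K, FreeAlgebra.lift K Y f = 0)
    (hV : Van (RB L σ n) n f 1) (u w : Fin n) (m : Fin n × Fin n →₀ ℕ)
    (hm : MvPolynomial.coeff m (FF L n J f u w) ≠ 0) :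
    ∃ (φ : Fin n → Fin n) (π : Equiv.Perm (Fin n)) (p : Fin n), m = mon φ ∧ (p : ℕ) + 1 < n ∧
      π 0 = w ∧ π p = u ∧ (∀ j : Fin n, π j = φ^[(j : ℕ)] w) ∧ (∀ i, φ (π i) = π (fg p i)) ∧
      MvPolynomial.coeff m (FF L n J f u w) = tp L σ π (lam L n J f p) := by
  obtain ⟨hd, h1⟩ := coeff_FF_ne J f u w m hm
  obtain ⟨φ, π, p, rfl, h2, h3, h4, h5, h6⟩ := struct J f hvan hV u w m h1 hd.le
  refine ⟨φ, π, p, rfl, h2, h3, h4, h5, h6, ?_⟩
  rw [coeff_FF_mon, ← h3, ← h4, coeff_conj J f π h6, lam]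

theorem FF_struct' [Infinite K] (J : Set σ) (f : FreeAlgebra K σ)
    (hvan : ∀ m < n, ∀ Y : σ → Matrix (Fin m) (Fin m) K, FreeAlgebra.lift K Y f = 0)
    (hV : Van (RB L σ n) n f 1) {u w : Fin n} (huw : u ≠ w) (m : Fin n × Fin n →₀ ℕ)
    (hm : MvPolynomial.coeff m (FF L n J f u w) ≠ 0) :
    ∃ (φ : Fin n → Fin n) (π : Equiv.Perm (Fin n)) (p : Fin n), m = mon φ ∧ (p : ℕ) + 1 < n ∧
      1 ≤ (p : ℕ) ∧ π p = u ∧ (∀ j : Fin n, π j = φ^[(j : ℕ)] w) ∧
      (∃ b b', b ≠ b' ∧ φ b = u ∧ φ b' = u) ∧ (∀ x, x ≠ w → ∃ b, φ b = x) ∧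
      MvPolynomial.coeff m (FF L n J f u w) = tp L σ π (lam L n J f p) := by
  obtain ⟨φ, π, p, h1, h2, h3, h4, h5, h6, h7⟩ := FF_struct J f hvan hV u w m hm
  have hp : 1 ≤ (p : ℕ) := by
    by_contra hcon
    have : p = 0 := Fin.ext (by rw [Fin.val_zero]; omega)
    rw [this, h3] at h4
    exact huw h4.symm
  have hn : 0 < n := Nat.pos_of_neZero n
  refine ⟨φ, π, p, h1, h2, hp, h4, h5, ?_, ?_, h7⟩
  · refine ⟨π ⟨p - 1, by omega⟩, π ⟨n - 1, by omega⟩, fun e => ?_, ?_, ?_⟩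
    · have := congrArg Fin.val (π.injective e)
      simp only at this
      omega
    · rw [h6, ← h4]
      congr 1
      apply Fin.ext
      rw [fg_val, if_pos (by simp only; omega)]
      simp only
      omega
    · rw [h6, fg_ge (by simp only; omega), h4]
  · intro x hx
    obtain ⟨j, rfl⟩ := π.surjective x
    have hj : 1 ≤ (j : ℕ) := by
      by_contra hcon
      apply hx
      have : j = 0 := Fin.ext (by rw [Fin.val_zero]; omega)
      rw [this, h3]
    have := j.isLt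
    refine ⟨π ⟨j - 1, by omega⟩, ?_⟩
    rw [h6]
    congr 1
    apply Fin.ext
    rw [fg_val, if_pos (by simp only; omega)]
    simp only
    omega

/-- A vertex with only one outgoing arc gives a diagonal row. -/
theorem FS_row [Infinite K] (J : Set σ) (f : FreeAlgebra K σ)
    (hvan : ∀ m < n, ∀ Y : σ → Matrix (Fin m) (Fin m) K, FreeAlgebra.lift K Y f = 0)
    (hV : Van (RB L σ n) n f 1) (S : Set (Fin n × Fin n)) (u : Fin n)
    (hu : ∀ v v', (u, v) ∈ S → (u, v') ∈ S → v = v') (w : Fin n) (hw : w ≠ u) :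
    FS L σ S (FF L n J f) u w = 0 := by
  apply MvPolynomial.ext
  intro m
  rw [MvPolynomial.coeff_zero]
  by_contra hne
  obtain ⟨h1, h2⟩ := coeff_kl_ne S m _ hne
  obtain ⟨φ, π, p, rfl, -, -, -, -, ⟨b, b', hbb, hb, hb'⟩, -, -⟩ :=
    FF_struct' J f hvan hV hw.symm m h2
  apply hbb
  refine hu b b' ?_ ?_
  · exact h1 (u, b) ((mon_ne φ _).mpr hb.symm)
  · exact h1 (u, b') ((mon_ne φ _).mpr hb'.symm)

theorem coeff_FS_mon (J : Set σ) (f : FreeAlgebra K σ) (S : Set (Fin n × Fin n))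
    (φ : Fin n → Fin n) (hφ : ∀ v, (φ v, v) ∈ S) (u w : Fin n) :
    MvPolynomial.coeff (mon φ) (FS L σ S (FF L n J f) u w) =
      MvPolynomial.coeff (mon φ) (PJ L n J f u w) := by
  rw [FS_apply, coeff_kl, coeff_FF_mon]
  rintro ⟨a, b⟩ he
  have := (mon_ne φ _).mp he
  simp only at this
  rw [this]
  exact hφ b

/-- The diagonal entries are equal. -/
theorem ham [Infinite K] [IsAlgClosed L] (hn5 : 5 ≤ n) (J : Set σ) (f : FreeAlgebra K σ)
    (hvan : ∀ m < n, ∀ Y : σ → Matrix (Fin m) (Fin m) K, FreeAlgebra.lift K Y f = 0)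
    (hV : Van (RB L σ n) n f 1)
    (hpow : ∃ c, (FF L n J f) ^ n = Matrix.scalar (Fin n) c) (u w : Fin n) :
    FF L n J f u u = FF L n J f w w := by
  classical
  set c : Fin n → TB L σ n := fun v => MvPolynomial.coeff (mon (fg 0)) (PJ L n J f v v) with hc
  -- rotation
  have hrot : ∀ v, c (v + 1) = tp L σ (Equiv.addRight 1) (c v) := by
    intro v
    have h1 := coeff_conj (L := L) J f (Equiv.addRight (1 : Fin n)) (φ := fg 0) (ψ := fg 0)
      (fun i => by rw [fg_zero, fg_zero]; rfl) v v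
    exact h1
  -- the two cycles
  let S : Set (Fin n × Fin n) := {e | (e.1 : ℕ) = e.2 + 1 ∨ ((e.1 : ℕ) = 0 ∧ (e.2 : ℕ) + 1 = n) ∨
    ((e.1 : ℕ) = 0 ∧ (e.2 : ℕ) + 3 = n) ∨ ((e.1 : ℕ) + 2 = n ∧ (e.2 : ℕ) = 0) ∨
    ((e.1 : ℕ) = 1 ∧ (e.2 : ℕ) + 1 = n)}
  let a : Fin n := ⟨n - 1, by omega⟩
  let b : Fin n := ⟨n - 3, by omega⟩
  let b' : Fin n := ⟨n - 4, by omega⟩
  let ρ : Equiv.Perm (Fin n) := mkp (fun i => if i + 3 < n then i + 1 else if i + 3 = n then 0
    else i) (fun i hi => by split_ifs <;> omega)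
    (fun i hi j hj h => by split_ifs at h <;> omega)
  have hρ : ∀ i : Fin n, ((ρ i : Fin n) : ℕ) = if (i : ℕ) + 3 < n then (i : ℕ) + 1 else
    if (i : ℕ) + 3 = n then 0 else i := fun i => rfl
  have hρa : ρ a = a := by
    apply Fin.ext
    rw [hρ]
    show (if n - 1 + 3 < n then n - 1 + 1 else if n - 1 + 3 = n then 0 else n - 1) = n - 1
    split_ifs <;> omega
  have hρb : ρ b' = b := by
    apply Fin.ext
    rw [hρ]
    show (if n - 4 + 3 < n then n - 4 + 1 else if n - 4 + 3 = n then 0 else n - 4) = n - 3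
    split_ifs <;> omega
  let φ2 : Fin n → Fin n := fun v => ρ (fg 0 (ρ.symm v))
  have hφ2 : ∀ i, φ2 (ρ i) = ρ (fg 0 i) := fun i => by simp [φ2]
  have hS1 : ∀ v : Fin n, ((fg 0 v : Fin n), v) ∈ S := by
    intro v
    have h1 := fg_val (0 : Fin n) v
    have h2 := v.isLt
    rw [Fin.val_zero] at h1
    show _ ∨ _
    simp only
    split_ifs at h1 <;> omega
  have hS2 : ∀ v : Fin n, (φ2 v, v) ∈ S := by
    intro v
    obtain ⟨i, rfl⟩ := ρ.surjective v
    rw [hφ2]
    have h1 := fg_val (0 : Fin n) i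
    have h2 := i.isLt
    have h3 := hρ i
    have h4 := hρ (fg 0 i)
    rw [Fin.val_zero] at h1
    show _ ∨ _
    simp only
    split_ifs at h1 h3 h4 <;> omega
  set M := FS L σ S (FF L n J f) with hM
  obtain ⟨c0, hc0⟩ := hpow
  have hMn := FS_pow S (FF L n J f) n c0 hc0
  rw [← hM] at hMn
  have hrow : ∀ x : Fin n, (∀ v v' : Fin n, (x, v) ∈ S → (x, v') ∈ S → v = v') →
      (M x x) ^ n = kl (TB L σ n) S c0 := by
    intro x hx
    rw [← (row_pow M x (fun w hw => FS_row J f hvan hV S x hx w hw) n).2, hMn,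
      Matrix.scalar_apply, Matrix.diagonal_apply_eq]
  have ha : (M a a) ^ n = kl (TB L σ n) S c0 := by
    apply hrow
    intro v v' h h'
    have h1 : (a : ℕ) = n - 1 := rfl
    have h2 : _ ∨ _ := h
    have h3 : _ ∨ _ := h'
    simp only [h1] at h2 h3
    apply Fin.ext
    omega
  have hb : (M b b) ^ n = kl (TB L σ n) S c0 := by
    apply hrow
    intro v v' h h'
    have h1 : (b : ℕ) = n - 3 := rfl
    have h2 : _ ∨ _ := h
    have h3 : _ ∨ _ := h'
    simp only [h1] at h2 h3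
    apply Fin.ext
    omega
  obtain ⟨ε, hε, hab⟩ := root_ratio (L := L) (R := RB L σ n) (by omega : 0 < n)
    (ha.trans hb.symm)
  have halg : algebraMap L (RB L σ n) ε = MvPolynomial.C (MvPolynomial.C ε) := rfl
  have e1 : c a = MvPolynomial.C ε * c b := by
    have h1 := congrArg (MvPolynomial.coeff (mon (fg 0))) hab
    rw [halg, MvPolynomial.coeff_C_mul, hM, coeff_FS_mon J f S _ hS1, coeff_FS_mon J f S _ hS1] at h1
    exact h1
  have e2 : tp L σ ρ (c a) = MvPolynomial.C ε * tp L σ ρ (c b') := by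
    have h1 := congrArg (MvPolynomial.coeff (mon φ2)) hab
    rw [halg, MvPolynomial.coeff_C_mul, hM, coeff_FS_mon J f S _ hS2, coeff_FS_mon J f S _ hS2] at h1
    have h2 := coeff_conj (L := L) J f ρ hφ2 a a
    have h3 := coeff_conj (L := L) J f ρ hφ2 b' b'
    rw [hρa] at h2
    rw [hρb] at h3
    rw [h2, h3] at h1
    exact h1
  have e3 : c a = MvPolynomial.C ε * c b' := by
    apply tp_inj ρ
    rw [e2, map_mul]
    congr 1
    simp [tp]
  have e4 : c (b' + 1) = c b' := by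
    have h1 : b' + 1 = b := by
      rw [← fg_zero]
      apply Fin.ext
      rw [fg_val]
      show (if n - 4 + 1 < n then n - 4 + 1 else _) = n - 3
      rw [if_pos (by omega)]
      omega
    rw [h1]
    have h2 : (MvPolynomial.C ε : TB L σ n) ≠ 0 := by
      rw [Ne, MvPolynomial.C_eq_zero]; exact hε
    exact mul_left_cancel₀ h2 (e1.symm.trans e3)
  have e5 : ∀ k : ℕ, c (b' + k • (1 : Fin n) + 1) = c (b' + k • (1 : Fin n)) := by
    intro k
    induction k with
    | zero => rw [zero_nsmul, add_zero]; exact e4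
    | succ k ih =>
      rw [succ_nsmul, ← add_assoc]
      exact (hrot _).trans ((congrArg _ ih).trans (hrot _).symm)
  have e6 : ∀ v, c (v + 1) = c v := by
    intro v
    have h1 := e5 ((v - b' : Fin n) : ℕ)
    rw [val_nsmul_one, add_sub_cancel] at h1
    exact h1
  have e7 : ∀ k : ℕ, c (k • (1 : Fin n)) = c 0 := by
    intro k
    induction k with
    | zero => rw [zero_nsmul]
    | succ k ih => rw [succ_nsmul, e6, ih]
  have e8 : ∀ v, c v = c 0 := by
    intro v
    have h1 := e7 (v : ℕ)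
    rwa [val_nsmul_one] at h1
  -- all cycles
  have key : ∀ (u w : Fin n) (m : Fin n × Fin n →₀ ℕ),
      MvPolynomial.coeff m (FF L n J f u u) ≠ 0 →
      MvPolynomial.coeff m (FF L n J f w w) = MvPolynomial.coeff m (FF L n J f u u) := by
    intro u w m hm
    obtain ⟨φ, π, p, rfl, h2, h3, h4, h5, h6, h7⟩ := FF_struct J f hvan hV u u m hm
    have hp : p = 0 := π.injective (h4.trans h3.symm)
    subst hp
    have h8 : ∀ j, MvPolynomial.coeff (mon φ) (FF L n J f (π j) (π j)) = tp L σ π (c 0) := by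
      intro j
      rw [coeff_FF_mon, coeff_conj J f π h6]
      exact congrArg _ (e8 j)
    obtain ⟨j, rfl⟩ := π.surjective w
    obtain ⟨i, rfl⟩ := π.surjective u
    rw [h8, h8]
  apply MvPolynomial.ext
  intro m
  by_cases h1 : MvPolynomial.coeff m (FF L n J f u u) = 0
  · by_cases h2 : MvPolynomial.coeff m (FF L n J f w w) = 0
    · rw [h1, h2]
    · exact key w u m h2
  · exact (key u w m h1).symm

end Main

end Pool.Agent.TH82.NC
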