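import Mathlib
import Pool.Agent.TH82.NC.Ham

/-!
The off-diagonal entries of the component of degree `n` vanish.
-/

set_option autoImplicit false

namespace Pool.Agent.TH82.NC

open Matrix Pool.Agent.H552R3.PC

variable {K L : Type*} [Field K] [Field L] [Algebra K L] {σ : Type*} {n : ℕ} [NeZero n]

/-- The arcs used for the induction step. -/
def SA (n p : ℕ) : Set (Fin n × Fin n) := {e | (e.1 : ℕ) = e.2 + 1 ∨
  ((e.2 : ℕ) + 1 = n ∧ ((e.1 : ℕ) = p ∨ (e.1 : ℕ) = 0)) ∨
  ((e.1 : ℕ) = 2 * p ∧ (e.2 : ℕ) + 1 = p) ∨ ((e.1 : ℕ) = 0 ∧ (e.2 : ℕ) + 1 = 2 * p)}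

theorem mem_SA {n p : ℕ} {a b : Fin n} : (a, b) ∈ SA n p ↔ ((a : ℕ) = b + 1 ∨
  ((b : ℕ) + 1 = n ∧ ((a : ℕ) = p ∨ (a : ℕ) = 0)) ∨
  ((a : ℕ) = 2 * p ∧ (b : ℕ) + 1 = p) ∨ ((a : ℕ) = 0 ∧ (b : ℕ) + 1 = 2 * p)) := Iff.rfl

/-- Combinatorial core: where the rows `0` and `p` can go. -/
theorem tail_len {p : ℕ} (hp1 : 1 ≤ p) (hp2 : 2 * p < n) (φ : Fin n → Fin n)
    (hS : ∀ v, (φ v, v) ∈ SA n p) (u w : Fin n) (hu : (u : ℕ) = 0 ∨ (u : ℕ) = p)
    (hw0 : (w : ℕ) ≠ 0) (hwp : (w : ℕ) ≠ p) (htwo : ∃ b b', b ≠ b' ∧ φ b = u ∧ φ b' = u)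
    (hpre : ∀ x, x ≠ w → ∃ b, φ b = x) : φ^[n - 2 * p] w = u := by
  obtain ⟨b, b', hbb, hb, hb'⟩ := htwo
  have hS' := fun v => mem_SA.mp (hS v)
  have hbv : (b : ℕ) ≠ b' := fun h => hbb (Fin.ext h)
  have hlast : ∀ v : Fin n, (v : ℕ) + 1 = n → φ v = u := by
    intro v hv
    have h1 := hS' b
    have h2 := hS' b'
    rw [hb] at h1
    rw [hb'] at h2
    have h3 : (v : ℕ) = b ∨ (v : ℕ) = b' := by
      have := b.isLt; have := b'.isLt
      rcases hu with hu | hu <;> omega
    rcases h3 with h3 | h3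
    · rw [Fin.ext h3, hb]
    · rw [Fin.ext h3, hb']
  have hother : ∀ v : Fin n, ((u : ℕ) = 0 → (v : ℕ) + 1 = 2 * p → φ v = u) ∧
      ((u : ℕ) = p → (v : ℕ) + 1 = p → φ v = u) := by
    intro v
    have h1 := hS' b
    have h2 := hS' b'
    rw [hb] at h1
    rw [hb'] at h2
    constructor
    · intro hu0 hv
      have h3 : (v : ℕ) = b ∨ (v : ℕ) = b' := by
        have := b.isLt; have := b'.isLt
        omega
      rcases h3 with h3 | h3
      · rw [Fin.ext h3, hb]
      · rw [Fin.ext h3, hb']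
    · intro hup hv
      have h3 : (v : ℕ) = b ∨ (v : ℕ) = b' := by
        have := b.isLt; have := b'.isLt
        omega
      rcases h3 with h3 | h3
      · rw [Fin.ext h3, hb]
      · rw [Fin.ext h3, hb']
  have hw : (w : ℕ) = 2 * p := by
    by_contra hcon
    obtain ⟨x, hx⟩ := hpre ⟨2 * p, hp2⟩ (fun e => hcon (by rw [← e]))
    have h1 := hS' x
    rw [hx] at h1
    simp only at h1
    rcases hu with hu | hu
    · obtain ⟨y, hy⟩ := hpre ⟨p, by omega⟩ (fun e => hwp (by rw [← e]))
      have h2 := hS' y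
      rw [hy] at h2
      simp only at h2
      have hx' : (x : ℕ) + 1 ≠ 2 * p := by
        intro h
        have h3 := (hother x).1 hu h
        rw [hx] at h3
        have := congrArg Fin.val h3
        simp only at this
        omega
      have hy' : (y : ℕ) + 1 ≠ n := by
        intro h
        have h3 := hlast y h
        rw [hy] at h3
        have := congrArg Fin.val h3
        simp only at this
        omega
      have hxy : x = y := Fin.ext (by omega)
      rw [hxy, hy] at hx
      have := congrArg Fin.val hx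
      simp only at this
      omega
    · obtain ⟨y, hy⟩ := hpre ⟨0, by omega⟩ (fun e => hw0 (by rw [← e]))
      have h2 := hS' y
      rw [hy] at h2
      simp only at h2
      have hx' : (x : ℕ) + 1 ≠ p := by
        intro h
        have h3 := (hother x).2 hu h
        rw [hx] at h3
        have := congrArg Fin.val h3
        simp only at this
        omega
      have hy' : (y : ℕ) + 1 ≠ n := by
        intro h
        have h3 := hlast y h
        rw [hy] at h3
        have := congrArg Fin.val h3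
        simp only at this
        omega
      have hxy : x = y := Fin.ext (by omega)
      rw [hxy, hy] at hx
      have := congrArg Fin.val hx
      simp only at this
      omega
  have hit : ∀ k, 2 * p + k + 1 ≤ n → ((φ^[k] w : Fin n) : ℕ) = 2 * p + k := by
    intro k
    induction k with
    | zero => intro _; rw [Function.iterate_zero_apply, hw]; rfl
    | succ k ih =>
      intro hk
      have h1 := ih (by omega)
      rw [Function.iterate_succ_apply']
      have h2 := hS' (φ^[k] w)
      rw [h1] at h2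
      omega
  have h1 := hit (n - 2 * p - 1) (by omega)
  have h2 : n - 2 * p = (n - 2 * p - 1) + 1 := by omega
  rw [h2, Function.iterate_succ_apply']
  apply hlast
  rw [h1]
  omega

/-- The induction step. -/
theorem star [Infinite K] (hn5 : 5 ≤ n) (J : Set σ) (f : FreeAlgebra K σ)
    (hvan : ∀ m < n, ∀ Y : σ → Matrix (Fin m) (Fin m) K, FreeAlgebra.lift K Y f = 0)
    (hV : Van (RB L σ n) n f 1) (N : Matrix (Fin n) (Fin n) (RB L σ n))
    (hN : ∀ u w, u ≠ w → N u w = FF L n J f u w) (hN0 : ∀ u, N u u = 0)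
    (hNp : ∃ c, N ^ n = Matrix.scalar (Fin n) c)
    (p q : Fin n) (hp1 : 1 ≤ (p : ℕ)) (hp2 : 2 * (p : ℕ) < n) (hq : (q : ℕ) = n - 2 * p)
    (hlam : lam L n J f q = 0) : lam L n J f p = 0 := by
  classical
  have hn : 0 < n := by omega
  set S := SA n p with hS
  set M := FS L σ S N with hM
  have hMF : ∀ u w, u ≠ w → M u w = FS L σ S (FF L n J f) u w := by
    intro u w huw
    rw [hM, FS_apply, FS_apply, hN u w huw]
  have hM0 : ∀ u, M u u = 0 := by
    intro u
    rw [hM, FS_apply, hN0, map_zero]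
  obtain ⟨c0, hc0⟩ := hNp
  have hMn := FS_pow S N n c0 hc0
  rw [← hM] at hMn
  -- a zero row
  have hzero : M ^ n = 0 := by
    obtain ⟨v0, hv0⟩ : ∃ v0 : Fin n, ∀ w, M v0 w = 0 := by
      refine ⟨if (p : ℕ) = 1 then ⟨n - 1, by omega⟩ else ⟨2 * p - 1, by omega⟩, fun w => ?_⟩
      set v0 : Fin n := if (p : ℕ) = 1 then ⟨n - 1, by omega⟩ else ⟨2 * p - 1, by omega⟩ with hv
      have hval : (v0 : ℕ) = if (p : ℕ) = 1 then n - 1 else 2 * p - 1 := by
        rw [hv]; split_ifs <;> rfl
      by_cases hw : w = v0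
      · rw [hw, hM0]
      · rw [hMF _ _ (Ne.symm hw)]
        refine FS_row J f hvan hV S v0 (fun v v' h h' => ?_) w hw
        have h1 := mem_SA.mp h
        have h2 := mem_SA.mp h'
        apply Fin.ext
        split_ifs at hval <;> omega
    have h1 := (row_pow M v0 (fun w _ => hv0 w) n).2
    rw [hv0, zero_pow hn.ne', hMn, Matrix.scalar_apply, Matrix.diagonal_apply_eq] at h1
    rw [hMn, h1, map_zero]
  -- the rows `0` and `p`
  have hrows : ∀ u w : Fin n, ((u : ℕ) = 0 ∨ (u : ℕ) = p) → (w : ℕ) ≠ 0 → (w : ℕ) ≠ p →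
      M u w = 0 := by
    intro u w hu hw0 hwp
    have huw : u ≠ w := by
      rintro rfl
      rcases hu with hu | hu
      · exact hw0 hu
      · exact hwp hu
    rw [hMF _ _ huw]
    apply MvPolynomial.ext
    intro m
    rw [MvPolynomial.coeff_zero]
    by_contra hne
    have hne' := hne
    rw [FS_apply] at hne'
    obtain ⟨h1, h2⟩ := coeff_kl_ne S m _ hne'
    obtain ⟨φ, π, q', rfl, -, -, h4, h5, htwo, hpre, h7⟩ := FF_struct' J f hvan hV huw m h2
    have hSφ : ∀ v, (φ v, v) ∈ SA n p := fun v => h1 (φ v, v) ((mon_ne φ _).mpr rfl)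
    have h8 := tail_len hp1 hp2 φ hSφ u w hu hw0 hwp htwo hpre
    have h9 : π q = u := by rw [h5, hq, h8]
    have h10 : q' = q := π.injective (h4.trans h9.symm)
    apply h2
    rw [h7, h10, hlam, map_zero]
  have h0p : (0 : Fin n) ≠ p := by
    intro h
    have := congrArg Fin.val h
    rw [Fin.val_zero] at this
    omega
  have htwo := two_rows M 0 p h0p
    (fun w hw => by
      by_cases hw0 : w = 0
      · rw [hw0, hM0]
      · refine hrows 0 w (Or.inl (Fin.val_zero n)) (fun h => hw0 (Fin.ext ?_))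
          (fun h => hw (Fin.ext h))
        rw [h, Fin.val_zero])
    (fun w hw => by
      by_cases hwp : w = p
      · rw [hwp, hM0]
      · refine hrows p w (Or.inr rfl) (fun h => hw (Fin.ext ?_))
          (fun h => hwp (Fin.ext h))
        rw [h, Fin.val_zero]) n hzero
  -- the two coefficients
  let s : Equiv.Perm (Fin n) := mkp (fun i => if i < p then i + p else if i < 2 * p then i - p
    else i) (fun i hi => by split_ifs <;> omega)
    (fun i hi j hj h => by split_ifs at h <;> omega)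
  have hs : ∀ i : Fin n, ((s i : Fin n) : ℕ) = if (i : ℕ) < p then (i : ℕ) + p else
    if (i : ℕ) < 2 * p then (i : ℕ) - p else i := fun i => rfl
  have hs0 : s 0 = p := by
    apply Fin.ext
    rw [hs, Fin.val_zero, if_pos (by omega), zero_add]
  have hsp : s p = 0 := by
    apply Fin.ext
    rw [hs, if_neg (lt_irrefl _), if_pos (by omega), Nat.sub_self, Fin.val_zero]
  rcases htwo with h | h
  · let φs : Fin n → Fin n := fun v => s (fg p (s.symm v))
    have hφs : ∀ i, φs (s i) = s (fg p i) := fun i => by simp [φs]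
    have hSs : ∀ v : Fin n, (φs v, v) ∈ S := by
      intro v
      obtain ⟨i, rfl⟩ := s.surjective v
      rw [hφs, hS, mem_SA]
      have h1 := fg_val p i
      have h2 := i.isLt
      have h3 := hs i
      have h4 := hs (fg p i)
      split_ifs at h1 h3 h4 <;> omega
    have h1 := coeff_conj (L := L) J f s hφs p 0
    rw [hsp, hs0, ← coeff_FS_mon J f S φs hSs, ← hMF _ _ h0p, h, MvPolynomial.coeff_zero] at h1
    apply tp_inj s
    rw [map_zero]
    exact h1.symm
  · have hSp : ∀ v : Fin n, ((fg p v : Fin n), v) ∈ S := by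
      intro v
      rw [hS, mem_SA]
      have h1 := fg_val p v
      have h2 := v.isLt
      split_ifs at h1 <;> omega
    rw [lam, ← coeff_FS_mon J f S _ hSp, ← hMF _ _ h0p.symm, h, MvPolynomial.coeff_zero]

/-- The large tails do not occur. -/
theorem lam_big [Infinite K] (J : Set σ) (f : FreeAlgebra K σ)
    (halt : ∀ d e : ℕ, 0 < d → 0 < e → d + e = n → Van (RB L σ n) n f d ∨ Van (RB L σ n) n f e)
    (p : Fin n) (hp1 : 1 ≤ (p : ℕ)) (hp2 : n ≤ 2 * (p : ℕ)) : lam L n J f p = 0 := by
  classical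
  by_contra hne
  have hlt := p.isLt
  have key : ∀ t : ℕ, 1 ≤ t → t ≤ p → Van (RB L σ n) n f (n - t) → False := by
    intro t ht1 ht2 hVt
    refine PJ_kl_ne J f p 0 (mon (fg p)) hne {e | mon (fg p) e ≠ 0} (fun e he => he) ?_
    have hcard : (Finset.univ.filter fun v : Fin n => t ≤ (v : ℕ)).card = n - t := by
      have h1 : (Finset.univ.filter fun v : Fin n => t ≤ (v : ℕ)) =
          Finset.Ici (⟨t, by omega⟩ : Fin n) := by
        ext v
        simp [Fin.le_def]
      rw [h1, Fin.card_Ici]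
    rw [hVt _ hcard _ fun i a b ha hb => ?_]
    · rfl
    · by_contra h
      simp only [Finset.mem_filter, Finset.mem_univ, true_and] at ha hb
      rcases gx_kl_ne J _ i a b h with h1 | h1
      · rw [h1] at ha; exact ha hb
      · have h2 : (a : Fin n) = fg p b := (mon_ne (fg p) (a, b)).mp h1
        have h3 := fg_val p b
        rw [← h2] at h3
        split_ifs at h3 <;> omega
  rcases halt (n - p) p (by omega) (by omega) (by omega) with h | h
  · exact key p hp1 le_rfl h
  · refine key (n - p) (by omega) (by omega) ?_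
    have : n - (n - (p : ℕ)) = p := by omega
    rw [this]; exact h

/-- All tails vanish. -/
theorem lam_all [Infinite K] (hn5 : 5 ≤ n) (h3 : ¬ 3 ∣ n) (J : Set σ) (f : FreeAlgebra K σ)
    (hvan : ∀ m < n, ∀ Y : σ → Matrix (Fin m) (Fin m) K, FreeAlgebra.lift K Y f = 0)
    (hV : Van (RB L σ n) n f 1)
    (halt : ∀ d e : ℕ, 0 < d → 0 < e → d + e = n → Van (RB L σ n) n f d ∨ Van (RB L σ n) n f e)
    (N : Matrix (Fin n) (Fin n) (RB L σ n))
    (hN : ∀ u w, u ≠ w → N u w = FF L n J f u w) (hN0 : ∀ u, N u u = 0)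
    (hNp : ∃ c, N ^ n = Matrix.scalar (Fin n) c) :
    ∀ p : Fin n, 1 ≤ (p : ℕ) → lam L n J f p = 0 := by
  have key : ∀ k : ℕ, ∀ p : Fin n, 1 ≤ (p : ℕ) → 3 * n - (3 * (p : ℤ) - n).natAbs = k →
      lam L n J f p = 0 := by
    intro k
    induction k using Nat.strong_induction_on with
    | _ k ih =>
      intro p hp hk
      have hlt := p.isLt
      by_cases hp2 : n ≤ 2 * (p : ℕ)
      · exact lam_big J f halt p hp hp2
      · have hq : n - 2 * (p : ℕ) < n := by omega
        refine star hn5 J f hvan hV N hN hN0 hNp p ⟨n - 2 * p, hq⟩ hp (by omega) rfl ?_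
        refine ih _ ?_ ⟨n - 2 * p, hq⟩ (by show 1 ≤ n - 2 * (p : ℕ); omega) rfl
        have hne : (3 * (p : ℤ) - n) ≠ 0 := by
          intro h
          apply h3
          exact ⟨p, by omega⟩
        rw [← hk]
        simp only
        omega
  intro p hp
  exact key _ p hp rfl

theorem FF_zero [Infinite K] (J : Set σ) (f : FreeAlgebra K σ)
    (hvan : ∀ m < n, ∀ Y : σ → Matrix (Fin m) (Fin m) K, FreeAlgebra.lift K Y f = 0)
    (hV : Van (RB L σ n) n f 1) (h : ∀ p : Fin n, 1 ≤ (p : ℕ) → lam L n J f p = 0) (u w : Fin n)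
    (huw : u ≠ w) : FF L n J f u w = 0 := by
  apply MvPolynomial.ext
  intro m
  rw [MvPolynomial.coeff_zero]
  by_contra hne
  obtain ⟨φ, π, p, rfl, -, h3, -, -, -, -, h7⟩ := FF_struct' J f hvan hV huw m hne
  apply hne
  rw [h7, h p h3, map_zero]

end Pool.Agent.TH82.NC
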