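import Mathlib
import Pool.Agent.TH82.NC.Star
import Pool.Agent.TH82.NC.Stair

/-!
Assembly: polynomials `f = g + h`, the words of `g` having at most `n` letters outside `J`, those of
`h` more than `n`.
-/

set_option autoImplicit false

namespace Pool.Agent.TH82.NC

open Matrix Pool.Agent.H552R3.PC

section Core

variable {K L : Type*} [Field K] [Field L] [Algebra K L] {σ : Type*} {n : ℕ} [NeZero n]

theorem low_deg [Infinite K] (J : Set σ) (f : FreeAlgebra K σ)
    (hvan : ∀ m < n, ∀ Y : σ → Matrix (Fin m) (Fin m) K, FreeAlgebra.lift K Y f = 0)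
    (hV : Van (RB L σ n) n f 1) (u w : Fin n) (m : Fin n × Fin n →₀ ℕ)
    (hm : MvPolynomial.coeff m (PJ L n J f u w) ≠ 0) : n ≤ m.degree := by
  by_contra hcon
  obtain ⟨φ, π, p, rfl, -⟩ := struct J f hvan hV u w m hm (by omega)
  rw [degree_mon] at hcon
  exact hcon le_rfl

theorem FF_scalar [Infinite K] [IsAlgClosed L] (hn : n.Prime) (hn5 : 5 ≤ n) (J : Set σ)
    (f : FreeAlgebra K σ)
    (hvan : ∀ m < n, ∀ Y : σ → Matrix (Fin m) (Fin m) K, FreeAlgebra.lift K Y f = 0)
    (hV : Van (RB L σ n) n f 1)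
    (halt : ∀ d e : ℕ, 0 < d → 0 < e → d + e = n → Van (RB L σ n) n f d ∨ Van (RB L σ n) n f e)
    (hcomm : ∀ X : σ → Matrix (Fin n) (Fin n) K, ∀ Z : Matrix (Fin n) (Fin n) K,
      FreeAlgebra.lift K X (f ^ n) * Z = Z * FreeAlgebra.lift K X (f ^ n))
    (htr : (n : K) ≠ 0 → ∀ X : σ → Matrix (Fin n) (Fin n) K, (FreeAlgebra.lift K X f).trace = 0) :
    ∃ s, FF L n J f = Matrix.scalar (Fin n) s ∧ ((n : K) ≠ 0 → s = 0) := by
  have h3 : ¬ 3 ∣ n := by
    intro h
    rcases (Nat.dvd_prime hn).mp h with h | h <;> omega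
  have hpow := FF_pow J f n hcomm (low_deg (L := L) J f hvan hV)
  have hham := ham hn5 J f hvan hV hpow
  set s := FF L n J f 0 0 with hs
  have hinj : Function.Injective (algebraMap K (RB L σ n)) := (algebraMap K (RB L σ n)).injective
  have hs0 : (n : K) ≠ 0 → s = 0 := by
    intro hnK
    have h1 := FF_trace (L := L) J f (htr hnK)
    have h2 : ∑ u, FF L n J f u u = (n : RB L σ n) * s := by
      rw [Finset.sum_congr rfl fun u _ => hham u 0, Finset.sum_const, Finset.card_univ,
        Fintype.card_fin, nsmul_eq_mul]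
    rw [h2] at h1
    rcases mul_eq_zero.mp h1 with h4 | h4
    · exfalso
      apply hnK
      apply hinj
      rw [map_natCast, map_zero, h4]
    · exact h4
  set N : Matrix (Fin n) (Fin n) (RB L σ n) := FF L n J f - Matrix.scalar (Fin n) s with hN
  have hN1 : ∀ u w, u ≠ w → N u w = FF L n J f u w := by
    intro u w huw
    rw [hN, Matrix.sub_apply, Matrix.scalar_apply, Matrix.diagonal_apply_ne _ huw, sub_zero]
  have hN0 : ∀ u, N u u = 0 := by
    intro u
    rw [hN, Matrix.sub_apply, Matrix.scalar_apply, Matrix.diagonal_apply_eq, hham u 0, sub_self]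
  have hNp : ∃ c, N ^ n = Matrix.scalar (Fin n) c := by
    obtain ⟨c, hc⟩ := hpow
    by_cases hnK : (n : K) = 0
    · have : Fact n.Prime := ⟨hn⟩
      have : CharP K n := by
        refine CharP.congr (ringChar K) ?_
        have h1 := ringChar.dvd hnK
        rcases (Nat.dvd_prime hn).mp h1 with h2 | h2
        · exact absurd h2 (CharP.ringChar_ne_one)
        · exact h2
      have : CharP (RB L σ n) n := charP_of_injective_algebraMap hinj n
      have : Nonempty (Fin n) := ⟨0⟩
      refine ⟨c - s ^ n, ?_⟩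
      rw [hN, sub_pow_char_of_commute n (Matrix.scalar_commute s (fun _ => Commute.all _ _) _).symm,
        hc, ← map_pow, map_sub]
    · refine ⟨c, ?_⟩
      rw [hN, hs0 hnK, map_zero, sub_zero, hc]
  have hlam := lam_all hn5 h3 J f hvan hV halt N hN1 hN0 hNp
  refine ⟨s, ?_, hs0⟩
  ext1 u w
  rw [Matrix.scalar_apply]
  by_cases huw : u = w
  · subst huw; rw [Matrix.diagonal_apply_eq, hham u 0]
  · rw [Matrix.diagonal_apply_ne _ huw, FF_zero J f hvan hV hlam u w huw]

end Core

section Words

variable {K L : Type*} [Field K] [Field L] [Algebra K L] {σ : Type*} {n : ℕ}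

open Classical in
/-- The number of letters of a word outside `J`. -/
noncomputable def oc {σ : Type*} (J : Set σ) (l : List σ) : ℕ := l.countP fun i => i ∉ J

theorem gx_degree (J : Set σ) (i : σ) (u w : Fin n) (m : Fin n × Fin n →₀ ℕ)
    (hm : MvPolynomial.coeff m (gx L n J i u w) ≠ 0) : m.degree = oc J [i] := by
  classical
  unfold gx at hm
  by_cases hi : i ∈ J
  · rw [if_pos hi] at hm
    have h1 : oc J [i] = 0 := by simp [oc, hi]
    rw [h1]
    by_cases huw : u = w
    · subst huw
      rw [Matrix.diagonal_apply_eq, MvPolynomial.coeff_C] at hm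
      have h0 : 0 = m := by
        by_contra hcon
        rw [if_neg hcon] at hm
        exact hm rfl
      rw [← h0]; simp
    · rw [Matrix.diagonal_apply_ne _ huw, MvPolynomial.coeff_zero] at hm
      exact absurd rfl hm
  · rw [if_neg hi, Matrix.of_apply, mul_comm, MvPolynomial.coeff_C_mul, MvPolynomial.coeff_X] at hm
    have h1 : oc J [i] = 1 := by simp [oc, hi]
    rw [h1]
    have h0 : Finsupp.single (u, w) 1 = m := by
      by_contra hcon
      rw [if_neg hcon, mul_zero] at hm
      exact hm rfl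
    rw [← h0]; simp

theorem word_degree (J : Set σ) (l : List σ) : ∀ (u w : Fin n) (m : Fin n × Fin n →₀ ℕ),
    MvPolynomial.coeff m ((l.map (gx L n J)).prod u w) ≠ 0 → m.degree = oc J l := by
  classical
  induction l with
  | nil =>
    intro u w m hm
    rw [List.map_nil, List.prod_nil] at hm
    by_cases huw : u = w
    · subst huw
      rw [Matrix.one_apply_eq, MvPolynomial.coeff_one] at hm
      have h0 : 0 = m := by
        by_contra hcon
        rw [if_neg hcon] at hm
        exact hm rfl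
      rw [← h0]; simp [oc]
    · rw [Matrix.one_apply_ne huw, MvPolynomial.coeff_zero] at hm
      exact absurd rfl hm
  | cons i l ih =>
    intro u w m hm
    rw [List.map_cons, List.prod_cons, mul_apply, MvPolynomial.coeff_sum] at hm
    obtain ⟨c, -, hc⟩ := Finset.exists_ne_zero_of_sum_ne_zero hm
    rw [MvPolynomial.coeff_mul] at hc
    obtain ⟨⟨x, y⟩, hxy, hne⟩ := Finset.exists_ne_zero_of_sum_ne_zero hc
    rw [← Finset.HasAntidiagonal.mem_antidiagonal.mp hxy]
    have h1 := gx_degree J i u c x (left_ne_zero_of_mul hne)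
    have h2 := ih c w y (right_ne_zero_of_mul hne)
    have h3 : (x + y).degree = x.degree + y.degree := map_add _ x y
    simp only
    rw [h3, h1, h2]
    unfold oc
    rw [List.countP_cons, List.countP_cons, List.countP_nil]
    omega

/-- Linear combinations of words with a condition on the number of letters outside `J`. -/
def spn (K : Type*) [Field K] {σ : Type*} (J : Set σ) (Q : ℕ → Prop) :
    Submodule K (FreeAlgebra K σ) :=
  Submodule.span K {w | ∃ l : List σ, Q (oc J l) ∧ w = (l.map (FreeAlgebra.ι K)).prod}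

theorem spn_degree (J : Set σ) (Q : ℕ → Prop) (g : FreeAlgebra K σ) (hg : g ∈ spn K J Q)
    (u w : Fin n) (m : Fin n × Fin n →₀ ℕ) (hm : MvPolynomial.coeff m (PJ L n J g u w) ≠ 0) :
    Q m.degree := by
  revert u w m
  refine Submodule.span_induction (p := fun g _ => ∀ (u w : Fin n) (m : Fin n × Fin n →₀ ℕ),
    MvPolynomial.coeff m (PJ L n J g u w) ≠ 0 → Q m.degree) ?_ ?_ ?_ ?_ hg
  · rintro _ ⟨l, hl, rfl⟩ u w m hm
    have h1 : PJ L n J (l.map (FreeAlgebra.ι K)).prod = (l.map (gx L n J)).prod := by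
      rw [PJ, map_list_prod, List.map_map]
      congr 2
      funext i
      simp
    rw [h1] at hm
    rw [word_degree J l u w m hm]
    exact hl
  · intro u w m hm
    rw [PJ, map_zero, Matrix.zero_apply, MvPolynomial.coeff_zero] at hm
    exact absurd rfl hm
  · intro a b _ _ ha hb u w m hm
    by_cases h : MvPolynomial.coeff m (PJ L n J a u w) = 0
    · refine hb u w m ?_
      rw [PJ, map_add, Matrix.add_apply, MvPolynomial.coeff_add] at hm
      rw [PJ] at h
      rw [h, zero_add] at hm
      exact hm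
    · exact ha u w m h
  · intro c a _ ha u w m hm
    refine ha u w m ?_
    intro h
    apply hm
    rw [PJ, map_smul, Matrix.smul_apply, MvPolynomial.coeff_smul]
    rw [PJ] at h
    rw [h, smul_zero]

end Words

section Spec

variable {K : Type*} [Field K] {σ : Type*} {n : ℕ}

/-- Extension of scalars. -/
noncomputable def iL (K L : Type*) [Field K] [Field L] [Algebra K L] (σ : Type*) (n : ℕ) :
    RB K σ n →ₐ[K] RB L σ n :=
  MvPolynomial.mapAlgHom (MvPolynomial.mapAlgHom (Algebra.ofId K L))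

theorem iL_inj (L : Type*) [Field L] [Algebra K L] : Function.Injective (iL K L σ n) := by
  have h1 : Function.Injective (MvPolynomial.mapAlgHom (σ := σ × (Fin n ⊕ Fin n × Fin n))
      (Algebra.ofId K L)) := by
    have := MvPolynomial.map_injective (σ := σ × (Fin n ⊕ Fin n × Fin n)) (algebraMap K L)
      (algebraMap K L).injective
    exact this
  have h2 := MvPolynomial.map_injective (σ := Fin n × Fin n)
    ((MvPolynomial.mapAlgHom (σ := σ × (Fin n ⊕ Fin n × Fin n)) (Algebra.ofId K L) :
      TB K σ n →ₐ[K] TB L σ n) : TB K σ n →+* TB L σ n) h1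
  exact h2

theorem PJ_iL (L : Type*) [Field L] [Algebra K L] (J : Set σ) (g : FreeAlgebra K σ) :
    (iL K L σ n).mapMatrix (PJ K n J g) = PJ L n J g := by
  rw [PJ, lift_map, PJ]
  congr 2
  funext i
  ext1 a b
  rw [AlgHom.mapMatrix_apply, Matrix.map_apply]
  unfold gx
  by_cases hi : i ∈ J
  · rw [if_pos hi, if_pos hi]
    by_cases hab : a = b
    · subst hab
      rw [Matrix.diagonal_apply_eq, Matrix.diagonal_apply_eq]
      simp [iL]
    · rw [Matrix.diagonal_apply_ne _ hab, Matrix.diagonal_apply_ne _ hab, map_zero]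
  · rw [if_neg hi, if_neg hi, Matrix.of_apply, Matrix.of_apply]
    simp [iL]

variable {R : Type*} [CommRing R] [Algebra K R]

/-- Specialisation of the generic matrices. -/
noncomputable def sR (Y : σ → Matrix (Fin n) (Fin n) R) : RB K σ n →ₐ[K] R :=
  (MvPolynomial.aeval (fun p : σ × (Fin n ⊕ Fin n × Fin n) =>
    Sum.elim (fun v => Y p.1 v v) (fun e => Y p.1 e.1 e.2) p.2)).comp
  ((MvPolynomial.aeval (R := TB K σ n) (fun _ : Fin n × Fin n => (1 : TB K σ n))).restrictScalars K)

theorem lift_sR (J : Set σ) (g : FreeAlgebra K σ) (Y : σ → Matrix (Fin n) (Fin n) R)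
    (hY : ∀ i ∈ J, (Y i).IsDiag) :
    FreeAlgebra.lift K Y g = (sR (K := K) Y).mapMatrix (PJ K n J g) := by
  rw [PJ, lift_map]
  congr 2
  funext i
  ext1 a b
  rw [AlgHom.mapMatrix_apply, Matrix.map_apply]
  unfold gx
  by_cases hi : i ∈ J
  · rw [if_pos hi]
    by_cases hab : a = b
    · subst hab
      rw [Matrix.diagonal_apply_eq]
      simp [sR]
    · rw [Matrix.diagonal_apply_ne _ hab, map_zero]
      exact hY i hi hab
  · rw [if_neg hi, Matrix.of_apply]
    simp [sR]

end Spec

section Final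

variable {K : Type*} [Field K] {σ : Type*} {n : ℕ} [NeZero n]

theorem core1 [Infinite K] (hn : n.Prime) (hn5 : 5 ≤ n) (J : Set σ)
    (f g h : FreeAlgebra K σ) (hfgh : f = g + h) (hg : g ∈ spn K J (· ≤ n))
    (hh : h ∈ spn K J (n < ·))
    (hvan : ∀ m < n, ∀ Y : σ → Matrix (Fin m) (Fin m) K, FreeAlgebra.lift K Y f = 0)
    (hV : Van (RB (AlgebraicClosure K) σ n) n f 1)
    (halt : ∀ d e : ℕ, 0 < d → 0 < e → d + e = n →
      Van (RB (AlgebraicClosure K) σ n) n f d ∨ Van (RB (AlgebraicClosure K) σ n) n f e)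
    (hcomm : ∀ X : σ → Matrix (Fin n) (Fin n) K, ∀ Z : Matrix (Fin n) (Fin n) K,
      FreeAlgebra.lift K X (f ^ n) * Z = Z * FreeAlgebra.lift K X (f ^ n))
    (htr : (n : K) ≠ 0 → ∀ X : σ → Matrix (Fin n) (Fin n) K, (FreeAlgebra.lift K X f).trace = 0)
    {R : Type*} [CommRing R] [Algebra K R] (Y : σ → Matrix (Fin n) (Fin n) R)
    (hY : ∀ i ∈ J, (Y i).IsDiag) :
    ∃ c : R, FreeAlgebra.lift K Y g = Matrix.scalar (Fin n) c ∧ ((n : K) ≠ 0 → c = 0) := by
  set L := AlgebraicClosure K with hL
  obtain ⟨s, hs, hs0⟩ := FF_scalar (L := L) hn hn5 J f hvan hV halt hcomm htr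
  have hPg : PJ L n J g = FF L n J f := by
    have hadd : PJ L n J f = PJ L n J g + PJ L n J h := by rw [hfgh, PJ, map_add, PJ, PJ]
    ext1 u w
    apply MvPolynomial.ext
    intro m
    rw [coeff_FF]
    have h1 : MvPolynomial.coeff m (PJ L n J f u w) =
        MvPolynomial.coeff m (PJ L n J g u w) + MvPolynomial.coeff m (PJ L n J h u w) := by
      rw [hadd, Matrix.add_apply, MvPolynomial.coeff_add]
    have h2 : MvPolynomial.coeff m (PJ L n J g u w) ≠ 0 → m.degree ≤ n :=
      fun hne => spn_degree J _ g hg u w m hne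
    have h3 : MvPolynomial.coeff m (PJ L n J h u w) ≠ 0 → n < m.degree :=
      fun hne => spn_degree J _ h hh u w m hne
    have h4 : MvPolynomial.coeff m (PJ L n J f u w) ≠ 0 → n ≤ m.degree :=
      fun hne => low_deg J f hvan hV u w m hne
    by_cases hd : m.degree = n
    · rw [if_pos hd, h1]
      have : MvPolynomial.coeff m (PJ L n J h u w) = 0 := by
        by_contra hcon
        have := h3 hcon
        omega
      rw [this, add_zero]
    · rw [if_neg hd]
      by_contra hne
      have h5 := h2 hne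
      have h6 : MvPolynomial.coeff m (PJ L n J h u w) = 0 := by
        by_contra hcon
        have := h3 hcon
        omega
      rw [h6, add_zero] at h1
      have h7 := h4 (by rw [h1]; exact hne)
      omega
  have hinj := iL_inj (K := K) (σ := σ) (n := n) L
  have h1 := PJ_iL (n := n) L J g
  rw [hPg, hs] at h1
  have h2 : ∀ u w, u ≠ w → PJ K n J g u w = 0 := by
    intro u w huw
    apply hinj
    have h3 := congrFun (congrFun h1 u) w
    rw [Matrix.scalar_apply, Matrix.diagonal_apply_ne _ huw] at h3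
    rw [map_zero]
    exact h3
  have h3 : ∀ u, PJ K n J g u u = PJ K n J g 0 0 := by
    intro u
    apply hinj
    have h3 := congrFun (congrFun h1 u) u
    have h4 := congrFun (congrFun h1 0) 0
    rw [Matrix.scalar_apply, Matrix.diagonal_apply_eq] at h3 h4
    exact h3.trans h4.symm
  refine ⟨sR (K := K) Y (PJ K n J g 0 0), ?_, fun hnK => ?_⟩
  · rw [lift_sR J g Y hY]
    ext1 u w
    rw [AlgHom.mapMatrix_apply, Matrix.map_apply, Matrix.scalar_apply]
    by_cases huw : u = w
    · subst huw; rw [Matrix.diagonal_apply_eq, h3]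
    · rw [Matrix.diagonal_apply_ne _ huw, h2 u w huw, map_zero]
  · have h5 : PJ K n J g 0 0 = 0 := by
      apply hinj
      have h4 := congrFun (congrFun h1 0) 0
      rw [Matrix.scalar_apply, Matrix.diagonal_apply_eq, hs0 hnK] at h4
      rw [map_zero]
      exact h4
    rw [h5, map_zero]

/-- Reversal and transposition. -/
theorem lift_rev {R : Type*} [CommRing R] [Algebra K R] {m : ℕ}
    (W : σ → Matrix (Fin m) (Fin m) R) (f : FreeAlgebra K σ) :
    FreeAlgebra.lift K W (rev (fun _ => (1 : K)) f) = (FreeAlgebra.lift K (fun i => (W i)ᵀ) f)ᵀ := by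
  induction f using FreeAlgebra.induction with
  | grade0 c =>
    rw [rev_algebraMap, AlgHom.commutes, AlgHom.commutes]
    ext1 a b
    simp only [transpose_apply, algebraMap_matrix_apply]
    by_cases h : a = b
    · subst h; rfl
    · rw [if_neg h, if_neg (fun e => h e.symm)]
  | grade1 i =>
    rw [rev_ι, one_smul, FreeAlgebra.lift_ι_apply, FreeAlgebra.lift_ι_apply, transpose_transpose]
  | mul a b ha hb => rw [rev_mul, map_mul, map_mul, transpose_mul, ha, hb]
  | add a b ha hb => rw [rev_add, map_add, map_add, transpose_add, ha, hb]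

theorem rev_word (l : List σ) : rev (fun _ => (1 : K)) (l.map (FreeAlgebra.ι K)).prod =
    (l.reverse.map (FreeAlgebra.ι K)).prod := by
  induction l with
  | nil => simp [rev_one]
  | cons i l ih =>
    rw [List.map_cons, List.prod_cons, rev_mul, rev_ι, one_smul, ih, List.reverse_cons,
      List.map_append, List.prod_append]
    simp

theorem oc_reverse (J : Set σ) (l : List σ) : oc J l.reverse = oc J l := by
  unfold oc
  rw [List.countP_reverse]

theorem rev_spn (J : Set σ) (Q : ℕ → Prop) (g : FreeAlgebra K σ) (hg : g ∈ spn K J Q) :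
    rev (fun _ => (1 : K)) g ∈ spn K J Q := by
  refine Submodule.span_induction (p := fun g _ => rev (fun _ => (1 : K)) g ∈ spn K J Q)
    ?_ ?_ ?_ ?_ hg
  · rintro _ ⟨l, hl, rfl⟩
    rw [rev_word]
    exact Submodule.subset_span ⟨l.reverse, by rw [oc_reverse]; exact hl, rfl⟩
  · rw [rev_zero]; exact Submodule.zero_mem _
  · intro a b _ _ ha hb
    rw [rev_add]; exact Submodule.add_mem _ ha hb
  · intro c a _ ha
    rw [rev_smul]; exact Submodule.smul_mem _ _ ha

theorem core [Infinite K] (hn : n.Prime) (hn5 : 5 ≤ n) (J : Set σ)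
    (f g h : FreeAlgebra K σ) (hfgh : f = g + h) (hg : g ∈ spn K J (· ≤ n))
    (hh : h ∈ spn K J (n < ·))
    (hvan : ∀ m < n, ∀ Y : σ → Matrix (Fin m) (Fin m) K, FreeAlgebra.lift K Y f = 0)
    (hsc : ∀ X : σ → Matrix (Fin n) (Fin n) K, ∃ c : K,
      FreeAlgebra.lift K X (f ^ n) = Matrix.scalar (Fin n) c)
    (htr : (n : K) ≠ 0 → ∀ X : σ → Matrix (Fin n) (Fin n) K, (FreeAlgebra.lift K X f).trace = 0)
    {R : Type*} [CommRing R] [Algebra K R] (Y : σ → Matrix (Fin n) (Fin n) R)
    (hY : ∀ i ∈ J, (Y i).IsDiag) :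
    ∃ c : R, FreeAlgebra.lift K Y g = Matrix.scalar (Fin n) c ∧ ((n : K) ≠ 0 → c = 0) := by
  have hodd : Odd n := hn.odd_of_ne_two (by omega)
  have hcop : ∀ d e : ℕ, 0 < d → 0 < e → d + e = n → Nat.Coprime d e := by
    intro d e hd he hde
    have h4 : Nat.gcd d e ∣ n := by
      rw [← hde]; exact Nat.dvd_add (Nat.gcd_dvd_left d e) (Nat.gcd_dvd_right d e)
    rcases (Nat.dvd_prime hn).mp h4 with h5 | h5
    · exact h5
    · have h6 := Nat.gcd_le_left e hd
      omega
  have halt : ∀ f : FreeAlgebra K σ,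
      (∀ m < n, ∀ Y : σ → Matrix (Fin m) (Fin m) K, FreeAlgebra.lift K Y f = 0) →
      (∀ X : σ → Matrix (Fin n) (Fin n) K, ∀ Z : Matrix (Fin n) (Fin n) K,
        FreeAlgebra.lift K X (f ^ n) * Z = Z * FreeAlgebra.lift K X (f ^ n)) →
      ∀ d e : ℕ, 0 < d → 0 < e → d + e = n →
        Van (RB (AlgebraicClosure K) σ n) n f d ∨ Van (RB (AlgebraicClosure K) σ n) n f e :=
    fun f h1 h2 d e hd he hde => van_alt f h1 n hodd h2 hde hd he (hcop d e hd he hde)
  have hcm : ∀ f : FreeAlgebra K σ, (∀ X : σ → Matrix (Fin n) (Fin n) K, ∃ c : K,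
      FreeAlgebra.lift K X (f ^ n) = Matrix.scalar (Fin n) c) →
      ∀ X : σ → Matrix (Fin n) (Fin n) K, ∀ Z : Matrix (Fin n) (Fin n) K,
        FreeAlgebra.lift K X (f ^ n) * Z = Z * FreeAlgebra.lift K X (f ^ n) := by
    intro f hf X Z
    obtain ⟨c, hc⟩ := hf X
    rw [hc]
    exact (Matrix.scalar_commute c (fun _ => Commute.all _ _) Z).eq
  rcases halt f hvan (hcm f hsc) 1 (n - 1) one_pos (by omega) (by omega) with hV | hV
  · exact core1 hn hn5 J f g h hfgh hg hh hvan hV (halt f hvan (hcm f hsc)) (hcm f hsc) htr Y hY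
  · set rv : FreeAlgebra K σ → FreeAlgebra K σ := rev (fun _ => (1 : K)) with hrv
    have hvan' : ∀ m < n, ∀ Y : σ → Matrix (Fin m) (Fin m) K, FreeAlgebra.lift K Y (rv f) = 0 := by
      intro m hm Y
      rw [hrv, lift_rev, hvan m hm, transpose_zero]
    have hsc' : ∀ X : σ → Matrix (Fin n) (Fin n) K, ∃ c : K,
        FreeAlgebra.lift K X ((rv f) ^ n) = Matrix.scalar (Fin n) c := by
      intro X
      obtain ⟨c, hc⟩ := hsc (fun i => (X i)ᵀ)
      refine ⟨c, ?_⟩
      rw [map_pow, hrv, lift_rev, ← transpose_pow, ← map_pow, hc, Matrix.scalar_apply,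
        diagonal_transpose]
    have htr' : (n : K) ≠ 0 → ∀ X : σ → Matrix (Fin n) (Fin n) K,
        (FreeAlgebra.lift K X (rv f)).trace = 0 := by
      intro hnK X
      rw [hrv, lift_rev, trace_transpose, htr hnK]
    have hV' : Van (RB (AlgebraicClosure K) σ n) n (rv f) 1 := by
      intro D hD X hX
      rw [hrv, lift_rev, hV Dᶜ (by rw [Finset.card_compl, hD, Fintype.card_fin])
        (fun i => (X i)ᵀ) (fun i a b ha hb => ?_), transpose_zero]
      rw [transpose_apply]
      refine hX i b a (fun hb' => ?_) ?_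
      · exact (Finset.mem_compl.mp hb) hb'
      · by_contra hcon
        exact ha (Finset.mem_compl.mpr hcon)
    obtain ⟨c, hc, hc0⟩ := core1 hn hn5 J (rv f) (rv g) (rv h) (by rw [hfgh, hrv, rev_add])
      (rev_spn J _ g hg) (rev_spn J _ h hh) hvan' hV' (halt _ hvan' (hcm _ hsc')) (hcm _ hsc') htr'
      (fun i => (Y i)ᵀ) (fun i hi => (hY i hi).transpose)
    refine ⟨c, ?_, hc0⟩
    rw [hrv, lift_rev] at hc
    simp only [transpose_transpose] at hc
    rw [← transpose_transpose (FreeAlgebra.lift K Y g), hc, Matrix.scalar_apply,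
      diagonal_transpose]

end Final

end Pool.Agent.TH82.NC
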