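import Mathlib
import Pool.Agent.H552R3.PC.Quant3
import Pool.Agent.TH82.NC.Asm

/-!
From one diagonal variable to arbitrary matrices; constant terms.
-/

set_option autoImplicit false

namespace Pool.Agent.TH82.NC

open Matrix Pool.Agent.H552R3.PC

universe u

/-- Every polynomial involves finitely many variables. -/
theorem exists_vars {K : Type*} [Field K] {σ : Type*} (f : FreeAlgebra K σ) :
    ∃ T : Finset σ, f ∈ Algebra.adjoin K (FreeAlgebra.ι K '' (T : Set σ)) := by
  classical
  have hmono : ∀ {T T' : Finset σ} {a : FreeAlgebra K σ}, T ⊆ T' →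
      a ∈ Algebra.adjoin K (FreeAlgebra.ι K '' (T : Set σ)) →
      a ∈ Algebra.adjoin K (FreeAlgebra.ι K '' (T' : Set σ)) := by
    intro T T' a h ha
    exact Algebra.adjoin_mono (Set.image_mono (by exact_mod_cast h)) ha
  induction f using FreeAlgebra.induction with
  | grade0 r => exact ⟨∅, Subalgebra.algebraMap_mem _ r⟩
  | grade1 i => exact ⟨{i}, Algebra.subset_adjoin ⟨i, by simp, rfl⟩⟩
  | mul a b ha hb =>
    obtain ⟨T, hT⟩ := ha
    obtain ⟨T', hT'⟩ := hb
    exact ⟨T ∪ T', Subalgebra.mul_mem _ (hmono Finset.subset_union_left hT)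
      (hmono Finset.subset_union_right hT')⟩
  | add a b ha hb =>
    obtain ⟨T, hT⟩ := ha
    obtain ⟨T', hT'⟩ := hb
    exact ⟨T ∪ T', Subalgebra.add_mem _ (hmono Finset.subset_union_left hT)
      (hmono Finset.subset_union_right hT')⟩

/-- If `g` is scalar valued when the matrix of the variable `x` is diagonal, it is scalar valued. -/
theorem scalar_of_diag1 {K : Type u} [Field K] [Infinite K] {σ : Type*} {n : ℕ} (x : σ)
    (g : FreeAlgebra K σ)
    (hval : ∀ (R : Type u) [Field R] [Algebra K R] (W : σ → Matrix (Fin n) (Fin n) R),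
      (W x).IsDiag → ∃ c, FreeAlgebra.lift K W g = Matrix.scalar (Fin n) c)
    (X : σ → Matrix (Fin n) (Fin n) K) : ∃ c, FreeAlgebra.lift K X g = Matrix.scalar (Fin n) c := by
  classical
  obtain ⟨T, hT⟩ := exists_vars g
  refine Pool.Agent.TH46.NC.scalar_of_diag (J := T.erase x) (x := x) ?_ ?_ X
  · refine Algebra.adjoin_mono (Set.image_mono ?_) hT
    intro i hi
    by_cases h : i = x
    · exact Set.mem_insert_iff.mpr (Or.inl h)
    · exact Set.mem_insert_iff.mpr (Or.inr (by
        rw [Finset.mem_coe, Finset.mem_erase]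
        exact ⟨h, hi⟩))
  · intro R _ _ W hW
    exact hval R W (hW x (by simp))

/-- If `g` vanishes when the matrix of the variable `x` is diagonal, it vanishes. -/
theorem zero_of_diag1 {K : Type u} [Field K] [Infinite K] {σ : Type*} {n : ℕ} (x : σ)
    (g : FreeAlgebra K σ)
    (hval : ∀ (R : Type u) [Field R] [Algebra K R] (W : σ → Matrix (Fin n) (Fin n) R),
      (W x).IsDiag → FreeAlgebra.lift K W g = 0)
    (X : σ → Matrix (Fin n) (Fin n) K) : FreeAlgebra.lift K X g = 0 := by
  by_cases hd : (X x).IsDiag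
  · exact hval K X hd
  obtain ⟨c, hc⟩ := scalar_of_diag1 x g (fun R _ _ W hW => ⟨0, by rw [hval R W hW, map_zero]⟩) X
  obtain ⟨c', hc'⟩ := scalar_of_diag1 x (g * FreeAlgebra.ι K x)
    (fun R _ _ W hW => ⟨0, by rw [map_mul, hval R W hW, zero_mul, map_zero]⟩) X
  rw [map_mul, hc, FreeAlgebra.lift_ι_apply] at hc'
  by_cases hc0 : c = 0
  · rw [hc, hc0, map_zero]
  · exfalso
    apply hd
    intro a b hab
    have h1 := congrFun (congrFun hc' a) b
    rw [Matrix.scalar_apply, Matrix.scalar_apply, Matrix.diagonal_mul,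
      Matrix.diagonal_apply_ne _ hab] at h1
    exact (mul_eq_zero.mp h1).resolve_left hc0

/-- Polynomials whose `n`-th power is scalar valued, `n ≥ 5` prime. -/
theorem main {K : Type u} [Field K] [Infinite K] {σ : Type*} {n : ℕ} (hn : n.Prime) (hn5 : 5 ≤ n)
    (f : FreeAlgebra K σ)
    (hsc : ∀ X : σ → Matrix (Fin n) (Fin n) K, ∃ c : K,
      FreeAlgebra.lift K X (f ^ n) = Matrix.scalar (Fin n) c)
    (hns : ∃ X : σ → Matrix (Fin n) (Fin n) K, ∃ Z : Matrix (Fin n) (Fin n) K,
      FreeAlgebra.lift K X f * Z ≠ Z * FreeAlgebra.lift K X f)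
    (J : Set σ) (g h : FreeAlgebra K σ) (hfgh : f = g + h) (hg : g ∈ spn K J (· ≤ n))
    (hh : h ∈ spn K J (n < ·)) {R : Type*} [CommRing R] [Algebra K R]
    (Y : σ → Matrix (Fin n) (Fin n) R) (hY : ∀ i ∈ J, (Y i).IsDiag) :
    ∃ c : R, FreeAlgebra.lift K Y g = Matrix.scalar (Fin n) c ∧ ((n : K) ≠ 0 → c = 0) := by
  have : NeZero n := ⟨hn.ne_zero⟩
  have hpow : ∀ X : σ → Matrix (Fin n) (Fin n) K, ∀ Z : Matrix (Fin n) (Fin n) K,
      FreeAlgebra.lift K X (f ^ n) * Z = Z * FreeAlgebra.lift K X (f ^ n) := by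
    intro X Z
    obtain ⟨c, hc⟩ := hsc X
    rw [hc]
    exact (Matrix.scalar_commute c (fun _ => Commute.all _ _) Z).eq
  have htr : (n : K) ≠ 0 → ∀ X : σ → Matrix (Fin n) (Fin n) K,
      (FreeAlgebra.lift K X f).trace = 0 := by
    intro hnK X
    obtain ⟨c, hc⟩ := charpoly_of_ncentral hn hnK f hpow hns X
    rw [Matrix.trace_eq_neg_charpoly_coeff, hc, Fintype.card_fin, Polynomial.coeff_sub,
      Polynomial.coeff_X_pow, if_neg (by omega), Polynomial.coeff_C, if_neg (by omega), sub_zero,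
      neg_zero]
  set c := FreeAlgebra.lift K (fun _ : σ => (0 : K)) f with hc
  have hc0 : (n : K) ≠ 0 → c = 0 := by
    intro hnK
    have h4 := htr hnK (fun _ => 0)
    rw [lift_zero, ← hc, Matrix.trace] at h4
    simp only [Matrix.diag_apply, Matrix.algebraMap_matrix_apply, if_true, Algebra.algebraMap_self,
      RingHom.id_apply, Finset.sum_const, Finset.card_univ, Fintype.card_fin, nsmul_eq_mul] at h4
    exact (mul_eq_zero.mp h4).resolve_left hnK
  set f0 := f - algebraMap K (FreeAlgebra K σ) c with hf0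
  set g0 := g - algebraMap K (FreeAlgebra K σ) c with hg0
  have hfz : FreeAlgebra.lift K (fun _ : σ => (0 : K)) f0 = 0 := by
    rw [hf0, map_sub, AlgHom.commutes, ← hc]
    simp
  have hsc0 : ∀ X : σ → Matrix (Fin n) (Fin n) K, ∃ d : K,
      FreeAlgebra.lift K X (f0 ^ n) = Matrix.scalar (Fin n) d := by
    intro X
    by_cases hnK : (n : K) = 0
    · have : Fact n.Prime := ⟨hn⟩
      have : CharP K n := by
        refine CharP.congr (ringChar K) ?_
        have h1 := ringChar.dvd hnK
        rcases (Nat.dvd_prime hn).mp h1 with h2 | h2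
        · exact absurd h2 (CharP.ringChar_ne_one)
        · exact h2
      have : CharP (FreeAlgebra K σ) n :=
        charP_of_injective_algebraMap (algebraMap K (FreeAlgebra K σ)).injective n
      have h4 : f0 ^ n = f ^ n - algebraMap K (FreeAlgebra K σ) (c ^ n) := by
        rw [hf0, sub_pow_char_of_commute n (Algebra.commutes c f).symm, map_pow]
      obtain ⟨d, hd⟩ := hsc X
      refine ⟨d - c ^ n, ?_⟩
      rw [h4, map_sub, hd, AlgHom.commutes, map_sub]
      rfl
    · have h4 : f0 = f := by rw [hf0, hc0 hnK, map_zero, sub_zero]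
      rw [h4]; exact hsc X
  have hvan := vanish_lower f0 n hn.pos hfz hsc0
  have htr0 : (n : K) ≠ 0 → ∀ X : σ → Matrix (Fin n) (Fin n) K,
      (FreeAlgebra.lift K X f0).trace = 0 := by
    intro hnK X
    have h4 : f0 = f := by rw [hf0, hc0 hnK, map_zero, sub_zero]
    rw [h4]; exact htr hnK X
  have hg0m : g0 ∈ spn K J (· ≤ n) := by
    rw [hg0, Algebra.algebraMap_eq_smul_one]
    refine Submodule.sub_mem _ hg (Submodule.smul_mem _ _ ?_)
    exact Submodule.subset_span ⟨[], by simp [oc], by simp⟩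
  obtain ⟨s, hs, hs0⟩ := core hn hn5 J f0 g0 h (by rw [hf0, hg0, hfgh]; abel) hg0m hh hvan hsc0 htr0
    Y hY
  refine ⟨s + algebraMap K R c, ?_, fun hnK => by rw [hs0 hnK, hc0 hnK, map_zero, add_zero]⟩
  have h5 : g = g0 + algebraMap K (FreeAlgebra K σ) c := by rw [hg0]; abel
  rw [h5, map_add, hs, AlgHom.commutes, map_add]
  congr 1

end Pool.Agent.TH82.NC
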